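import Pool.Agent.Run7.h686.Ham3
import Pool.Agent.TH486.LAC.Horn

set_option autoImplicit false

/-!
Sets of vectors whose Cayley graph has a decomposition of bounded load.
-/

namespace Run7.h686

open Finset Module Pool.Agent.W111.LAR Pool.Agent.TH486.LAC

variable {V : Type} [AddCommGroup V] [Finite V]

/-- The Cayley graph of `T` has a decomposition into `|T|` graphs of maximum degree two with load
at most `L`. -/
def PLD (T : Finset V) (L : ℝ) : Prop :=
  ∃ (κ : Type) (_ : Fintype κ) (P : κ → SimpleGraph V), Fintype.card κ = T.card ∧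
    (∀ i v, ((P i).neighborSet v).ncard ≤ 2) ∧ (∀ v, ∑ i, (2 : ℝ) / csize (P i) v ≤ L) ∧
    ∀ a b, (∃ i, (P i).Adj a b) ↔ a ≠ b ∧ ∃ t ∈ T, b = a + t ∨ a = b + t

theorem PLD.empty : PLD (∅ : Finset V) 0 := by
  refine ⟨Empty, inferInstance, fun e => e.elim, by simp, fun e => e.elim, by simp, ?_⟩
  intro a b
  constructor
  · rintro ⟨e, _⟩; exact e.elim
  · rintro ⟨_, t, ht, _⟩; exact absurd ht (notMem_empty t)

theorem PLD.mono {T : Finset V} {L L' : ℝ} (h : PLD T L) (hL : L ≤ L') : PLD T L' := by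
  obtain ⟨κ, i1, P, h1, h2, h3, h4⟩ := h
  exact ⟨κ, i1, P, h1, h2, fun v => (h3 v).trans hL, h4⟩

theorem PLD.union [DecidableEq V] {T₁ T₂ : Finset V} {L₁ L₂ : ℝ} (h₁ : PLD T₁ L₁) (h₂ : PLD T₂ L₂)
    (hd : Disjoint T₁ T₂) : PLD (T₁ ∪ T₂) (L₁ + L₂) := by
  obtain ⟨κ₁, _, P₁, a1, a2, a3, a4⟩ := h₁
  obtain ⟨κ₂, _, P₂, b1, b2, b3, b4⟩ := h₂
  refine ⟨κ₁ ⊕ κ₂, inferInstance, Sum.elim P₁ P₂, ?_, ?_, ?_, ?_⟩
  · rw [Fintype.card_sum, a1, b1, card_union_of_disjoint hd]
  · rintro (i | i) v
    · exact a2 i v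
    · exact b2 i v
  · intro v
    rw [Fintype.sum_sum_type]
    exact add_le_add (a3 v) (b3 v)
  · intro a b
    constructor
    · rintro ⟨i | i, hi⟩
      · obtain ⟨h1, t, ht, h2⟩ := (a4 a b).1 ⟨i, hi⟩
        exact ⟨h1, t, mem_union_left _ ht, h2⟩
      · obtain ⟨h1, t, ht, h2⟩ := (b4 a b).1 ⟨i, hi⟩
        exact ⟨h1, t, mem_union_right _ ht, h2⟩
    · rintro ⟨h1, t, ht, h2⟩
      rcases mem_union.1 ht with ht | ht
      · obtain ⟨i, hi⟩ := (a4 a b).2 ⟨h1, t, ht, h2⟩
        exact ⟨Sum.inl i, hi⟩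
      · obtain ⟨i, hi⟩ := (b4 a b).2 ⟨h1, t, ht, h2⟩
        exact ⟨Sum.inr i, hi⟩

/-- The classes of a colouring. -/
theorem PLD.classes [DecidableEq V] {β : Type} [DecidableEq β] (T : Finset V) (c : V → β)
    (L : β → ℝ) (h : ∀ j, PLD (T.filter (fun x => c x = j)) (L j)) (s : Finset β) :
    PLD (T.filter (fun x => c x ∈ s)) (∑ j ∈ s, L j) := by
  induction s using Finset.induction_on with
  | empty =>
    have : T.filter (fun x => c x ∈ (∅ : Finset β)) = ∅ := by simp
    rw [this, sum_empty]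
    exact PLD.empty
  | insert j s hj ih =>
    have : T.filter (fun x => c x ∈ insert j s) =
        T.filter (fun x => c x = j) ∪ T.filter (fun x => c x ∈ s) := by
      ext x
      simp only [mem_filter, mem_insert, mem_union]
      tauto
    rw [this, sum_insert hj]
    refine (h j).union ih ?_
    rw [Finset.disjoint_left]
    intro x hx hx'
    have h1 := (mem_filter.1 hx).2
    have h2 := (mem_filter.1 hx').2
    rw [h1] at h2
    exact hj h2

theorem PLD.of_dec' {X : Finset V} {ι : Type} [Fintype ι] (x e : ι → V)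
    (he : Function.Injective e) (heX : ∀ t, t ∈ X ↔ ∃ i, e i = t)
    (hx : ∀ i, x i = e i ∨ x i = -e i) {c : ℕ} (hc : 0 < c) (h : DecF x c) :
    PLD X (X.card * (2 / c)) := by
  classical
  obtain ⟨P, h1, h2, h3⟩ := h
  have hcard : Fintype.card ι = X.card := by
    have : X = univ.image e := by
      ext t
      rw [heX]
      simp
    rw [this, card_image_of_injective _ he, card_univ]
  refine ⟨ι, inferInstance, P, hcard, h1, ?_, ?_⟩
  · intro v
    have h4 : ∀ i, (2 : ℝ) / csize (P i) v ≤ 2 / c := by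
      intro i
      have hc' : (0 : ℝ) < c := by exact_mod_cast hc
      exact div_le_div_of_nonneg_left (by norm_num) hc' (by exact_mod_cast h2 i v)
    refine (sum_le_sum fun i _ => h4 i).trans ?_
    rw [sum_const, card_univ, hcard, nsmul_eq_mul]
  · intro a b
    rw [h3]
    constructor
    · rintro ⟨hne, t, ht⟩
      refine ⟨hne, e t, (heX _).2 ⟨t, rfl⟩, ?_⟩
      rcases hx t with h | h
      · rw [h] at ht; exact ht
      · rw [h] at ht
        rcases ht with ht | ht
        · right; rw [ht]; abel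
        · left; rw [ht]; abel
    · rintro ⟨hne, t, htX, ht⟩
      obtain ⟨i, rfl⟩ := (heX t).1 htX
      refine ⟨hne, i, ?_⟩
      rcases hx i with h | h
      · rw [h]; exact ht
      · rw [h]
        rcases ht with ht | ht
        · right; rw [ht]; abel
        · left; rw [ht]; abel

theorem PLD.of_dec {X : Finset V} (x : X → V) (hx : ∀ t, x t = t.1 ∨ x t = -t.1) {c : ℕ}
    (hc : 0 < c) (h : DecF x c) : PLD X (X.card * (2 / c)) := by
  obtain ⟨P, h1, h2, h3⟩ := h
  refine ⟨X, inferInstance, P, by simp, h1, ?_, ?_⟩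
  · intro v
    have h4 : ∀ i : X, (2 : ℝ) / csize (P i) v ≤ 2 / c := by
      intro i
      have hc' : (0 : ℝ) < c := by exact_mod_cast hc
      exact div_le_div_of_nonneg_left (by norm_num) hc' (by exact_mod_cast h2 i v)
    refine (sum_le_sum fun i _ => h4 i).trans ?_
    rw [sum_const, card_univ, Fintype.card_coe, nsmul_eq_mul]
  · intro a b
    rw [h3]
    constructor
    · rintro ⟨hne, t, ht⟩
      refine ⟨hne, t.1, t.2, ?_⟩
      rcases hx t with h | h
      · rw [h] at ht; exact ht
      · rw [h] at ht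
        rcases ht with ht | ht
        · right; rw [ht]; abel
        · left; rw [ht]; abel
    · rintro ⟨hne, t, htX, ht⟩
      refine ⟨hne, ⟨t, htX⟩, ?_⟩
      rcases hx ⟨t, htX⟩ with h | h
      · rw [h]; exact ht
      · rw [h]
        rcases ht with ht | ht
        · right; rw [ht]; abel
        · left; rw [ht]; abel

/-- The load of an independent set of `m` vectors. -/
noncomputable def fl (p m : ℕ) : ℝ := 2 * m / p ^ m

theorem fl_nonneg (p m : ℕ) : 0 ≤ fl p m := by unfold fl; positivity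

theorem fl_succ {p m : ℕ} (hp : 3 ≤ p) (hm : 1 ≤ m) : fl p (m + 1) ≤ fl p m := by
  unfold fl
  have hp' : (3 : ℝ) ≤ p := by exact_mod_cast hp
  have hm' : (1 : ℝ) ≤ m := by exact_mod_cast hm
  rw [div_le_div_iff₀ (by positivity) (by positivity), pow_succ]
  push_cast
  have : (0 : ℝ) < (p : ℝ) ^ m := by positivity
  nlinarith [mul_le_mul_of_nonneg_left hp' (mul_nonneg (by linarith : (0 : ℝ) ≤ m) this.le)]

theorem fl_anti {p m n : ℕ} (hp : 3 ≤ p) (hm : 1 ≤ m) (hmn : m ≤ n) : fl p n ≤ fl p m := by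
  induction n, hmn using Nat.le_induction with
  | base => exact le_rfl
  | succ n hn ih => exact (fl_succ hp (hm.trans hn)).trans ih

/-- Loads of equitable sizes. -/
theorem load_bound {p l r b : ℕ} (hp : 3 ≤ p) (m : Fin l → ℕ) (heq : ∀ i j, m i ≤ m j + 1)
    (hr : 1 ≤ r) (hrb : 2 ≤ r ∨ b = 0) (hbl : b ≤ l) (hN : l * r ≤ ∑ j, m j + b) :
    ∑ j, fl p (m j) ≤ ((l : ℝ) - b) * fl p r + b * fl p (r - 1) := by
  have hfr : b = 0 ∨ fl p r ≤ fl p (r - 1) := by
    rcases hrb with h | h
    · right; exact fl_anti hp (by omega) (by omega)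
    · left; exact h
  by_cases hall : ∀ j, r ≤ m j
  · calc ∑ j, fl p (m j) ≤ ∑ _j : Fin l, fl p r := sum_le_sum fun j _ => fl_anti hp hr (hall j)
      _ = l * fl p r := by rw [sum_const, card_univ, Fintype.card_fin, nsmul_eq_mul]
      _ ≤ _ := by
        have hb0 : (0 : ℝ) ≤ b := by positivity
        rcases hfr with h | h
        · subst h; simp
        · nlinarith
  · push Not at hall
    obtain ⟨j₀, hj₀⟩ := hall
    have hub : ∀ j, m j ≤ r := fun j => by have := heq j j₀; omega
    have hlb : ∀ j, r ≤ m j + 1 := by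
      intro j
      by_contra hcon
      have h1 : ∀ i, m i + 1 ≤ r := fun i => by have := heq i j; omega
      have h2 : ∑ i, (m i + 1) < ∑ _i : Fin l, r :=
        sum_lt_sum (fun i _ => h1 i) ⟨j, mem_univ _, by omega⟩
      rw [sum_add_distrib, sum_const, sum_const, card_univ, Fintype.card_fin, smul_eq_mul,
        smul_eq_mul, mul_one] at h2
      omega
    have hterm : ∀ j, fl p (m j) = fl p r + ((r : ℝ) - m j) * (fl p (r - 1) - fl p r) := by
      intro j
      have h1 := hub j
      have h2 := hlb j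
      have h3 : m j = r ∨ m j = r - 1 := by omega
      rcases h3 with h3 | h3
      · rw [h3]; ring
      · have h4 : (m j : ℝ) = (r : ℝ) - 1 := by
          rw [h3, Nat.cast_sub hr]; norm_num
        rw [h4, h3]; ring
    have hs : ∑ j, ((r : ℝ) - m j) ≤ b := by
      rw [sum_sub_distrib, sum_const, card_univ, Fintype.card_fin, nsmul_eq_mul]
      have : ((l * r : ℕ) : ℝ) ≤ ((∑ j, m j + b : ℕ) : ℝ) := by exact_mod_cast hN
      push_cast at this
      linarith
    rw [sum_congr rfl fun j _ => hterm j, sum_add_distrib, ← sum_mul, sum_const, card_univ,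
      Fintype.card_fin, nsmul_eq_mul]
    have hs0 : 1 ≤ ∑ j, ((r : ℝ) - m j) := by
      have h1 : ∀ j, (0 : ℝ) ≤ (r : ℝ) - m j := fun j => by
        have : (m j : ℝ) ≤ r := by exact_mod_cast hub j
        linarith
      have h2 : (1 : ℝ) ≤ (r : ℝ) - m j₀ := by
        have : (m j₀ : ℝ) + 1 ≤ r := by exact_mod_cast hj₀
        linarith
      exact h2.trans (single_le_sum (fun j _ => h1 j) (mem_univ j₀))
    rcases hfr with h | h
    · subst h
      rw [Nat.cast_zero] at hs
      linarith
    · nlinarith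

section indep

variable {p : ℕ} [Fact p.Prime] [Module (ZMod p) V]

theorem PLD.indep (hp : 3 ≤ p) {X : Finset V} (hX : Ind (ZMod p) X) : PLD X (fl p X.card) := by
  have h1 : LinearIndependent (ZMod p) (fun t : X => (t : V)) := by
    rw [linearIndependent_iff_card_eq_finrank_span]
    unfold Ind at hX
    rw [Set.finrank, Subtype.range_coe_subtype, Fintype.card_coe]
    have : {x | x ∈ X} = (X : Set V) := rfl
    rw [this, hX]
  have h2 := PLD.of_dec (fun t : X => (t : V)) (fun t => Or.inl rfl) (by positivity)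
    (ham hp _ h1)
  rw [Nat.card_eq_fintype_card, Fintype.card_coe] at h2
  refine h2.mono (le_of_eq ?_)
  unfold fl
  push_cast
  ring

/-- Equitable partition into independent sets. -/
theorem PLD.equit [DecidableEq V] (hp : 3 ≤ p) {T : Finset V} {l : ℕ} (hl : 0 < l)
    (h : ∀ A ⊆ T, A.card ≤ l * finrank (ZMod p) ↥(Submodule.span (ZMod p) (A : Set V))) :
    ∃ m : Fin l → ℕ, (∀ i j, m i ≤ m j + 1) ∧ ∑ j, m j = T.card ∧ PLD T (∑ j, fl p (m j)) := by
  obtain ⟨c, hc1, hc2⟩ := equitable (K := ZMod p) hl h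
  refine ⟨fun j => (T.filter (fun x => c x = j)).card, hc2, ?_, ?_⟩
  · exact (card_eq_sum_card_fiberwise (fun x _ => mem_univ (c x))).symm
  · have := PLD.classes T c (fun j => fl p (T.filter (fun x => c x = j)).card)
      (fun j => PLD.indep hp (hc1 j)) univ
    simpa using this

end indep

end Run7.h686
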