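import Pool.Agent.Run7.h686.Main
import Pool.Agent.Y59.LA.Comm2

set_option autoImplicit false

/-!
Linear arboricity of Cayley graphs of elementary abelian groups.
-/

namespace Run7.h686

open Finset SimpleGraph H931R3.LA Pool.Agent.W111.LAR Pool.Agent.TH486.LAC

theorem PLD.ld {V : Type} [AddCommGroup V] [Finite V] {T : Finset V} (h : PLD T 1)
    (X : SimpleGraph V) (hX : ∀ a b, X.Adj a b ↔ a ≠ b ∧ ∃ t ∈ T, b = a + t ∨ a = b + t) :
    LD X T.card := by
  obtain ⟨κ, i1, P, h1, h2, h3, h4⟩ := h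
  refine ⟨κ, i1, P, h1, h2, h3, ?_⟩
  ext a b
  rw [hX, iSup_adj, h4]

/-- One half of a symmetric set. -/
theorem halve_add {V : Type} [AddCommGroup V] [Finite V] (S : Finset V)
    (hinv : ∀ s ∈ S, -s ∈ S) (hno : ∀ s ∈ S, s + s ≠ 0) :
    ∃ T ⊆ S, (∀ s ∈ S, s ∈ T ∨ -s ∈ T) ∧ (∀ s ∈ T, -s ∉ T) ∧ S.card = 2 * T.card := by
  classical
  obtain ⟨T, h1, h2, h3, h4, -⟩ := Pool.Agent.Y59.LA.halve' (Γ := Multiplicative V) S
    (fun s hs => hinv s hs) (fun s hs => hno s hs)
  exact ⟨T, h1, h2, h3, h4⟩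

theorem ld_mod {p : ℕ} [Fact p.Prime] (hp3 : 3 ≤ p) {V : Type} [AddCommGroup V]
    [Module (ZMod p) V] [Finite V] (S : Finset V) (X : SimpleGraph V)
    (hX : ∀ a b, X.Adj a b ↔ b - a ∈ S) : LD X (S.card / 2) := by
  classical
  have h0 : (0 : V) ∉ S := by
    intro h
    exact X.irrefl ((hX 0 0).2 (by simpa using h))
  have hinv : ∀ s ∈ S, -s ∈ S := by
    intro s hs
    have h1 : X.Adj 0 s := (hX 0 s).2 (by simpa using hs)
    have h2 := (hX s 0).1 h1.symm
    simpa using h2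
  have hno : ∀ s ∈ S, s + s ≠ 0 := by
    intro s hs h
    rw [← two_smul (ZMod p)] at h
    rcases smul_eq_zero.1 h with h1 | h1
    · exact two_ne hp3 h1
    · exact h0 (h1 ▸ hs)
  obtain ⟨T, hTS, hT1, hT2, hT3⟩ := halve_add S hinv hno
  have h1 := PLD.ld (pld_one (p := p) hp3 T hT2) X (by
    intro a b
    rw [hX]
    constructor
    · intro h
      refine ⟨fun hab => h0 (by rw [hab, sub_self] at h; exact h), ?_⟩
      rcases hT1 _ h with h' | h'
      · exact ⟨b - a, h', Or.inl (by abel)⟩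
      · exact ⟨-(b - a), h', Or.inr (by abel)⟩
    · rintro ⟨-, t, ht, h | h⟩
      · rw [h, add_sub_cancel_left]; exact hTS ht
      · rw [h]
        have : b - (b + t) = -t := by abel
        rw [this]; exact hinv t (hTS ht))
  rw [hT3, Nat.mul_div_cancel_left _ (by norm_num)]
  exact h1

/-- Cayley graphs of elementary abelian groups of odd order have the required decomposition. -/
theorem ld_elem {p : ℕ} (hp : p.Prime) (hp2 : p ≠ 2) {V : Type} [AddCommGroup V] [Finite V]
    (hV : ∀ v : V, p • v = 0) (S : Finset V) (X : SimpleGraph V)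
    (hX : ∀ a b, X.Adj a b ↔ b - a ∈ S) : LD X (S.card / 2) := by
  have : Fact p.Prime := ⟨hp⟩
  have : Module (ZMod p) V := AddCommGroup.zmodModule hV
  have hp3 : 3 ≤ p := by
    have := hp.two_le
    omega
  exact ld_mod hp3 S X hX

end Run7.h686
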