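import Pool.Agent.Run7.h686.Good3

set_option autoImplicit false

/-!
The exceptional case of eleven vectors in a space with 27 elements.
-/

namespace Run7.h686

open Finset Module Pool.Agent.TH486.LAC

theorem exists_match {ι α : Type} [Finite ι] (f g : ι → α)
    (h : ∀ w, {i | f i = w}.ncard = {i | g i = w}.ncard) : ∃ τ : ι ≃ ι, ∀ i, g (τ i) = f i := by
  have h1 : ∀ w, Nonempty ({i // f i = w} ≃ {i // g i = w}) := by
    intro w
    exact Finite.card_eq.1 (h w)
  have e : ∀ w, {i // f i = w} ≃ {i // g i = w} := fun w => (h1 w).some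
  exact ⟨Equiv.ofFiberEquiv e, fun i => Equiv.ofFiberEquiv_map e i⟩

theorem three_choice : ∀ ρ : Fin 3 → ZMod 3, ∃ α β : Equiv.Perm (Fin 3), ∀ c,
    ρ c + ((![0, 1, 2] : Fin 3 → ZMod 3) (β c) - (![0, 1, 2] : Fin 3 → ZMod 3) (α c)) ≠ 0 := by
  decide

theorem two_choice : ∀ ρ : Fin 2 → ZMod 3, ∃ α β : Equiv.Perm (Fin 2), ∀ c,
    ρ c + ((![0, 1] : Fin 2 → ZMod 3) (β c) - (![0, 1] : Fin 2 → ZMod 3) (α c)) ≠ 0 := by
  decide

/-- Values of the last coordinate. -/
def g5 : Fin 3 ⊕ Fin 2 → ZMod 3 := Sum.elim ![0, 1, 2] ![0, 1]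

/-- Values of the second coordinate. -/
def f5 : Fin 3 ⊕ Fin 2 → ZMod 3 := Sum.elim (fun _ => 0) (fun _ => 1)

theorem five_core : ∃ δ : (Unit × ZMod 3) × ZMod 3 → Fin 3 ⊕ Fin 2 →
    ((Unit × ZMod 3) × ZMod 3) × ZMod 3,
    Core (p := 3) (fun c => ((((0 : Unit), (1 : ZMod 3)), f5 c), g5 c)) δ := by
  classical
  obtain ⟨h1, h2⟩ := base_core 3 (Fin 3 ⊕ Fin 2)
  have hall : {a : Fin 3 ⊕ Fin 2 | ((0 : Unit), (1 : ZMod 3)) = (0, 1)}.ncard = 5 := by
    have : {a : Fin 3 ⊕ Fin 2 | ((0 : Unit), (1 : ZMod 3)) = (0, 1)} = Set.univ := by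
      ext a; simp
    rw [this, Set.ncard_univ]
    simp
  obtain ⟨δ, hc, -⟩ := split (p := 3) le_rfl h1 h2 (0, 1) {Sum.inr 0, Sum.inr 1}
    (fun a _ => rfl) (by rw [hall]; norm_num) (by rw [hall]; rfl)
  have hu : ∀ a : Fin 3 ⊕ Fin 2, (if a ∈ ({Sum.inr 0, Sum.inr 1} : Finset (Fin 3 ⊕ Fin 2))
      then (1 : ZMod 3) else 0) = f5 a := by decide
  simp only [hu] at hc
  let u : Fin 3 ⊕ Fin 2 → (Unit × ZMod 3) × ZMod 3 := fun c => (((0 : Unit), (1 : ZMod 3)), f5 c)
  have hc : Core (p := 3) u δ := hc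
  obtain ⟨o, ho⟩ := greedy (p := 3) (ι := Fin 3 ⊕ Fin 2) (β := Unit × ZMod 3) (fun _ => Set.univ)
    (fun z => {h : ZMod 3 → Fin 3 ⊕ Fin 2 → ZMod 3 // ∀ y w ε,
      {i | δ z i = w ∧ h y i = ε}.ncard = {c | u c = w ∧ g5 c = ε}.ncard})
    (fun z h i => ∑ y, h.1 y i) (fun b o i hi => absurd (Set.mem_univ i) hi) (by
      intro z ρ
      obtain ⟨τ, hτ⟩ := exists_match (δ z) u (hc.1 z)
      obtain ⟨α3, β3, h3⟩ := three_choice (fun c => ρ (τ.symm (Sum.inl c)))
      obtain ⟨α2, β2, h2⟩ := two_choice (fun c => ρ (τ.symm (Sum.inr c)))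
      let α : Equiv.Perm (Fin 3 ⊕ Fin 2) := Equiv.sumCongr α3 α2
      let β : Equiv.Perm (Fin 3 ⊕ Fin 2) := Equiv.sumCongr β3 β2
      have fα : ∀ c, u (α c) = u c := by rintro (c | c) <;> rfl
      have fβ : ∀ c, u (β c) = u c := by rintro (c | c) <;> rfl
      refine ⟨⟨fun y i => g5 ((if y = 0 then β else α) (τ i)), ?_⟩, ?_⟩
      · intro y w ε
        let π : Equiv.Perm (Fin 3 ⊕ Fin 2) := if y = 0 then β else α
        have fπ : ∀ c, u (π c) = u c := by
          intro c
          show u ((if y = 0 then β else α) c) = u c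
          split_ifs
          · exact fβ c
          · exact fα c
        refine Set.ncard_congr (fun i _ => π (τ i)) ?_ ?_ ?_
        · rintro i ⟨k1, k2⟩
          refine ⟨?_, k2⟩
          rw [fπ, hτ]; exact k1
        · intro i j _ _ hij
          exact τ.injective (π.injective hij)
        · rintro c ⟨k1, k2⟩
          refine ⟨τ.symm (π.symm c), ⟨?_, ?_⟩, by simp⟩
          · rw [← hτ, Equiv.apply_symm_apply, ← k1]
            have := fπ (π.symm c)
            rw [Equiv.apply_symm_apply] at this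
            exact this.symm
          · show g5 (π (τ (τ.symm (π.symm c)))) = ε
            rw [Equiv.apply_symm_apply, Equiv.apply_symm_apply]
            exact k2
      · intro i _
        have hsum : ∑ y : ZMod 3, g5 ((if y = 0 then β else α) (τ i)) =
            g5 (β (τ i)) - g5 (α (τ i)) := by
          have e2 : ∀ y : ZMod 3, g5 ((if y = 0 then β else α) (τ i)) =
              (if y = 0 then g5 (β (τ i)) - g5 (α (τ i)) else 0) + g5 (α (τ i)) := by
            intro y; split_ifs <;> simp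
          simp only [e2, sum_add_distrib, sum_ite_eq', mem_univ, if_true, sum_const, card_univ,
            ZMod.card]
          have : (3 : ℕ) • g5 (α (τ i)) = 0 := by
            rw [nsmul_eq_mul]
            have : ((3 : ℕ) : ZMod 3) = 0 := by decide
            rw [this, zero_mul]
          rw [this, add_zero]
        show ρ i + ∑ y : ZMod 3, g5 ((if y = 0 then β else α) (τ i)) ≠ 0
        rw [hsum]
        obtain ⟨c, rfl⟩ : ∃ c, i = τ.symm c := ⟨τ i, by simp⟩
        rw [Equiv.apply_symm_apply]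
        rcases c with c | c
        · exact h3 c
        · exact h2 c) univ
  have hstep := hc.step g5 (fun z y i => (o z).1 y i) (fun z y w ε => (o z).2 y w ε)
    (fun i => ho i ⟨0, mem_univ _, Set.mem_univ _⟩)
  exact ⟨_, hstep⟩

/-- Five vectors. -/
theorem ham5 {V : Type} [AddCommGroup V] [Module (ZMod 3) V] [Finite V] (b y a : V)
    (h : LinearIndependent (ZMod 3) ![b, b + y, a]) :
    DecF (fun c : Fin 3 ⊕ Fin 2 => (Sum.elim (![b, b + y, b + (2 : ZMod 3) • y]) ![a, a + y]) c)
      (3 ^ 3) := by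
  classical
  obtain ⟨δ, hc⟩ := five_core
  have h2 := dec_of_core (J := Fin 3) hc
    (fun c : Fin 3 ⊕ Fin 2 => (Sum.elim (![b, b + y, b + (2 : ZMod 3) • y]) ![a, a + y]) c)
    ![Sum.inl 0, Sum.inl 1, Sum.inr 0] ?_ ?_ ?_
  · rw [Nat.card_eq_fintype_card, Fintype.card_fin] at h2
    exact h2
  · convert h using 1
    ext t
    fin_cases t <;> rfl
  · simp
  · rintro (c | c)
    · fin_cases c
      · exact ⟨![1, 0, 0], by simp [Fin.sum_univ_three], by simp [Fin.sum_univ_three]⟩
      · exact ⟨![0, 1, 0], by simp [Fin.sum_univ_three], by simp [Fin.sum_univ_three]⟩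
      · refine ⟨![-1, 2, 0], ?_, ?_⟩
        · rw [Fin.sum_univ_three]
          decide
        · simp [Fin.sum_univ_three]
          rw [two_smul, two_smul]
          abel
    · fin_cases c
      · exact ⟨![0, 0, 1], by simp [Fin.sum_univ_three], by simp [Fin.sum_univ_three]⟩
      · refine ⟨![-1, 1, 1], ?_, ?_⟩
        · rw [Fin.sum_univ_three]
          decide
        · simp [Fin.sum_univ_three]
          abel

/-- Eleven vectors in a space with 27 elements. -/
theorem exc11 {V : Type} [AddCommGroup V] [Module (ZMod 3) V] [Finite V] (T : Finset V)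
    (U : Submodule (ZMod 3) V) (hT : ∀ t ∈ T, -t ∉ T) (hTU : ∀ t ∈ T, t ∈ U)
    (hU : finrank (ZMod 3) U = 3) (hc : T.card = 11) : PLD T 1 := by
  classical
  have := Fintype.ofFinite V
  have hSU : ∀ v ∈ sym T, v ∈ U := by
    intro v hv
    rcases mem_sym.1 hv with h | h
    · exact hTU v h
    · have := U.neg_mem (hTU _ h)
      rwa [neg_neg] at this
  have hsymneg : ∀ v, -v ∈ sym T ↔ v ∈ sym T := by
    intro v
    rw [mem_sym, mem_sym, neg_neg, or_comm]
  -- the missing vectors
  set UU : Finset V := (univ : Finset V).filter (fun v => v ∈ U) with hUU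
  have hUUc : UU.card = 27 := by
    rw [hUU, ← nc]
    have := card_sub U
    rw [hU] at this
    exact this.trans (by norm_num)
  set Mis : Finset V := (UU.erase 0) \ sym T with hMis
  have hMc : Mis.card = 4 := by
    have h1 : sym T ⊆ UU.erase 0 := by
      intro v hv
      rw [mem_erase, hUU, mem_filter]
      exact ⟨fun h => zero_notMem_sym hT (h ▸ hv), mem_univ _, hSU v hv⟩
    rw [hMis, card_sdiff_of_subset h1, card_sym hT, hc, card_erase_of_mem (by
      rw [hUU, mem_filter]; exact ⟨mem_univ _, U.zero_mem⟩), hUUc]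
  have memM : ∀ v, v ∈ Mis ↔ v ≠ 0 ∧ v ∈ U ∧ v ∉ sym T := by
    intro v
    rw [hMis, mem_sdiff, mem_erase, hUU, mem_filter]
    constructor
    · rintro ⟨⟨h1, _, h2⟩, h3⟩; exact ⟨h1, h2, h3⟩
    · rintro ⟨h1, h2, h3⟩; exact ⟨⟨h1, mem_univ _, h2⟩, h3⟩
  have hMneg : ∀ v ∈ Mis, -v ∈ Mis := by
    intro v hv
    obtain ⟨h1, h2, h3⟩ := (memM v).1 hv
    exact (memM _).2 ⟨neg_ne_zero.2 h1, U.neg_mem h2, fun h => h3 ((hsymneg v).1 h)⟩
  obtain ⟨m₁, hm₁⟩ : Mis.Nonempty := by rw [← card_pos]; omega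
  obtain ⟨hm10, hm1U, -⟩ := (memM m₁).1 hm₁
  obtain ⟨m₂, hm₂⟩ : (Mis \ {m₁, -m₁}).Nonempty := by
    rw [← card_pos]
    have h1 := le_card_sdiff ({m₁, -m₁} : Finset V) Mis
    have h2 := card_le_two (a := m₁) (b := -m₁)
    omega
  obtain ⟨hm2M, hm2n⟩ := mem_sdiff.1 hm₂
  rw [mem_insert, mem_singleton, not_or] at hm2n
  obtain ⟨hm20, hm2U, -⟩ := (memM m₂).1 hm2M
  have hsp : ∀ c : ZMod 3, c = 0 ∨ c = 1 ∨ c = -1 := by decide
  have hm2s : m₂ ∉ Submodule.span (ZMod 3) {m₁} := by
    intro h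
    obtain ⟨c, hc⟩ := Submodule.mem_span_singleton.1 h
    rcases hsp c with rfl | rfl | rfl
    · exact hm20 (by rw [← hc, zero_smul])
    · exact hm2n.1 (by rw [← hc, one_smul])
    · exact hm2n.2 (by rw [← hc, neg_smul, one_smul])
  set W : Submodule (ZMod 3) V := Submodule.span (ZMod 3) {m₁} ⊔ Submodule.span (ZMod 3) {m₂}
    with hW
  have hWf : finrank (ZMod 3) W = 2 := by
    rw [hW, fr_insert hm2s, finrank_span_singleton hm10]
  have hm1W : m₁ ∈ W := Submodule.mem_sup_left (Submodule.mem_span_singleton_self _)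
  have hm2W : m₂ ∈ W := Submodule.mem_sup_right (Submodule.mem_span_singleton_self _)
  obtain ⟨m₃, hm3U, hm3W⟩ : ∃ v ∈ U, v ∉ W := by
    by_contra hcon
    push Not at hcon
    have h1 : U ≤ W := fun v hv => hcon v hv
    have h2 := Submodule.finrank_mono h1
    omega
  have hMW : ∀ v ∈ Mis, v ∈ W := by
    have h1 : ({m₁, -m₁, m₂, -m₂} : Finset V) ⊆ Mis := by
      intro v hv
      simp only [mem_insert, mem_singleton] at hv
      rcases hv with rfl | rfl | rfl | rfl
      · exact hm₁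
      · exact hMneg _ hm₁
      · exact hm2M
      · exact hMneg _ hm2M
    have nself : ∀ v : V, v ≠ 0 → v ≠ -v := by
      intro v hv h
      have h2 : (2 : ZMod 3) • v = 0 := by
        rw [two_smul]
        nth_rewrite 2 [h]
        exact add_neg_cancel v
      rcases smul_eq_zero.1 h2 with h3 | h3
      · revert h3; decide
      · exact hv h3
    have h2 : ({m₁, -m₁, m₂, -m₂} : Finset V).card = 4 := by
      have k1 : m₁ ≠ m₂ := fun h => hm2n.1 h.symm
      have k2 : m₁ ≠ -m₂ := fun h => hm2n.2 (by rw [h, neg_neg])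
      have k3 : -m₁ ≠ m₂ := fun h => hm2n.2 h.symm
      have k4 : -m₁ ≠ -m₂ := fun h => k1 (neg_injective h)
      rw [card_insert_of_notMem (by simp [nself _ hm10, k1, k2]),
        card_insert_of_notMem (by simp [k3, k1]), card_pair (nself _ hm20)]
    have h3 := eq_of_subset_of_card_le h1 (by rw [hMc, h2])
    intro v hv
    rw [← h3] at hv
    simp only [mem_insert, mem_singleton] at hv
    rcases hv with rfl | rfl | rfl | rfl
    · exact hm1W
    · exact W.neg_mem hm1W
    · exact hm2W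
    · exact W.neg_mem hm2W
  -- vectors outside `W` are available
  have hav : ∀ w ∈ W, m₃ + w ∈ sym T := by
    intro w hw
    by_contra hcon
    have hWU : W ≤ U := sup_le (by rw [Submodule.span_singleton_le_iff_mem]; exact hm1U)
      (by rw [Submodule.span_singleton_le_iff_mem]; exact hm2U)
    have h1 : m₃ + w ∈ Mis := by
      rw [memM]
      refine ⟨fun h => hm3W ?_, U.add_mem hm3U (hWU hw), hcon⟩
      have : m₃ = -w := eq_neg_of_add_eq_zero_left h
      rw [this]; exact W.neg_mem hw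
    have h2 := hMW _ h1
    apply hm3W
    have : m₃ = (m₃ + w) - w := by abel
    rw [this]
    exact W.sub_mem h2 hw
  let ι := Fin 3 ⊕ Fin 2
  let w : ι → V := Sum.elim ![0, m₁, (2 : ZMod 3) • m₁] ![m₂, m₂ + m₁]
  have hwW : ∀ i, w i ∈ W := by
    rintro (c | c)
    · fin_cases c
      · exact W.zero_mem
      · exact hm1W
      · exact W.smul_mem _ hm1W
    · fin_cases c
      · exact hm2W
      · exact W.add_mem hm2W hm1W
  have hlin : ∀ c d : ZMod 3, c • m₁ + d • m₂ = 0 → c = 0 ∧ d = 0 := by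
    intro c d h
    have hd : d = 0 := by
      by_contra hd
      apply hm2s
      rw [Submodule.mem_span_singleton]
      refine ⟨-(d⁻¹ * c), ?_⟩
      have : m₂ = d⁻¹ • (d • m₂) := by rw [smul_smul, inv_mul_cancel₀ hd, one_smul]
      rw [this, eq_neg_of_add_eq_zero_right h, smul_neg, smul_smul, neg_smul]
    rw [hd, zero_smul, add_zero] at h
    exact ⟨(smul_eq_zero.1 h).resolve_right hm10, hd⟩
  have hwinj : Function.Injective w := by
    have hco : ∀ i, w i = (g5 i) • m₁ + (f5 i) • m₂ := by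
      rintro (c | c)
      · fin_cases c
        · simp [w, g5, f5]
        · simp [w, g5, f5]
        · simp [w, g5, f5]
      · fin_cases c
        · simp [w, g5, f5]
        · simp [w, g5, f5]; abel
    have hdec : ∀ i j : Fin 3 ⊕ Fin 2, g5 i - g5 j = 0 ∧ f5 i - f5 j = 0 → i = j := by decide
    intro i j hij
    apply hdec
    apply hlin
    rw [hco, hco] at hij
    rw [sub_smul, sub_smul]
    have : g5 i • m₁ - g5 j • m₁ + (f5 i • m₂ - f5 j • m₂) =
        (g5 i • m₁ + f5 i • m₂) - (g5 j • m₁ + f5 j • m₂) := by abel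
    rw [this, hij, sub_self]
  let x : ι → V := fun i => m₃ + w i
  have hrep : ∀ i, ∃ s ∈ T, x i = s ∨ x i = -s := by
    intro i
    rcases mem_sym.1 (hav _ (hwW i)) with h | h
    · exact ⟨m₃ + w i, h, Or.inl rfl⟩
    · exact ⟨-(m₃ + w i), h, Or.inr (neg_neg _).symm⟩
  choose e heT he using hrep
  have hopp : ∀ i j, x i ≠ -x j := by
    intro i j h
    have h1 : (2 : ZMod 3) • m₃ = -(w i + w j) := by
      have h2 : m₃ + w i = -(m₃ + w j) := h
      rw [two_smul]
      have : m₃ + m₃ = (m₃ + w i) + m₃ - w i := by abel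
      rw [this, h2]; abel
    apply hm3W
    have h3 : m₃ = (2 : ZMod 3)⁻¹ • ((2 : ZMod 3) • m₃) := by
      rw [smul_smul, inv_mul_cancel₀ (by decide), one_smul]
    rw [h3, h1]
    exact W.smul_mem _ (W.neg_mem (W.add_mem (hwW i) (hwW j)))
  have heinj : Function.Injective e := by
    intro i j hij
    rcases he i with h | h <;> rcases he j with h' | h'
    · exact hwinj (add_left_cancel (h.trans (hij.trans h'.symm)))
    · exact absurd (by rw [h, h', hij, neg_neg]) (hopp i j)
    · exact absurd (by rw [h, h', hij]) (hopp i j)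
    · exact hwinj (add_left_cancel (h.trans ((congrArg Neg.neg hij).trans h'.symm)))
  set X : Finset V := univ.image e with hX
  have hXT : X ⊆ T := by
    intro v hv
    obtain ⟨i, -, rfl⟩ := mem_image.1 hv
    exact heT i
  have hXc : X.card = 5 := by
    rw [hX, card_image_of_injective _ heinj]
    rfl
  have hind : LinearIndependent (ZMod 3) ![m₃, m₃ + m₁, m₃ + m₂] := by
    rw [Fintype.linearIndependent_iff]
    intro g hg
    rw [Fin.sum_univ_three] at hg
    have h1 : (g 0 + g 1 + g 2) • m₃ + (g 1 • m₁ + g 2 • m₂) = 0 := by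
      have : g 0 • m₃ + g 1 • (m₃ + m₁) + g 2 • (m₃ + m₂) = 0 := hg
      rw [← this, add_smul, add_smul, smul_add, smul_add]
      abel
    have h2 : g 0 + g 1 + g 2 = 0 := by
      by_contra hne
      apply hm3W
      have : m₃ = (g 0 + g 1 + g 2)⁻¹ • ((g 0 + g 1 + g 2) • m₃) := by
        rw [smul_smul, inv_mul_cancel₀ hne, one_smul]
      rw [this, eq_neg_of_add_eq_zero_left h1]
      exact W.smul_mem _ (W.neg_mem (W.add_mem (W.smul_mem _ hm1W) (W.smul_mem _ hm2W)))
    rw [h2, zero_smul, zero_add] at h1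
    obtain ⟨h3, h4⟩ := hlin _ _ h1
    rw [h3, h4, add_zero, add_zero] at h2
    intro i
    fin_cases i
    · exact h2
    · exact h3
    · exact h4
  have hdecx : DecF x (3 ^ 3) := by
    have h5 := ham5 m₃ m₁ (m₃ + m₂) hind
    convert h5 using 1
    ext i
    rcases i with c | c
    · fin_cases c
      · simp [x, w]
      · simp [x, w]
      · simp [x, w]
    · fin_cases c
      · simp [x, w]
      · simp [x, w]; abel
  have hX1 := PLD.of_dec' (X := X) x e heinj (by
    intro t
    rw [hX, mem_image]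
    simp) he (by norm_num) hdecx
  rw [hXc] at hX1
  have hRa : ∀ t ∈ T \ X, -t ∉ T \ X :=
    fun t ht h => hT t (mem_sdiff.1 ht).1 (mem_sdiff.1 h).1
  have hRc : (T \ X).card = 6 := by rw [card_sdiff_of_subset hXT, hc, hXc]
  obtain ⟨m, k1, k2, k3⟩ := PLD.equit (p := 3) le_rfl (T := T \ X) (l := 2) (by norm_num) (by
    intro A hA
    have g1 := half_bound (Submodule.span (ZMod 3) (A : Set V)) (T := A)
      (fun t ht h => hRa t (hA ht) (hA h)) (fun t ht => Submodule.subset_span (mem_coe.2 ht))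
    have g2 := card_le_card hA
    rw [hRc] at g2
    set k := finrank (ZMod 3) ↥(Submodule.span (ZMod 3) (A : Set V)) with hk
    rcases Nat.lt_or_ge k 3 with h | h
    · interval_cases k
      · rw [pow_zero] at g1; omega
      · rw [pow_one] at g1; omega
      · omega
    · omega)
  have hload := load_bound (r := 3) (b := 0) (p := 3) le_rfl m k1 (by norm_num) (Or.inr rfl)
    (Nat.zero_le _) (by rw [k2, hRc])
  have hfin := hX1.union (k3.mono hload) disjoint_sdiff
  rw [union_sdiff_of_subset hXT] at hfin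
  refine hfin.mono ?_
  unfold fl
  norm_num

end Run7.h686
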