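import Pool.Agent.Run7.h686.Cls

set_option autoImplicit false

/-!
Finding dependent sets with Hamiltonian decompositions.
-/

namespace Run7.h686

open Finset Module Pool.Agent.TH486.LAC

variable {p : ℕ} [Fact p.Prime] {V : Type} [AddCommGroup V] [Module (ZMod p) V] [Finite V]

theorem card_sub (U : Submodule (ZMod p) V) : Nat.card U = p ^ finrank (ZMod p) U := by
  have := Fintype.ofFinite U
  rw [Nat.card_eq_fintype_card, Module.card_eq_pow_finrank (K := ZMod p), ZMod.card]

/-- `T` together with the opposite vectors. -/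
def sym [DecidableEq V] (T : Finset V) : Finset V := T ∪ T.image (fun x => -x)

omit [Finite V] in
theorem mem_sym [DecidableEq V] {T : Finset V} {v : V} : v ∈ sym T ↔ v ∈ T ∨ -v ∈ T := by
  unfold sym
  rw [mem_union, mem_image]
  constructor
  · rintro (h | ⟨x, hx, rfl⟩)
    · exact Or.inl h
    · right; rwa [neg_neg]
  · rintro (h | h)
    · exact Or.inl h
    · exact Or.inr ⟨-v, h, neg_neg v⟩

omit [Finite V] in
theorem card_sym [DecidableEq V] {T : Finset V} (hT : ∀ t ∈ T, -t ∉ T) :
    (sym T).card = 2 * T.card := by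
  unfold sym
  rw [card_union_of_disjoint, card_image_of_injective _ neg_injective]
  · ring
  · rw [Finset.disjoint_left]
    intro x hx hx'
    obtain ⟨y, hy, rfl⟩ := mem_image.1 hx'
    exact hT y hy hx

omit [Finite V] in
theorem zero_notMem_sym [DecidableEq V] {T : Finset V} (hT : ∀ t ∈ T, -t ∉ T) : (0 : V) ∉ sym T := by
  rw [mem_sym, neg_zero, or_self]
  intro h
  exact hT 0 h (by rwa [neg_zero])

theorem half_bound (U : Submodule (ZMod p) V) {T : Finset V} (hT : ∀ t ∈ T, -t ∉ T)
    (hTU : ∀ t ∈ T, t ∈ U) : 2 * T.card + 1 ≤ p ^ finrank (ZMod p) U := by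
  classical
  rw [← card_sub U, ← card_sym hT, ← card_insert_of_notMem (zero_notMem_sym hT)]
  have hsub : ((insert 0 (sym T) : Finset V) : Set V) ⊆ (U : Set V) := by
    intro x hx
    rw [mem_coe, mem_insert, mem_sym] at hx
    rcases hx with rfl | h | h
    · exact U.zero_mem
    · exact hTU x h
    · have := U.neg_mem (hTU _ h)
      rwa [neg_neg] at this
  have := Set.ncard_le_ncard hsub (Set.toFinite _)
  rw [Set.ncard_coe_finset] at this
  exact this

omit [Finite V] in
theorem two_ne (hp : 3 ≤ p) : (2 : ZMod p) ≠ 0 := by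
  intro h
  have h1 : ((2 : ℕ) : ZMod p) = 0 := by exact_mod_cast h
  rw [ZMod.natCast_eq_zero_iff] at h1
  have := Nat.le_of_dvd (by norm_num) h1
  omega

/-- A collinear triple. -/
theorem good2 (hp : 3 ≤ p) (U : Submodule (ZMod p) V) (hU : finrank (ZMod p) U = 2)
    (T : Finset V) (hT : ∀ t ∈ T, -t ∉ T) (hTU : ∀ t ∈ T, t ∈ U) (hcard : p ≤ T.card) :
    ∃ X ⊆ T, X.card = 3 ∧ PLD X (3 * (2 / (p : ℝ) ^ 2)) := by
  classical
  have := Fintype.ofFinite V
  obtain ⟨x, hx⟩ : T.Nonempty := by
    rw [← card_pos]; omega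
  have hx0 : x ≠ 0 := by
    rintro rfl
    exact hT 0 hx (by rwa [neg_zero])
  set W : Submodule (ZMod p) V := Submodule.span (ZMod p) {x} with hW
  have hWf : finrank (ZMod p) W = 1 := finrank_span_singleton hx0
  have hWU : W ≤ U := by
    rw [hW, Submodule.span_singleton_le_iff_mem]; exact hTU x hx
  obtain ⟨w, hwU, hwW⟩ : ∃ w ∈ U, w ∉ W := by
    by_contra hcon
    push Not at hcon
    have h1 : U ≤ W := fun v hv => hcon v hv
    have h2 := Submodule.finrank_mono h1
    omega
  obtain ⟨φ, hφw, hφW⟩ := Submodule.exists_le_ker_of_notMem hwW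
  have hφx : φ x = 0 := hφW (Submodule.mem_span_singleton_self x)
  have hUeq : W ⊔ Submodule.span (ZMod p) {w} = U := by
    apply Submodule.eq_of_le_of_finrank_eq
    · exact sup_le hWU (by rw [Submodule.span_singleton_le_iff_mem]; exact hwU)
    · rw [fr_insert hwW, hWf, hU]
  have hdec : ∀ v ∈ U, ∃ α β : ZMod p, v = α • x + β • w := by
    intro v hv
    rw [← hUeq, Submodule.mem_sup] at hv
    obtain ⟨y, hy, z, hz, rfl⟩ := hv
    obtain ⟨α, rfl⟩ := Submodule.mem_span_singleton.1 hy
    obtain ⟨β, rfl⟩ := Submodule.mem_span_singleton.1 hz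
    exact ⟨α, β, rfl⟩
  have hφ0 : ∀ v ∈ U, v ∉ W → φ v ≠ 0 := by
    intro v hv hvW h
    obtain ⟨α, β, rfl⟩ := hdec v hv
    rw [map_add, map_smul, map_smul, hφx, smul_zero, zero_add, smul_eq_mul] at h
    rcases mul_eq_zero.1 h with h | h
    · apply hvW
      rw [h, zero_smul, add_zero]
      exact W.smul_mem α (Submodule.mem_span_singleton_self x)
    · exact hφw h
  have hSU : ∀ v ∈ sym T, v ∈ U := by
    intro v hv
    rcases mem_sym.1 hv with h | h
    · exact hTU v h
    · have := U.neg_mem (hTU _ h)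
      rwa [neg_neg] at this
  set D : Finset V := (sym T).filter (fun v => v ∉ W) with hD
  have hDc : p < D.card := by
    have h1 : (sym T).card = ((sym T).filter (fun v => v ∈ W)).card + D.card := by
      rw [hD, card_filter_add_card_filter_not]
    have h2 : ((sym T).filter (fun v => v ∈ W)).card + 1 ≤ p := by
      have h3 := card_sub W
      rw [hWf, pow_one] at h3
      rw [← card_insert_of_notMem (s := (sym T).filter (fun v => v ∈ W)) (a := (0 : V))
        (fun h => zero_notMem_sym hT (mem_filter.1 h).1)]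
      refine le_trans ?_ h3.le
      have hsub : ((insert 0 ((sym T).filter (fun v => v ∈ W)) : Finset V) : Set V) ⊆
          (W : Set V) := by
        intro y hy
        rw [mem_coe, mem_insert, mem_filter] at hy
        rcases hy with rfl | h
        · exact W.zero_mem
        · exact h.2
      have := Set.ncard_le_ncard hsub (Set.toFinite _)
      rw [Set.ncard_coe_finset] at this
      exact this
    rw [card_sym hT] at h1
    omega
  set E : Finset V := (univ : Finset (ZMod p)).image (fun c => (φ w)⁻¹ • w + c • x) with hE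
  have hEc : E.card ≤ p := by
    refine card_image_le.trans ?_
    rw [card_univ, ZMod.card]
  have hmaps : ∀ v ∈ D, (φ v)⁻¹ • (v - x) ∈ E := by
    intro v hv
    obtain ⟨hv1, hv2⟩ := mem_filter.1 hv
    have h0 := hφ0 v (hSU v hv1) hv2
    obtain ⟨α, β, hαβ⟩ := hdec v (hSU v hv1)
    have hφv : φ v = β * φ w := by
      rw [hαβ, map_add, map_smul, map_smul, hφx, smul_zero, zero_add, smul_eq_mul]
    have hβ : β ≠ 0 := fun h => h0 (by rw [hφv, h, zero_mul])
    rw [hE, mem_image]
    refine ⟨(φ v)⁻¹ * (α - 1), mem_univ _, ?_⟩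
    have e1 : v - x = (α - 1) • x + β • w := by
      rw [hαβ, sub_smul, one_smul]; abel
    rw [e1, smul_add, smul_smul, smul_smul, hφv]
    have e2 : (β * φ w)⁻¹ * β = (φ w)⁻¹ := by field_simp
    rw [e2, add_comm]
  obtain ⟨y, hy, z, hz, hyz, hyzE⟩ := exists_ne_map_eq_of_card_lt_of_maps_to
    (lt_of_le_of_lt hEc hDc) hmaps
  obtain ⟨hy1, hy2⟩ := mem_filter.1 hy
  obtain ⟨hz1, hz2⟩ := mem_filter.1 hz
  have hφy := hφ0 y (hSU y hy1) hy2
  have hφz := hφ0 z (hSU z hz1) hz2
  set t : ZMod p := φ z * (φ y)⁻¹ with ht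
  have hrel : z - x = t • (y - x) := by
    have h1 : φ z • ((φ z)⁻¹ • (z - x)) = φ z • ((φ y)⁻¹ • (y - x)) := by rw [hyzE]
    rw [smul_smul, mul_inv_cancel₀ hφz, one_smul, smul_smul] at h1
    exact h1
  have ht0 : t ≠ 0 := mul_ne_zero hφz (inv_ne_zero hφy)
  have ht1 : t ≠ 1 := by
    intro h
    rw [h, one_smul] at hrel
    exact hyz (sub_left_injective hrel).symm
  -- representatives
  have hrep : ∀ v ∈ sym T, ∃ s ∈ T, v = s ∨ v = -s := by
    intro v hv
    rcases mem_sym.1 hv with h | h
    · exact ⟨v, h, Or.inl rfl⟩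
    · exact ⟨-v, h, Or.inr (neg_neg v).symm⟩
  obtain ⟨ty, hty, hty'⟩ := hrep y hy1
  obtain ⟨tz, htz, htz'⟩ := hrep z hz1
  have hxW : x ∈ W := Submodule.mem_span_singleton_self x
  have hne1 : x ≠ ty := by
    rintro rfl
    rcases hty' with h | h
    · exact hy2 (h ▸ hxW)
    · exact hy2 (h ▸ W.neg_mem hxW)
  have hne2 : x ≠ tz := by
    rintro rfl
    rcases htz' with h | h
    · exact hz2 (h ▸ hxW)
    · exact hz2 (h ▸ W.neg_mem hxW)
  have hzy : z ≠ -y := by
    intro h
    rw [h] at hrel
    have h1 : t = -1 := by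
      rw [ht, h, map_neg, neg_mul, mul_inv_cancel₀ hφy]
    rw [h1, neg_smul, one_smul] at hrel
    have h2 : (2 : ZMod p) • x = 0 := by
      rw [two_smul]
      have : x + x = (-(y - x)) - (-y - x) := by abel
      rw [this, hrel, sub_self]
    rcases smul_eq_zero.1 h2 with h3 | h3
    · exact two_ne hp h3
    · exact hx0 h3
  have hne3 : ty ≠ tz := by
    rintro rfl
    rcases hty' with h | h <;> rcases htz' with h' | h'
    · exact hyz (h.trans h'.symm)
    · exact hzy (by rw [h', h])
    · exact hzy (by rw [h', h, neg_neg])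
    · exact hyz (h.trans h'.symm)
  refine ⟨{x, ty, tz}, ?_, card_eq_three.2 ⟨x, ty, tz, hne1, hne2, hne3, rfl⟩, ?_⟩
  · intro s hs
    simp only [mem_insert, mem_singleton] at hs
    rcases hs with rfl | rfl | rfl
    · exact hx
    · exact hty
    · exact htz
  · have hind : LinearIndependent (ZMod p) (fun s : Fin 2 => ![x, y, z] s.castSucc) := by
      have e1 : (fun s : Fin 2 => ![x, y, z] s.castSucc) = ![x, y] := by
        ext s; fin_cases s <;> rfl
      rw [e1, LinearIndependent.pair_iff]
      intro c d hcd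
      have h1 : d * φ y = 0 := by
        have := congrArg φ hcd
        rw [map_add, map_smul, map_smul, hφx, smul_zero, zero_add, map_zero, smul_eq_mul] at this
        exact this
      have hd : d = 0 := (mul_eq_zero.1 h1).resolve_right hφy
      rw [hd, zero_smul, add_zero] at hcd
      exact ⟨(smul_eq_zero.1 hcd).resolve_right hx0, hd⟩
    have h3 := ham3 ![x, y, z] t ht0 ht1 hind (by simpa using hrel)
    have h4 := PLD.of_dec' (X := {x, ty, tz}) ![x, y, z] ![x, ty, tz] (by
        intro i j hij
        fin_cases i <;> fin_cases j <;>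
          simp [hne1, hne2, hne3, hne1.symm, hne2.symm, hne3.symm] at hij ⊢) (by
        intro s
        simp only [mem_insert, mem_singleton]
        constructor
        · rintro (rfl | rfl | rfl)
          · exact ⟨0, rfl⟩
          · exact ⟨1, rfl⟩
          · exact ⟨2, rfl⟩
        · rintro ⟨i, rfl⟩
          fin_cases i <;> simp) (by
        intro i
        fin_cases i
        · left; rfl
        · exact hty'
        · exact htz') (by positivity) h3
    rw [card_eq_three.2 ⟨x, ty, tz, hne1, hne2, hne3, rfl⟩] at h4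
    push_cast at h4
    exact h4

end Run7.h686
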