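import Pool.Agent.Run7.h686.Good

set_option autoImplicit false

/-!
Finding dependent sets with Hamiltonian decompositions: rank at least three.
-/

namespace Run7.h686

open Finset Module Pool.Agent.TH486.LAC

variable {p : ℕ} [Fact p.Prime] {V : Type} [AddCommGroup V] [Module (ZMod p) V] [Finite V]

theorem ind_extend (T : Finset V) (hT : ∀ t ∈ T, -t ∉ T) (r : ℕ) (hr : p ^ (r - 1) < 2 * T.card + 1) (n : ℕ) :
    ∀ Y ⊆ T, Ind (ZMod p) Y → Y.card + n = r → ∃ Y' ⊆ T, Y ⊆ Y' ∧ Ind (ZMod p) Y' ∧
      Y'.card = r := by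
  classical
  induction n with
  | zero => intro Y hY hI hc; exact ⟨Y, hY, subset_rfl, hI, by simpa using hc⟩
  | succ n ih =>
    intro Y hY hI hc
    obtain ⟨t, ht, htY⟩ : ∃ t ∈ T, t ∉ Submodule.span (ZMod p) (Y : Set V) := by
      by_contra hcon
      push Not at hcon
      have h1 := half_bound _ hT hcon
      unfold Ind at hI
      rw [hI] at h1
      have h2 : p ^ Y.card ≤ p ^ (r - 1) :=
        Nat.pow_le_pow_right (Fact.out : p.Prime).pos (by omega)
      omega
    obtain ⟨Y', h1, h2, h3, h4⟩ := ih (insert t Y) (insert_subset ht hY) (hI.insert htY) (by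
      have htY' : t ∉ Y := fun h => htY (Submodule.subset_span h)
      rw [card_insert_of_notMem htY']; omega)
    exact ⟨Y', h1, (subset_insert _ _).trans h2, h3, h4⟩

theorem ind_linear [DecidableEq V] {X : Finset V} (hX : Ind (ZMod p) X) :
    LinearIndependent (ZMod p) (fun t : X => (t : V)) := by
  rw [linearIndependent_iff_card_eq_finrank_span]
  unfold Ind at hX
  rw [Set.finrank, Subtype.range_coe_subtype, Fintype.card_coe]
  have : {x | x ∈ X} = (X : Set V) := rfl
  rw [this, hX]

/-- A basis and one more vector. -/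
theorem good3 (hp : 3 ≤ p) (U : Submodule (ZMod p) V) {r : ℕ} (hr : 3 ≤ r)
    (hU : finrank (ZMod p) U = r)
    (T : Finset V) (hT : ∀ t ∈ T, -t ∉ T) (hTU : ∀ t ∈ T, t ∈ U)
    (h1 : p ^ (r - 1) < 2 * T.card + 1)
    (h2 : (p ^ 2 - p) * (p ^ r - 1) < 2 * T.card * (2 * T.card - (p - 1))) :
    ∃ X ⊆ T, X.card = r + 1 ∧ PLD X (((r : ℝ) + 1) * (2 / (p : ℝ) ^ r)) := by
  classical
  have := Fintype.ofFinite V
  have hSU : ∀ v ∈ sym T, v ∈ U := by
    intro v hv
    rcases mem_sym.1 hv with h | h
    · exact hTU v h
    · have := U.neg_mem (hTU _ h)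
      rwa [neg_neg] at this
  have hS0 : ∀ v ∈ sym T, v ≠ 0 := fun v hv h => zero_notMem_sym hT (h ▸ hv)
  -- pairs of independent vectors
  set Q : Finset (V × V) := (sym T).sigma (fun a => (sym T).filter
    (fun a' => a' ∉ Submodule.span (ZMod p) {a})) |>.image (fun q => (q.1, q.2)) with hQ
  have memQ : ∀ q, q ∈ Q ↔ q.1 ∈ sym T ∧ q.2 ∈ sym T ∧ q.2 ∉ Submodule.span (ZMod p) {q.1} := by
    rintro ⟨a, a'⟩
    rw [hQ, mem_image]
    constructor
    · rintro ⟨⟨b, b'⟩, hb, hbb⟩
      obtain ⟨rfl, rfl⟩ := Prod.mk.inj hbb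
      obtain ⟨g1, g2⟩ := mem_sigma.1 hb
      exact ⟨g1, (mem_filter.1 g2).1, (mem_filter.1 g2).2⟩
    · rintro ⟨g1, g2, g3⟩
      exact ⟨⟨a, a'⟩, mem_sigma.2 ⟨g1, mem_filter.2 ⟨g2, g3⟩⟩, rfl⟩
  have hQc : 2 * T.card * (2 * T.card - (p - 1)) ≤ Q.card := by
    rw [hQ, card_image_of_injective _ (by
      rintro ⟨a, a'⟩ ⟨b, b'⟩ h
      obtain ⟨rfl, rfl⟩ := Prod.mk.inj h
      rfl), card_sigma, ← card_sym hT, ← smul_eq_mul, ← sum_const]
    refine sum_le_sum fun a ha => ?_
    have g1 : (sym T).card = ((sym T).filter (fun v => v ∈ Submodule.span (ZMod p) {a})).card +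
        ((sym T).filter (fun v => v ∉ Submodule.span (ZMod p) {a})).card := by
      rw [card_filter_add_card_filter_not]
    have g2 : ((sym T).filter (fun v => v ∈ Submodule.span (ZMod p) {a})).card + 1 ≤ p := by
      have h3 := card_sub (Submodule.span (ZMod p) {a})
      rw [finrank_span_singleton (hS0 a ha), pow_one] at h3
      rw [← card_insert_of_notMem (s := (sym T).filter
        (fun v => v ∈ Submodule.span (ZMod p) {a})) (a := (0 : V))
        (fun h => zero_notMem_sym hT (mem_filter.1 h).1)]
      refine le_trans ?_ h3.le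
      have hsub : ((insert 0 ((sym T).filter (fun v => v ∈ Submodule.span (ZMod p) {a})) :
          Finset V) : Set V) ⊆ (Submodule.span (ZMod p) {a} : Set V) := by
        intro y hy
        rw [mem_coe, mem_insert, mem_filter] at hy
        rcases hy with rfl | h
        · exact Submodule.zero_mem _
        · exact h.2
      have := Set.ncard_le_ncard hsub (Set.toFinite _)
      rw [Set.ncard_coe_finset] at this
      exact this
    omega
  set UU : Finset V := (univ : Finset V).filter (fun v => v ∈ U ∧ v ≠ 0) with hUU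
  have hUUc : UU.card = p ^ r - 1 := by
    rw [← hU, ← card_sub U]
    have g1 : insert 0 UU = (univ : Finset V).filter (fun v => v ∈ U) := by
      ext v
      simp only [hUU, mem_insert, mem_filter, mem_univ, true_and]
      by_cases hv : v = 0
      · simp [hv]
      · simp [hv]
    have g2 : ((univ : Finset V).filter (fun v => v ∈ U)).card = Nat.card U := by
      rw [← nc]; rfl
    rw [← g2, ← g1, card_insert_of_notMem (by simp [hUU])]
    rfl
  have hmaps : ∀ q ∈ Q, q.1 - q.2 ∈ UU := by
    intro q hq
    obtain ⟨g1, g2, g3⟩ := (memQ q).1 hq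
    rw [hUU, mem_filter]
    refine ⟨mem_univ _, U.sub_mem (hSU _ g1) (hSU _ g2), ?_⟩
    intro h
    apply g3
    rw [← sub_eq_zero.1 h]
    exact Submodule.mem_span_singleton_self _
  obtain ⟨y, hy, hylt⟩ := exists_lt_card_fiber_of_mul_lt_card_of_maps_to
    (s := Q) (t := UU) (f := fun q => q.1 - q.2) (n := p ^ 2 - p) hmaps (by
      rw [hUUc, mul_comm]; exact lt_of_lt_of_le h2 hQc)
  have hy0 : y ≠ 0 := (mem_filter.1 hy).2.2
  -- first pair
  obtain ⟨⟨a, a'⟩, hq⟩ : (Q.filter (fun q => q.1 - q.2 = y)).Nonempty := by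
    rw [← card_pos]; omega
  obtain ⟨hqQ, haa : a - a' = y⟩ := mem_filter.1 hq
  obtain ⟨haS, ha'S, ha'a⟩ := (memQ _).1 hqQ
  simp only at haS ha'S ha'a
  have hay : a' = a - y := by rw [← haa]; abel
  have hyW : y ∉ Submodule.span (ZMod p) {a} := by
    intro h
    apply ha'a
    rw [hay]
    exact Submodule.sub_mem _ (Submodule.mem_span_singleton_self a) h
  set W : Submodule (ZMod p) V := Submodule.span (ZMod p) {a} ⊔ Submodule.span (ZMod p) {y} with hW
  have hWf : finrank (ZMod p) W = 2 := by
    rw [hW, fr_insert hyW, finrank_span_singleton (hS0 a haS)]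
  have haW : a ∈ W := Submodule.mem_sup_left (Submodule.mem_span_singleton_self a)
  have hyW' : y ∈ W := Submodule.mem_sup_right (Submodule.mem_span_singleton_self y)
  have ha'W : a' ∈ W := by rw [hay]; exact W.sub_mem haW hyW'
  -- second pair
  obtain ⟨⟨b, b'⟩, hb, hbW⟩ : ∃ q ∈ Q.filter (fun q => q.1 - q.2 = y), q.1 ∉ W := by
    by_contra hcon
    push Not at hcon
    set WW : Finset V := (univ : Finset V).filter
      (fun v => v ∈ W ∧ v ∉ Submodule.span (ZMod p) {y}) with hWW
    have hWWc : WW.card = p ^ 2 - p := by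
      have g1 : (univ : Finset V).filter (fun v => v ∈ W) =
          WW ∪ (univ : Finset V).filter (fun v => v ∈ Submodule.span (ZMod p) {y}) := by
        ext v
        simp only [hWW, mem_union, mem_filter, mem_univ, true_and]
        constructor
        · intro h
          by_cases hv : v ∈ Submodule.span (ZMod p) {y}
          · exact Or.inr hv
          · exact Or.inl ⟨h, hv⟩
        · rintro (h | h)
          · exact h.1
          · exact Submodule.mem_sup_right h
      have g2 : ((univ : Finset V).filter (fun v => v ∈ W)).card = p ^ 2 := by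
        rw [← nc, ← hWf, ← card_sub W]; rfl
      have g3 : ((univ : Finset V).filter (fun v => v ∈ Submodule.span (ZMod p) {y})).card =
          p := by
        have g4 := card_sub (Submodule.span (ZMod p) {y})
        rw [finrank_span_singleton hy0, pow_one] at g4
        rw [← nc]
        exact g4
      rw [g1, card_union_of_disjoint, g3] at g2
      · omega
      · rw [Finset.disjoint_left]
        intro v hv hv'
        exact (mem_filter.1 hv).2.2 (mem_filter.1 hv').2
    have g5 : (Q.filter (fun q => q.1 - q.2 = y)).card ≤ WW.card := by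
      refine card_le_card_of_injOn (fun q => q.1) ?_ ?_
      · intro q hq
        have hq' := mem_coe.1 hq
        obtain ⟨hq1, hq2⟩ := mem_filter.1 hq'
        obtain ⟨k1, k2, k3⟩ := (memQ q).1 hq1
        rw [mem_coe, hWW, mem_filter]
        refine ⟨mem_univ _, hcon q hq', ?_⟩
        intro hqy
        obtain ⟨c, hc⟩ := Submodule.mem_span_singleton.1 hqy
        have hc : c • y = q.1 := hc
        have hc0 : c ≠ 0 := by
          rintro rfl
          rw [zero_smul] at hc
          exact hS0 _ k1 hc.symm
        apply k3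
        have : q.2 = q.1 - y := by rw [← hq2]; abel
        rw [this]
        refine Submodule.sub_mem _ (Submodule.mem_span_singleton_self _) ?_
        rw [Submodule.mem_span_singleton]
        exact ⟨c⁻¹, by rw [← hc, smul_smul, inv_mul_cancel₀ hc0, one_smul]⟩
      · intro q hq q' hq' h
        have e1 := (mem_filter.1 (mem_coe.1 hq)).2
        have e2 := (mem_filter.1 (mem_coe.1 hq')).2
        have h' : q.1 = q'.1 := h
        refine Prod.ext h' ?_
        have e3 : q.2 = q.1 - y := by rw [← e1]; abel
        have e4 : q'.2 = q'.1 - y := by rw [← e2]; abel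
        rw [e3, e4, h']
    omega
  obtain ⟨hbQ, hbb : b - b' = y⟩ := mem_filter.1 hb
  obtain ⟨hbS, hb'S, -⟩ := (memQ _).1 hbQ
  simp only at hbS hb'S hbW
  have hby : b' = b - y := by rw [← hbb]; abel
  obtain ⟨φ, hφb, hφW⟩ := Submodule.exists_le_ker_of_notMem hbW
  have hφa : φ a = 0 := hφW haW
  have hφa' : φ a' = 0 := hφW ha'W
  have hφy : φ y = 0 := hφW hyW'
  have hφb' : φ b' = φ b := by rw [hby, map_sub, hφy, sub_zero]
  -- representatives
  have hrep : ∀ v ∈ sym T, ∃ s ∈ T, v = s ∨ v = -s := by
    intro v hv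
    rcases mem_sym.1 hv with h | h
    · exact ⟨v, h, Or.inl rfl⟩
    · exact ⟨-v, h, Or.inr (neg_neg v).symm⟩
  obtain ⟨ta, hta, hta'⟩ := hrep a haS
  obtain ⟨ta', hta1, hta1'⟩ := hrep a' ha'S
  obtain ⟨tb, htb, htb'⟩ := hrep b hbS
  obtain ⟨tb', htb1, htb1'⟩ := hrep b' hb'S
  have msp : ∀ (M : Submodule (ZMod p) V) (v s : V), (v = s ∨ v = -s) → (v ∈ M ↔ s ∈ M) := by
    intro M v s h
    rcases h with rfl | rfl
    · rfl
    · exact M.neg_mem_iff
  have hφta : φ ta = 0 := by
    rcases hta' with h | h
    · rw [← h]; exact hφa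
    · rw [h, map_neg, neg_eq_zero] at hφa; exact hφa
  have hφta' : φ ta' = 0 := by
    rcases hta1' with h | h
    · rw [← h]; exact hφa'
    · rw [h, map_neg, neg_eq_zero] at hφa'; exact hφa'
  have hφtb : φ tb ≠ 0 := by
    rcases htb' with h | h
    · rw [← h]; exact hφb
    · rw [h, map_neg, neg_ne_zero] at hφb; exact hφb
  have hφtb' : φ tb' ≠ 0 := by
    rw [← hφb'] at hφb
    rcases htb1' with h | h
    · rw [← h]; exact hφb
    · rw [h, map_neg, neg_ne_zero] at hφb; exact hφb
  have n1 : ta ≠ ta' := by
    intro h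
    apply ha'a
    rw [msp _ _ _ hta1', ← h, ← msp _ _ _ hta']
    exact Submodule.mem_span_singleton_self a
  have n2 : ta ≠ tb := fun h => hφtb (h ▸ hφta)
  have n3 : ta ≠ tb' := fun h => hφtb' (h ▸ hφta)
  have n4 : ta' ≠ tb := fun h => hφtb (h ▸ hφta')
  have n5 : ta' ≠ tb' := fun h => hφtb' (h ▸ hφta')
  have n6 : tb ≠ tb' := by
    intro h
    rw [← h] at htb1'
    have key : b' = b ∨ b' = -b := by
      rcases htb' with g | g <;> rcases htb1' with g' | g'
      · left; rw [g, g']
      · right; rw [g, g']
      · right; rw [g, g', neg_neg]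
      · left; rw [g, g']
    rcases key with g | g
    · apply hy0
      rw [← hbb, g, sub_self]
    · apply hbW
      have : (2 : ZMod p) • b = y := by
        rw [two_smul, ← hbb, g]; abel
      have e : b = (2 : ZMod p)⁻¹ • y := by
        rw [← this, smul_smul, inv_mul_cancel₀ (two_ne hp), one_smul]
      rw [e]
      exact W.smul_mem _ hyW'
  -- an independent triple
  have hI1 : Ind (ZMod p) ({ta} : Finset V) := by
    unfold Ind
    rw [coe_singleton, card_singleton]
    apply finrank_span_singleton
    exact hS0 ta (mem_sym.2 (Or.inl hta))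
  have hI2 : Ind (ZMod p) (insert ta' {ta} : Finset V) := by
    refine hI1.insert ?_
    rw [coe_singleton]
    intro h
    apply ha'a
    rw [msp _ _ _ hta1']
    have e : Submodule.span (ZMod p) {ta} ≤ Submodule.span (ZMod p) {a} := by
      rw [Submodule.span_singleton_le_iff_mem, ← msp _ _ _ hta']
      exact Submodule.mem_span_singleton_self a
    exact e h
  have hI3 : Ind (ZMod p) (insert tb (insert ta' {ta}) : Finset V) := by
    refine hI2.insert ?_
    intro h
    apply hφtb
    have e : Submodule.span (ZMod p) ((insert ta' {ta} : Finset V) : Set V) ≤ LinearMap.ker φ := by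
      rw [Submodule.span_le]
      intro v hv
      rw [mem_coe, mem_insert, mem_singleton] at hv
      rcases hv with rfl | rfl
      · exact hφta'
      · exact hφta
    exact e h
  have hc3 : (insert tb (insert ta' {ta}) : Finset V).card = 3 := by
    rw [card_insert_of_notMem (by simp [n2.symm, n4.symm]), card_insert_of_notMem (by
      simp [n1.symm]), card_singleton]
  obtain ⟨Y, hYT, h3Y, hYI, hYc⟩ := ind_extend T hT r h1 (r - 3)
    (insert tb (insert ta' {ta})) (by
      intro v hv
      simp only [mem_insert, mem_singleton] at hv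
      rcases hv with rfl | rfl | rfl
      · exact htb
      · exact hta1
      · exact hta) hI3 (by rw [hc3]; omega)
  have mY1 : tb ∈ Y := h3Y (by simp)
  have mY2 : ta' ∈ Y := h3Y (by simp)
  have mY3 : ta ∈ Y := h3Y (by simp)
  -- the fourth vector is in the span of the others
  have hsp : ∀ M : Submodule (ZMod p) V, ta ∈ M → ta' ∈ M → tb ∈ M → tb' ∈ M := by
    intro M k1 k2 k3
    rw [← msp _ _ _ htb1']
    rw [← msp _ _ _ hta'] at k1
    rw [← msp _ _ _ hta1'] at k2
    rw [← msp _ _ _ htb'] at k3
    have : b' = b - (a - a') := by rw [haa, hby]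
    rw [this]
    exact M.sub_mem k3 (M.sub_mem k1 k2)
  have hbY : tb' ∉ Y := by
    intro h
    have k1 := hYI.erase h
    have k2 : Submodule.span (ZMod p) (Y : Set V) ≤
        Submodule.span (ZMod p) ((Y.erase tb' : Finset V) : Set V) := by
      rw [Submodule.span_le]
      intro v hv
      by_cases hvb : v = tb'
      · rw [hvb]
        refine hsp _ ?_ ?_ ?_
        · exact Submodule.subset_span (by simp [n3, mY3])
        · exact Submodule.subset_span (by simp [n5, mY2])
        · exact Submodule.subset_span (by simp [n6, mY1])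
      · exact Submodule.subset_span (by
          rw [mem_coe, mem_erase]; exact ⟨hvb, hv⟩)
    have k3 := Submodule.finrank_mono k2
    unfold Ind at k1 hYI
    rw [k1, hYI] at k3
    have k4 := card_erase_add_one h
    omega
  set X : Finset V := insert tb' Y with hX
  have hXc : X.card = r + 1 := by rw [hX, card_insert_of_notMem hbY, hYc]
  refine ⟨X, insert_subset htb1 hYT, hXc, ?_⟩
  -- the family
  let x : X → V := fun t => if t.1 = ta then a else if t.1 = ta' then a' else
    if t.1 = tb then b else if t.1 = tb' then b' else t.1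
  have hx : ∀ t, x t = t.1 ∨ x t = -t.1 := by
    intro t
    have hxt : x t = if t.1 = ta then a else if t.1 = ta' then a' else
      if t.1 = tb then b else if t.1 = tb' then b' else t.1 := rfl
    rw [hxt]
    split_ifs with g1 g2 g3 g4
    · rw [g1]; exact hta'
    · rw [g2]; exact hta1'
    · rw [g3]; exact htb'
    · rw [g4]; exact htb1'
    · left; rfl
  let ia : X := ⟨ta, by simp [hX, mY3]⟩
  let ia' : X := ⟨ta', by simp [hX, mY2]⟩
  let ib : X := ⟨tb, by simp [hX, mY1]⟩
  let ib' : X := ⟨tb', by simp [hX]⟩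
  have xa : x ia = a := if_pos rfl
  have xa' : x ia' = a' := by
    show (if ta' = ta then a else if ta' = ta' then a' else _) = a'
    rw [if_neg n1.symm, if_pos rfl]
  have xb : x ib = b := by
    show (if tb = ta then a else if tb = ta' then a' else if tb = tb then b else _) = b
    rw [if_neg n2.symm, if_neg n4.symm, if_pos rfl]
  have xb' : x ib' = b' := by
    show (if tb' = ta then a else if tb' = ta' then a' else if tb' = tb then b else
      if tb' = tb' then b' else _) = b'
    rw [if_neg n3.symm, if_neg n5.symm, if_neg n6.symm, if_pos rfl]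
  have hind : LinearIndependent (ZMod p) (fun t : {c // c ≠ ib'} => x t) := by
    have e1 : LinearIndependent (ZMod p) (fun t : {c // c ≠ ib'} => (t.1.1 : V)) := by
      have e2 := ind_linear hYI
      let f : {c // c ≠ ib'} → Y := fun t => ⟨t.1.1, by
        have h1 : t.1.1 ∈ insert tb' Y := t.1.2
        exact (mem_insert.1 h1).resolve_left fun h => t.2 (Subtype.ext h)⟩
      refine e2.comp f ?_
      intro s t hst
      have : s.1.1 = t.1.1 := congrArg (fun z : Y => z.1) hst
      exact Subtype.ext (Subtype.ext this)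
    let w : {c // c ≠ ib'} → (ZMod p)ˣ := fun t => if x t.1 = t.1.1 then 1 else -1
    have e3 := e1.units_smul w
    convert e3 using 1
    ext t
    show x t.1 = w t • t.1.1
    rcases hx t.1 with h | h
    · rw [h]
      have : w t = 1 := if_pos h
      rw [this, one_smul]
    · by_cases h' : x t.1 = t.1.1
      · have : w t = 1 := if_pos h'
        rw [this, one_smul, h']
      · have : w t = -1 := if_neg h'
        rw [this, h]
        simp
  have inj : ∀ {s t : X}, s.1 ≠ t.1 → s ≠ t := fun h h' => h (congrArg Subtype.val h')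
  have h5 := ham4 hp x (a := ia) (a' := ia') (b := ib) (b' := ib') (inj n1) (inj n2) (inj n3)
    (inj n4) (inj n5) (inj n6) hind (by rw [xa, xa', xb, xb', haa, hbb])
  rw [Nat.card_eq_fintype_card, Fintype.card_coe, hXc, Nat.add_sub_cancel] at h5
  have h6 := PLD.of_dec x hx (by positivity) h5
  rw [hXc] at h6
  push_cast at h6
  exact h6

end Run7.h686
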