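import Mathlib

set_option autoImplicit false

/-!
Skew products of cyclic permutations, and the choice lemma.
-/

namespace Run7.h686

open Finset

/-- A permutation with a single cycle. -/
def Tr {Z : Type} (F : Equiv.Perm Z) : Prop := ∀ x y, ∃ n : ℕ, (F ^ n) x = y

/-- Skew product of a permutation with translations. -/
def skew {Z K : Type} [AddCommGroup K] (F : Equiv.Perm Z) (f : Z → K) : Equiv.Perm (Z × K) where
  toFun x := (F x.1, x.2 + f x.1)
  invFun x := (F.symm x.1, x.2 - f (F.symm x.1))
  left_inv := by intro x; simp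
  right_inv := by intro x; simp

theorem skew_apply {Z K : Type} [AddCommGroup K] (F : Equiv.Perm Z) (f : Z → K) (x : Z × K) :
    skew F f x = (F x.1, x.2 + f x.1) := rfl

theorem skew_pow {Z K : Type} [AddCommGroup K] (F : Equiv.Perm Z) (f : Z → K) (n : ℕ)
    (x : Z × K) :
    ((skew F f) ^ n) x = ((F ^ n) x.1, x.2 + ∑ k ∈ range n, f ((F ^ k) x.1)) := by
  induction n with
  | zero => simp
  | succ n ih =>
    rw [pow_succ', Equiv.Perm.mul_apply, ih, skew_apply, pow_succ', Equiv.Perm.mul_apply,
      sum_range_succ, add_assoc]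

theorem Tr.sum {Z : Type} [Fintype Z] {F : Equiv.Perm Z} (hF : Tr F) {p : ℕ} [Fact p.Prime]
    (f : Z → ZMod p) (z : Z) :
    (F ^ Fintype.card Z) z = z ∧
      ∑ k ∈ range (Fintype.card Z), f ((F ^ k) z) = ∑ z, f z := by
  classical
  have hcyc : F.IsCycleOn (univ : Finset Z) := by
    refine ⟨?_, ?_⟩
    · rw [coe_univ]
      exact Set.bijOn_univ.2 F.bijective
    · intro x _ y _
      obtain ⟨n, hn⟩ := hF x y
      exact ⟨n, by simpa using hn⟩
  have h1 := hcyc.pow_card_apply (mem_univ z)
  rw [card_univ] at h1
  refine ⟨h1, ?_⟩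
  have h2 := Finset.sum_mul_sum_eq_sum_perm hcyc
    (fun y => if y = z then (1 : ZMod p) else 0) f
  rw [sum_ite_eq' univ z (fun _ => (1 : ZMod p)), if_pos (mem_univ z), one_mul, card_univ] at h2
  rw [h2]
  refine sum_congr rfl fun k _ => ?_
  simp

theorem Tr.skew {Z : Type} [Fintype Z] {F : Equiv.Perm Z} (hF : Tr F) {p : ℕ} [Fact p.Prime]
    (f : Z → ZMod p) (hf : ∑ z, f z ≠ 0) : Tr (skew F f) := by
  have key : ∀ (t : ℕ) (z : Z) (y : ZMod p),
      ((Run7.h686.skew F f) ^ (t * Fintype.card Z)) (z, y) = (z, y + t * ∑ z, f z) := by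
    intro t z y
    induction t with
    | zero => simp
    | succ t ih =>
      rw [add_mul, one_mul, add_comm, pow_add, Equiv.Perm.mul_apply, ih, skew_pow]
      obtain ⟨h1, h2⟩ := hF.sum f z
      simp only [h1, h2]
      push_cast
      congr 1
      ring
  rintro ⟨z, y⟩ ⟨z', y'⟩
  obtain ⟨n, hn⟩ := hF z z'
  set y'' := y + ∑ k ∈ range n, f ((F ^ k) z) with hy''
  refine ⟨((y' - y'') / ∑ z, f z).val * Fintype.card Z + n, ?_⟩
  have e1 : ((Run7.h686.skew F f) ^ n) (z, y) = (z', y'') := by
    rw [skew_pow, hn]
  rw [pow_add, Equiv.Perm.mul_apply, e1, key, ZMod.natCast_zmod_val, div_mul_cancel₀ _ hf]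
  simp

theorem pick2 {p : ℕ} [Fact p.Prime] (hp : 3 ≤ p) (Q : Finset (ZMod p)) (hQ : p - 1 ≤ Q.card)
    (a b : ZMod p) :
    ∃ Y ⊆ Q, a + (Y.card : ZMod p) ≠ 0 ∧ b + ((Q \ Y).card : ZMod p) ≠ 0 := by
  classical
  obtain ⟨t, ht⟩ : ∃ t : ZMod p, t ∉ ({-a, b + (Q.card : ZMod p)} : Finset (ZMod p)) := by
    by_contra hcon
    push Not at hcon
    have h1 : (univ : Finset (ZMod p)) ⊆ {-a, b + (Q.card : ZMod p)} := fun t _ => hcon t
    have h2 := card_le_card h1
    have h3 := card_le_two (a := -a) (b := b + (Q.card : ZMod p))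
    rw [card_univ, ZMod.card] at h2
    omega
  have ht1 : t ≠ -a := fun h => ht (by rw [h]; simp)
  have ht2 : t ≠ b + (Q.card : ZMod p) := fun h => ht (by rw [h]; simp)
  have hlt : t.val ≤ Q.card := by
    have := ZMod.val_lt t
    omega
  obtain ⟨Y, hY, hYc⟩ := exists_subset_card_eq hlt
  refine ⟨Y, hY, ?_, ?_⟩
  · rw [hYc, ZMod.natCast_zmod_val]
    intro h
    exact ht1 (by rw [add_comm] at h; exact eq_neg_of_add_eq_zero_left h)
  · rw [card_sdiff_of_subset hY, Nat.cast_sub (by omega), hYc, ZMod.natCast_zmod_val]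
    intro h
    apply ht2
    have : t = b + (Q.card : ZMod p) - (b + ((Q.card : ZMod p) - t)) := by ring
    rw [this, h, sub_zero]

theorem block {p : ℕ} [Fact p.Prime] (hp : 3 ≤ p) {ι : Type} [DecidableEq ι] (n : ℕ) :
    ∀ (A : Finset ι), A.card = n → 2 ≤ n → ∀ ρ : ι → ZMod p, ∃ R : ZMod p → Finset ι,
      (∀ y, R y ⊆ A) ∧ (∀ y, (R y).card = n / 2) ∧
      ∀ i ∈ A, ρ i + ((univ.filter (fun y => i ∈ R y)).card : ZMod p) ≠ 0 := by
  have hpc : (univ : Finset (ZMod p)).card = p := by rw [card_univ, ZMod.card]
  induction n using Nat.strong_induction_on with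
  | _ n ih =>
    intro A hA hn ρ
    have two : ∀ (A : Finset ι), A.card = 2 → ∃ R : ZMod p → Finset ι,
      (∀ y, R y ⊆ A) ∧ (∀ y, (R y).card = 1) ∧
      ∀ i ∈ A, ρ i + ((univ.filter (fun y => i ∈ R y)).card : ZMod p) ≠ 0 := by
      intro A hA
      obtain ⟨i, j, hij, rfl⟩ := card_eq_two.1 hA
      obtain ⟨Y, -, hY1, hY2⟩ := pick2 hp (univ : Finset (ZMod p)) (by rw [hpc]; omega) (ρ i) (ρ j)
      refine ⟨fun y => if y ∈ Y then {i} else {j}, ?_, ?_, ?_⟩
      · intro y
        dsimp only
        split_ifs <;> simp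
      · intro y
        dsimp only
        split_ifs <;> simp
      · intro l hl
        rw [mem_insert, mem_singleton] at hl
        rcases hl with rfl | rfl
        · have : univ.filter (fun y => l ∈ (if y ∈ Y then ({l} : Finset ι) else {j})) = Y := by
            ext y
            simp only [mem_filter, mem_univ, true_and]
            split_ifs with h
            · simp [h]
            · simp [h, hij]
          rw [this]; exact hY1
        · have : univ.filter (fun y => l ∈ (if y ∈ Y then ({i} : Finset ι) else {l})) =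
              univ \ Y := by
            ext y
            simp only [mem_filter, mem_univ, true_and, mem_sdiff]
            split_ifs with h
            · simp [h, Ne.symm hij]
            · simp [h]
          rw [this]; exact hY2
    rcases Nat.lt_or_ge n 4 with h4 | h4
    · interval_cases n
      · obtain ⟨R, h1, h2, h3⟩ := two A hA
        exact ⟨R, h1, h2, h3⟩
      · obtain ⟨i, j, k, hij, hik, hjk, rfl⟩ := card_eq_three.1 hA
        set Q : Finset (ZMod p) := if ρ i = 0 then univ.erase 0 else univ with hQ
        have hQc : p - 1 ≤ Q.card := by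
          rw [hQ]
          split_ifs
          · rw [card_erase_of_mem (mem_univ _), hpc]
          · rw [hpc]; omega
        obtain ⟨Y, hYQ, hY1, hY2⟩ := pick2 hp Q hQc (ρ j) (ρ k)
        refine ⟨fun y => if y ∈ Q then (if y ∈ Y then {j} else {k}) else {i}, ?_, ?_, ?_⟩
        · intro y
          dsimp only
          split_ifs <;> simp
        · intro y
          dsimp only
          split_ifs <;> simp
        · intro l hl
          rw [mem_insert, mem_insert, mem_singleton] at hl
          rcases hl with rfl | rfl | rfl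
          · have : univ.filter (fun y => l ∈ (if y ∈ Q then (if y ∈ Y then ({j} : Finset ι)
                else {k}) else {l})) = univ \ Q := by
              ext y
              simp only [mem_filter, mem_univ, true_and, mem_sdiff]
              split_ifs with h h'
              · simp [h, hij]
              · simp [h, hik]
              · simp [h]
            rw [this, hQ]
            split_ifs with h
            · rw [h, sdiff_erase (mem_univ _)]
              simp
            · simpa using h
          · have : univ.filter (fun y => l ∈ (if y ∈ Q then (if y ∈ Y then ({l} : Finset ι)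
                else {k}) else {i})) = Y := by
              ext y
              simp only [mem_filter, mem_univ, true_and]
              split_ifs with h h'
              · simp [h']
              · simp [h', hjk]
              · have : y ∉ Y := fun h' => h (hYQ h')
                simp [this, Ne.symm hij]
            rw [this]; exact hY1
          · have : univ.filter (fun y => l ∈ (if y ∈ Q then (if y ∈ Y then ({j} : Finset ι)
                else {l}) else {i})) = Q \ Y := by
              ext y
              simp only [mem_filter, mem_univ, true_and, mem_sdiff]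
              split_ifs with h h'
              · simp [h, h', Ne.symm hjk]
              · simp [h, h']
              · simp [h, Ne.symm hik]
            rw [this]; exact hY2
    · obtain ⟨B, hB, hBc⟩ := exists_subset_card_eq (s := A) (n := 2) (by omega)
      obtain ⟨R2, h1, h2, h3⟩ := two B hBc
      obtain ⟨R1, g1, g2, g3⟩ := ih (n - 2) (by omega) (A \ B)
        (by rw [card_sdiff_of_subset hB]; omega) (by omega) ρ
      have hdis : ∀ y, Disjoint (R1 y) (R2 y) := fun y =>
        disjoint_of_subset_left (g1 y) (disjoint_of_subset_right (h1 y) sdiff_disjoint)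
      refine ⟨fun y => R1 y ∪ R2 y, ?_, ?_, ?_⟩
      · intro y
        exact union_subset ((g1 y).trans sdiff_subset) ((h1 y).trans hB)
      · intro y
        dsimp only
        rw [card_union_of_disjoint (hdis y), g2, h2]
        omega
      · intro i hi
        by_cases hiB : i ∈ B
        · have : univ.filter (fun y => i ∈ R1 y ∪ R2 y) = univ.filter (fun y => i ∈ R2 y) := by
            refine filter_congr fun y _ => ?_
            rw [mem_union]
            refine ⟨fun h => h.resolve_left fun h' => ?_, Or.inr⟩
            exact (mem_sdiff.1 (g1 y h')).2 hiB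
          rw [this]; exact h3 i hiB
        · have : univ.filter (fun y => i ∈ R1 y ∪ R2 y) = univ.filter (fun y => i ∈ R1 y) := by
            refine filter_congr fun y _ => ?_
            rw [mem_union]
            exact ⟨fun h => h.resolve_right fun h' => hiB (h1 y h'), Or.inl⟩
          rw [this]; exact g3 i (mem_sdiff.2 ⟨hi, hiB⟩)

/-- Choices made block after block. -/
theorem greedy {p : ℕ} {ι β : Type} [DecidableEq β] (A : β → Set ι) (Opt : β → Type)
    (val : ∀ b, Opt b → ι → ZMod p) (h0 : ∀ b o i, i ∉ A b → val b o i = 0)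
    (h1 : ∀ b (ρ : ι → ZMod p), ∃ o, ∀ i ∈ A b, ρ i + val b o i ≠ 0) (B : Finset β) :
    ∃ o : ∀ b, Opt b, ∀ i, (∃ b ∈ B, i ∈ A b) → ∑ b ∈ B, val b (o b) i ≠ 0 := by
  induction B using Finset.induction_on with
  | empty =>
    have h2 : ∀ b, Nonempty (Opt b) := fun b => ⟨(h1 b 0).choose⟩
    refine ⟨fun b => (h2 b).some, ?_⟩
    rintro i ⟨b, hb, _⟩
    exact absurd hb (notMem_empty b)
  | insert b B hb ih =>
    obtain ⟨o, ho⟩ := ih
    obtain ⟨o', ho'⟩ := h1 b (fun i => ∑ c ∈ B, val c (o c) i)
    refine ⟨Function.update o b o', ?_⟩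
    intro i hi
    rw [sum_insert hb]
    have e1 : ∑ c ∈ B, val c (Function.update o b o' c) i = ∑ c ∈ B, val c (o c) i := by
      refine sum_congr rfl fun c hc => ?_
      have : c ≠ b := fun h => hb (h ▸ hc)
      rw [Function.update_of_ne this]
    rw [e1, Function.update_self]
    by_cases hib : i ∈ A b
    · rw [add_comm]; exact ho' i hib
    · rw [h0 b o' i hib, zero_add]
      obtain ⟨c, hc, hic⟩ := hi
      rcases mem_insert.1 hc with rfl | hc
      · exact absurd hic hib
      · exact ho i ⟨c, hc, hic⟩

/-- The choice lemma: halving the rows of each block, at each of `p` places. -/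
theorem choice {p : ℕ} [Fact p.Prime] (hp : 3 ≤ p) {ι Z₀ : Type} [Fintype Z₀] [DecidableEq ι]
    (A : Z₀ → Finset ι) (hA : ∀ z, 2 ≤ (A z).card) :
    ∃ R : Z₀ → ZMod p → Finset ι, (∀ z y, R z y ⊆ A z) ∧
      (∀ z y, (R z y).card = (A z).card / 2) ∧
      ∀ i, (∃ z, i ∈ A z) →
        ∑ z, ((univ.filter (fun y => i ∈ R z y)).card : ZMod p) ≠ 0 := by
  classical
  obtain ⟨o, ho⟩ := greedy (p := p) (fun z => (A z : Set ι))
    (fun z => {R : ZMod p → Finset ι // (∀ y, R y ⊆ A z) ∧ ∀ y, (R y).card = (A z).card / 2})
    (fun z R i => ((univ.filter (fun y => i ∈ R.1 y)).card : ZMod p))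
    (by
      intro z R i hi
      have : univ.filter (fun y => i ∈ R.1 y) = ∅ := by
        rw [filter_eq_empty_iff]
        exact fun y _ h => hi (mem_coe.2 (R.2.1 y h))
      rw [this, card_empty, Nat.cast_zero])
    (by
      intro z ρ
      obtain ⟨R, h1, h2, h3⟩ := block hp (A z).card (A z) rfl (hA z) ρ
      exact ⟨⟨R, h1, h2⟩, fun i hi => h3 i (mem_coe.1 hi)⟩) univ
  refine ⟨fun z => (o z).1, fun z => (o z).2.1, fun z => (o z).2.2, ?_⟩
  rintro i ⟨z, hz⟩
  exact ho i ⟨z, mem_univ _, mem_coe.2 hz⟩

theorem nc {ι : Type} [Fintype ι] (P : ι → Prop) [DecidablePred P] :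
    {i | P i}.ncard = (univ.filter P).card := by
  classical
  rw [Set.ncard_eq_toFinset_card']
  congr 1
  ext a
  simp

end Run7.h686
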