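import Pool.Agent.Run7.h686.Ham1

set_option autoImplicit false

/-!
Decomposition of products of cycles of length `p` into Hamiltonian cycles: splitting classes.
-/

namespace Run7.h686

open Finset

/-- The state: displacements `δ z i` of the index `i` at `z`, arranged from the directions `u`. -/
def Core {p : ℕ} [Fact p.Prime] {ι Z₀ : Type} [AddCommGroup Z₀] (u : ι → Z₀ × ZMod p)
    (δ : Z₀ → ι → Z₀ × ZMod p) : Prop :=
  (∀ z w, {i | δ z i = w}.ncard = {a | u a = w}.ncard) ∧
    ∃ σ : ι → Equiv.Perm (Z₀ × ZMod p), (∀ i z, σ i z = z + δ z.1 i) ∧ ∀ i, Tr (σ i)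

theorem Core.step {p : ℕ} [Fact p.Prime] {ι Z₀ : Type} [AddCommGroup Z₀] [Fintype Z₀]
    {u : ι → Z₀ × ZMod p} {δ : Z₀ → ι → Z₀ × ZMod p} (hc : Core u δ)
    (g : ι → ZMod p) (h : Z₀ → ZMod p → ι → ZMod p)
    (h1 : ∀ z y w ε, {i | δ z i = w ∧ h z y i = ε}.ncard = {a | u a = w ∧ g a = ε}.ncard)
    (h2 : ∀ i, ∑ z, ∑ y, h z y i ≠ 0) :
    Core (fun a => (u a, g a)) (fun (z : Z₀ × ZMod p) i => (δ z.1 i, h z.1 z.2 i)) := by
  obtain ⟨hcnt, σ, hσ, htr⟩ := hc
  refine ⟨?_, fun i => skew (σ i) (fun z => h z.1 z.2 i), ?_, ?_⟩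
  · rintro ⟨z, y⟩ ⟨w, ε⟩
    have := h1 z y w ε
    simpa only [Prod.mk.injEq] using this
  · rintro i ⟨z, y⟩
    rw [skew_apply, hσ]
    rfl
  · intro i
    refine Tr.skew (htr i) _ ?_
    rw [Fintype.sum_prod_type]
    exact h2 i

/-- Every index uses every direction. -/
def Pres {p : ℕ} {ι Z₀ : Type} (u : ι → Z₀ × ZMod p) (δ : Z₀ → ι → Z₀ × ZMod p) : Prop :=
  ∀ i a, ∃ z, δ z i = u a

theorem base_core (p : ℕ) [Fact p.Prime] (ι : Type) :
    Core (ι := ι) (Z₀ := Unit) (fun _ => ((0 : Unit), (1 : ZMod p))) (fun _ _ => (0, 1)) ∧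
      Pres (ι := ι) (Z₀ := Unit) (fun _ => ((0 : Unit), (1 : ZMod p))) (fun _ _ => (0, 1)) := by
  refine ⟨⟨fun z w => rfl, fun _ => Equiv.addRight (0, 1), fun i z => rfl, ?_⟩, ?_⟩
  · intro i
    have key : ∀ (n : ℕ) (x : Unit × ZMod p),
        ((Equiv.addRight ((0, 1) : Unit × ZMod p)) ^ n) x = (x.1, x.2 + n) := by
      intro n x
      induction n with
      | zero => simp
      | succ n ih =>
        rw [pow_succ', Equiv.Perm.mul_apply, ih]
        ext
        simp [add_assoc]
    rintro ⟨x1, x⟩ ⟨y1, y⟩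
    refine ⟨(y - x).val, ?_⟩
    rw [key, ZMod.natCast_zmod_val]
    ext
    simp
  · intro i a; exact ⟨0, rfl⟩

/-- Splitting one class into halves. -/
theorem split {p : ℕ} [Fact p.Prime] (hp : 3 ≤ p) {ι Z₀ : Type} [Fintype ι] [DecidableEq ι]
    [AddCommGroup Z₀] [Fintype Z₀]
    {u : ι → Z₀ × ZMod p} {δ : Z₀ → ι → Z₀ × ZMod p} (hc : Core u δ) (hpr : Pres u δ)
    (w : Z₀ × ZMod p) (A' : Finset ι) (hA' : ∀ a ∈ A', u a = w)
    (hw : 2 ≤ {a | u a = w}.ncard) (hw' : A'.card = {a | u a = w}.ncard / 2) :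
    ∃ δ' : Z₀ × ZMod p → ι → (Z₀ × ZMod p) × ZMod p,
      Core (fun a => (u a, if a ∈ A' then 1 else 0)) δ' ∧
      Pres (fun a => (u a, if a ∈ A' then 1 else 0)) δ' := by
  classical
  have h10 : (1 : ZMod p) ≠ 0 := one_ne_zero
  set d := {a | u a = w}.ncard with hd
  let A : Z₀ → Finset ι := fun z => univ.filter (fun i => δ z i = w)
  have hAc : ∀ z, (A z).card = d := by
    intro z
    rw [hd, ← hc.1 z w, nc]
  have memA : ∀ z i, i ∈ A z ↔ δ z i = w := by
    intro z i
    simp [A]
  obtain ⟨R, hR1, hR2, hR3⟩ := choice hp A (fun z => by rw [hAc]; exact hw)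
  have hRw : ∀ z y i, i ∈ R z y → δ z i = w := fun z y i hi => (memA z i).1 (hR1 z y hi)
  obtain ⟨a₀, ha₀⟩ : ∃ a, u a = w := by
    have : 0 < {a | u a = w}.ncard := by omega
    obtain ⟨a, ha⟩ := (Set.ncard_pos (Set.toFinite _)).1 this
    exact ⟨a, ha⟩
  have hR3' : ∀ i, ∑ z, ((univ.filter (fun y => i ∈ R z y)).card : ZMod p) ≠ 0 := by
    intro i
    obtain ⟨z, hz⟩ := hpr i a₀
    exact hR3 i ⟨z, (memA z i).2 (hz.trans ha₀)⟩
  have hsum : ∀ i z, ∑ y : ZMod p, (if i ∈ R z y then (1 : ZMod p) else 0) =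
      ((univ.filter (fun y => i ∈ R z y)).card : ZMod p) := by
    intro i z
    rw [sum_ite, sum_const_zero, add_zero, sum_const, nsmul_eq_mul, mul_one]
  refine ⟨fun z i => (δ z.1 i, if i ∈ R z.1 z.2 then 1 else 0),
    hc.step (fun a => if a ∈ A' then 1 else 0) (fun z y i => if i ∈ R z y then 1 else 0) ?_ ?_, ?_⟩
  · intro z y w1 ε
    -- both sides are given by cardinalities
    have key : ∀ (f : ι → Z₀ × ZMod p) (P : Finset ι), (∀ i ∈ P, f i = w) →
        {i | f i = w1 ∧ (if i ∈ P then (1 : ZMod p) else 0) = ε}.ncard =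
          if ε = 1 then (if w1 = w then P.card else 0) else
            if ε = 0 then {i | f i = w1}.ncard - (if w1 = w then P.card else 0) else 0 := by
      intro f P hP
      split_ifs with g1 g2 g3 g4
      · subst g1 g2
        rw [← Set.ncard_coe_finset]
        congr 1
        ext i
        simp only [Set.mem_ofPred_eq, mem_coe]
        constructor
        · rintro ⟨-, h⟩
          by_contra hi
          rw [if_neg hi] at h
          exact h10 h.symm
        · intro hi
          exact ⟨hP i hi, if_pos hi⟩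
      · subst g1
        rw [Set.ncard_eq_zero (Set.toFinite _), Set.eq_empty_iff_forall_notMem]
        rintro i ⟨hi, hi'⟩
        by_cases hiP : i ∈ P
        · exact g2 (hi.symm.trans (hP i hiP))
        · rw [if_neg hiP] at hi'
          exact h10 hi'.symm
      · subst g3 g4
        have hsub : (P : Set ι) ⊆ {i | f i = w1} := fun i hi => hP i (mem_coe.1 hi)
        rw [← Set.ncard_coe_finset P, ← Set.ncard_sdiff hsub (Set.toFinite _)]
        congr 1
        ext i
        simp only [Set.mem_ofPred_eq, Set.mem_sdiff, mem_coe]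
        constructor
        · rintro ⟨h, h'⟩
          refine ⟨h, fun hi => ?_⟩
          rw [if_pos hi] at h'
          exact h10 h'
        · rintro ⟨h, hi⟩
          exact ⟨h, if_neg hi⟩
      · subst g3
        rw [Nat.sub_zero]
        congr 1
        ext i
        simp only [Set.mem_ofPred_eq]
        constructor
        · rintro ⟨h, -⟩
          exact h
        · intro h
          refine ⟨h, if_neg fun hi => g4 ?_⟩
          exact h.symm.trans (hP i hi)
      · rw [Set.ncard_eq_zero (Set.toFinite _), Set.eq_empty_iff_forall_notMem]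
        rintro i ⟨hi, hi'⟩
        by_cases hiP : i ∈ P
        · rw [if_pos hiP] at hi'
          exact g1 hi'.symm
        · rw [if_neg hiP] at hi'
          exact g3 hi'.symm
    rw [key (δ z) (R z y) (hRw z y), key u A' hA', hc.1 z w1, hR2, hAc, hw']
  · intro i
    rw [sum_congr rfl fun z _ => hsum i z]
    exact hR3' i
  · intro i a
    have h1 := hR3' i
    by_cases ha : u a = w
    · by_cases haA : a ∈ A'
      · obtain ⟨z, -, hz⟩ := exists_ne_zero_of_sum_ne_zero h1
        have h2 : (univ.filter (fun y => i ∈ R z y)).Nonempty := by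
          rw [nonempty_iff_ne_empty]
          intro h
          rw [h] at hz
          simp at hz
        obtain ⟨y, hy⟩ := h2
        have hy' := (mem_filter.1 hy).2
        refine ⟨(z, y), ?_⟩
        dsimp only
        rw [if_pos hy', if_pos haA, hRw z y i hy', ha]
      · obtain ⟨z, y, hzy, hzy'⟩ : ∃ z y, i ∈ A z ∧ i ∉ R z y := by
          by_contra hcon
          push Not at hcon
          apply h1
          refine sum_eq_zero fun z _ => ?_
          by_cases hiz : i ∈ A z
          · have : univ.filter (fun y => i ∈ R z y) = univ :=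
              filter_true_of_mem fun y _ => hcon z y hiz
            rw [this, card_univ, ZMod.card]
            simp
          · have : univ.filter (fun y => i ∈ R z y) = ∅ :=
              filter_false_of_mem fun y _ h => hiz (hR1 z y h)
            rw [this]
            simp
        refine ⟨(z, y), ?_⟩
        dsimp only
        rw [if_neg hzy', if_neg haA, (memA z i).1 hzy, ha]
    · obtain ⟨z, hz⟩ := hpr i a
      refine ⟨(z, 0), ?_⟩
      dsimp only
      rw [if_neg, if_neg, hz]
      · intro h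
        exact ha (hA' a h)
      · intro h
        apply ha
        rw [← hz]
        exact hRw z 0 i h

/-- The number of classes grows by one. -/
theorem range_split {p : ℕ} [Fact p.Prime] {ι α : Type} [Finite ι] [DecidableEq ι]
    (u : ι → α) (w : α) (A' : Finset ι) (hA' : ∀ a ∈ A', u a = w)
    (hw : 2 ≤ {a | u a = w}.ncard) (hw' : A'.card = {a | u a = w}.ncard / 2) :
    (Set.range (fun a => (u a, if a ∈ A' then (1 : ZMod p) else 0))).ncard =
      (Set.range u).ncard + 1 := by
  have h10 : (1 : ZMod p) ≠ 0 := one_ne_zero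
  have h1 : Set.range (fun a => (u a, if a ∈ A' then (1 : ZMod p) else 0)) =
      insert (w, 1) ((fun x => (x, (0 : ZMod p))) '' Set.range u) := by
    ext x
    constructor
    · rintro ⟨a, rfl⟩
      dsimp only
      split_ifs with h
      · left
        rw [hA' a h]
      · right
        exact ⟨u a, ⟨a, rfl⟩, rfl⟩
    · rintro (h | ⟨_, ⟨a, rfl⟩, rfl⟩)
      · have : 0 < A'.card := by omega
        obtain ⟨a, ha⟩ := card_pos.1 this
        refine ⟨a, ?_⟩
        dsimp only
        rw [if_pos ha, h, hA' a ha]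
      · by_cases hwa : u a = w
        · obtain ⟨b, hb1, hb2⟩ : ∃ b, u b = w ∧ b ∉ A' := by
            by_contra hcon
            push Not at hcon
            have h2 : {a | u a = w} ⊆ (A' : Set ι) := fun b hb => hcon b hb
            have h3 := Set.ncard_le_ncard h2 (Set.toFinite _)
            rw [Set.ncard_coe_finset] at h3
            omega
          refine ⟨b, ?_⟩
          dsimp only
          rw [if_neg hb2, hb1, hwa]
        · refine ⟨a, ?_⟩
          dsimp only
          rw [if_neg (fun h => hwa (hA' a h))]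
  rw [h1, Set.ncard_insert_of_notMem _ (Set.toFinite _),
    Set.ncard_image_of_injective _ (fun x y hxy => (Prod.mk.inj hxy).1)]
  rintro ⟨x, -, hx⟩
  exact h10 (Prod.mk.inj hx).2.symm

/-- The state after `k - 1` splittings. -/
def St (p k : ℕ) [Fact p.Prime] (ι : Type) : Prop :=
  ∃ (Z₀ : Type) (_ : AddCommGroup Z₀) (_ : Module (ZMod p) Z₀) (_ : Fintype Z₀)
    (u : ι → Z₀ × ZMod p) (δ : Z₀ → ι → Z₀ × ZMod p),
    Nat.card (Z₀ × ZMod p) = p ^ k ∧ (Set.range u).ncard = k ∧ Core u δ ∧ Pres u δ

theorem St.step {p k : ℕ} [Fact p.Prime] (hp : 3 ≤ p) {ι : Type} [Fintype ι]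
    (h : St p k ι) (hk : k < Nat.card ι) : St p (k + 1) ι := by
  classical
  obtain ⟨Z₀, _, _, _, u, δ, hcard, hrange, hc, hpr⟩ := h
  obtain ⟨a₀, b₀, hab, hu⟩ : ∃ a b, a ≠ b ∧ u a = u b := by
    by_contra hcon
    push Not at hcon
    have hinj : Function.Injective u := fun a b hab => by
      by_contra hne
      exact hcon a b hne hab
    have h1 := Set.ncard_range_of_injective hinj
    omega
  have hd2 : 2 ≤ {a | u a = u a₀}.ncard := by
    rw [← Set.ncard_pair hab]
    refine Set.ncard_le_ncard ?_ (Set.toFinite _)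
    rintro x (rfl | hx)
    · rfl
    · rw [Set.mem_singleton_iff] at hx
      rw [hx]; exact hu.symm
  obtain ⟨A', hA'C, hA'c⟩ := exists_subset_card_eq (s := univ.filter (fun a => u a = u a₀))
    (n := {a | u a = u a₀}.ncard / 2) (by rw [nc]; omega)
  have hA' : ∀ a ∈ A', u a = u a₀ := fun a ha => (mem_filter.1 (hA'C ha)).2
  obtain ⟨δ', h1, h2⟩ := split hp hc hpr (u a₀) A' hA' hd2 hA'c
  refine ⟨Z₀ × ZMod p, inferInstance, inferInstance, inferInstance, _, δ', ?_, ?_, h1, h2⟩
  · rw [Nat.card_prod, hcard, Nat.card_zmod, pow_succ]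
  · rw [range_split u (u a₀) A' hA' hd2 hA'c, hrange]

theorem St.base (p : ℕ) [Fact p.Prime] (ι : Type) [Nonempty ι] : St p 1 ι := by
  obtain ⟨h1, h2⟩ := base_core p ι
  refine ⟨Unit, inferInstance, inferInstance, inferInstance, _, _, ?_, ?_, h1, h2⟩
  · simp
  · rw [Set.range_const, Set.ncard_singleton]

theorem St.top {p : ℕ} [Fact p.Prime] (hp : 3 ≤ p) (ι : Type) [Fintype ι] [Nonempty ι] :
    St p (Nat.card ι) ι := by
  have key : ∀ k, 1 ≤ k → k ≤ Nat.card ι → St p k ι := by
    intro k hk
    induction k, hk using Nat.le_induction with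
    | base => intro _; exact St.base p ι
    | succ k hk ih => intro h; exact (ih (by omega)).step hp (by omega)
  exact key _ Nat.card_pos le_rfl

end Run7.h686
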