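import Pool.Agent.Run7.h686.Ham4
import Pool.Agent.TH486.LAC.Lift

set_option autoImplicit false

/-!
The graph of a set of independent vectors is the union of graphs of maximum degree two whose
components are the cosets of the span.
-/

namespace Run7.h686

open Finset Pool.Agent.W111.LAR

/-- The functional graph of `F`. -/
def fgr {V : Type} (F : V → V) : SimpleGraph V where
  Adj a b := a ≠ b ∧ (b = F a ∨ a = F b)
  symm := by
    constructor
    rintro a b ⟨h1, h2⟩
    exact ⟨h1.symm, h2.symm⟩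
  loopless := ⟨fun a h => h.1 rfl⟩

theorem fgr_deg {V : Type} [Finite V] {F : V → V} (hF : Function.Injective F) (v : V) :
    ((fgr F).neighborSet v).ncard ≤ 2 := by
  have hsub : (fgr F).neighborSet v ⊆ {F v} ∪ {w | F w = v} := by
    rintro w ⟨_, h | h⟩
    · left; exact h
    · right; exact h.symm
  have h1 : {w | F w = v}.ncard ≤ 1 :=
    (Set.ncard_le_one_iff (Set.toFinite _)).2 fun {a b} ha hb => hF (ha.trans hb.symm)
  refine (Set.ncard_le_ncard hsub (Set.toFinite _)).trans ?_
  refine (Set.ncard_union_le _ _).trans ?_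
  rw [Set.ncard_singleton]
  omega

theorem fgr_reach {V : Type} (F : V → V) (n : ℕ) (v : V) : (fgr F).Reachable v (F^[n] v) := by
  induction n with
  | zero => exact SimpleGraph.Reachable.refl v
  | succ n ih =>
    rw [Function.iterate_succ_apply']
    by_cases h : F^[n] v = F (F^[n] v)
    · rw [← h]; exact ih
    · exact ih.trans (SimpleGraph.Adj.reachable ⟨h, Or.inl rfl⟩)

theorem dec_of_core {p : ℕ} [Fact p.Prime] {V : Type} [AddCommGroup V] [Module (ZMod p) V]
    [Finite V] {ι : Type} [Fintype ι] [Nonempty ι] {Z₀ : Type} [AddCommGroup Z₀]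
    [Module (ZMod p) Z₀] [Fintype Z₀] {u : ι → Z₀ × ZMod p} {δ : Z₀ → ι → Z₀ × ZMod p}
    (hc : Core u δ) (x : ι → V) {J : Type} [Fintype J] (j : J → ι)
    (hJ : LinearIndependent (ZMod p) (fun t => x (j t)))
    (hcard : Nat.card (Z₀ × ZMod p) = p ^ Nat.card J)
    (hrel : ∀ c, ∃ f : J → ZMod p, u c = ∑ t, f t • u (j t) ∧ x c = ∑ t, f t • x (j t)) :
    ∃ P : ι → SimpleGraph V, (∀ i v, ((P i).neighborSet v).ncard ≤ 2) ∧
      (∀ i v, p ^ Nat.card J ≤ csize (P i) v) ∧
      ∀ a b, (∃ i, (P i).Adj a b) ↔ a ≠ b ∧ ∃ j, b = a + x j ∨ a = b + x j := by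
  classical
  obtain ⟨hcnt, σ, hσ, htr⟩ := hc
  have hfin : Finite (Z₀ × ZMod p) := inferInstance
  have hδ1 : ∀ z i, ∃ a, δ z i = u a := by
    intro z i
    have h1 : 0 < {j | δ z j = δ z i}.ncard := (Set.ncard_pos (Set.toFinite _)).2 ⟨i, rfl⟩
    rw [hcnt z (δ z i)] at h1
    obtain ⟨a, ha⟩ := (Set.ncard_pos (Set.toFinite _)).1 h1
    exact ⟨a, ha.symm⟩
  have hδ2 : ∀ z a, ∃ i, δ z i = u a := by
    intro z a
    have h1 : 0 < {b | u b = u a}.ncard := (Set.ncard_pos (Set.toFinite _)).2 ⟨a, rfl⟩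
    rw [← hcnt z (u a)] at h1
    exact (Set.ncard_pos (Set.toFinite _)).1 h1
  -- the linear isomorphism
  let M : (J → ZMod p) →ₗ[ZMod p] Z₀ × ZMod p :=
    Fintype.linearCombination (ZMod p) (fun t => u (j t))
  have hMap : ∀ f, M f = ∑ t, f t • u (j t) := fun f => Fintype.linearCombination_apply _ _ _
  have hMu : ∀ a, u a ∈ LinearMap.range M := by
    intro a
    obtain ⟨f, hf, -⟩ := hrel a
    exact ⟨f, by rw [hMap, hf]⟩
  have hMsurj : Function.Surjective M := by
    intro z
    obtain ⟨i⟩ := ‹Nonempty ι›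
    obtain ⟨n, hn⟩ := htr i 0 z
    have key : ∀ n : ℕ, (σ i ^ n) 0 ∈ LinearMap.range M := by
      intro n
      induction n with
      | zero => simp
      | succ n ih =>
        rw [pow_succ', Equiv.Perm.mul_apply, hσ]
        obtain ⟨a, ha⟩ := hδ1 ((σ i ^ n) 0).1 i
        rw [ha]
        exact Submodule.add_mem _ ih (hMu a)
    have := key n
    rw [hn] at this
    exact this
  have hMbij : Function.Bijective M := by
    rw [Nat.bijective_iff_surjective_and_card]
    refine ⟨hMsurj, ?_⟩
    rw [hcard, Nat.card_fun, Nat.card_zmod]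
  let e : (J → ZMod p) ≃ₗ[ZMod p] Z₀ × ZMod p := LinearEquiv.ofBijective M hMbij
  let X : (J → ZMod p) →ₗ[ZMod p] V := Fintype.linearCombination (ZMod p) (fun t => x (j t))
  let Λ : (Z₀ × ZMod p) →ₗ[ZMod p] V := X.comp e.symm.toLinearMap
  have hΛu : ∀ a, Λ (u a) = x a := by
    intro a
    obtain ⟨f, hf1, hf2⟩ := hrel a
    have h1 : e f = u a := by
      show M f = u a
      rw [hMap, hf1]
    show X (e.symm (u a)) = x a
    rw [← h1, LinearEquiv.symm_apply_apply, hf2]
    exact Fintype.linearCombination_apply _ _ _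
  have hΛinj : Function.Injective Λ := by
    have h1 : Function.Injective X :=
      linearIndependent_iff_injective_fintypeLinearCombination.1 hJ
    exact h1.comp e.symm.injective
  obtain ⟨g, hg⟩ := Λ.exists_leftInverse_of_injective (LinearMap.ker_eq_bot.2 hΛinj)
  have hg' : ∀ z, g (Λ z) = z := fun z => LinearMap.congr_fun hg z
  let F : ι → V → V := fun i v => v + Λ (δ (g v).1 i)
  have hgF : ∀ i v, g (F i v) = σ i (g v) := by
    intro i v
    show g (v + Λ (δ (g v).1 i)) = _
    rw [map_add, hg', hσ]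
  have hFinj : ∀ i, Function.Injective (F i) := by
    intro i v v' h
    have h1 : g v = g v' := by
      apply (σ i).injective
      rw [← hgF, ← hgF, h]
    have h2 : v + Λ (δ (g v).1 i) = v' + Λ (δ (g v').1 i) := h
    rw [h1] at h2
    exact add_right_cancel h2
  refine ⟨fun i => fgr (F i), fun i v => fgr_deg (hFinj i) v, ?_, ?_⟩
  · intro i v
    rw [← hcard]
    have hiter : ∀ n : ℕ, (F i)^[n] v = v + Λ ((σ i ^ n) (g v) - g v) := by
      intro n
      induction n with
      | zero => simp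
      | succ n ih =>
        have h1 : g ((F i)^[n] v) = (σ i ^ n) (g v) := by
          rw [ih, map_add, hg']
          abel
        rw [Function.iterate_succ_apply']
        show (F i)^[n] v + Λ (δ (g ((F i)^[n] v)).1 i) = _
        rw [h1, pow_succ', Equiv.Perm.mul_apply, hσ, ih, add_assoc, ← map_add]
        congr 2
        abel
    have hsub : Set.range (fun z => v + Λ (z - g v)) ⊆ {w | (fgr (F i)).Reachable v w} := by
      rintro _ ⟨z, rfl⟩
      obtain ⟨n, hn⟩ := htr i (g v) z
      have := fgr_reach (F i) n v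
      rw [hiter, hn] at this
      exact this
    have h1 := Set.ncard_le_ncard hsub (Set.toFinite _)
    rw [Set.ncard_range_of_injective] at h1
    · exact h1
    · intro z z' h
      have := hΛinj (add_left_cancel h)
      exact sub_left_injective this
  · intro a b
    constructor
    · rintro ⟨i, hne, h | h⟩
      · obtain ⟨j, hj⟩ := hδ1 (g a).1 i
        refine ⟨hne, j, Or.inl ?_⟩
        rw [h]
        show a + Λ (δ (g a).1 i) = _
        rw [hj, hΛu]
      · obtain ⟨j, hj⟩ := hδ1 (g b).1 i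
        refine ⟨hne, j, Or.inr ?_⟩
        rw [h]
        show b + Λ (δ (g b).1 i) = _
        rw [hj, hΛu]
    · rintro ⟨hne, j, h | h⟩
      · obtain ⟨i, hi⟩ := hδ2 (g a).1 j
        refine ⟨i, hne, Or.inl ?_⟩
        show b = a + Λ (δ (g a).1 i)
        rw [hi, hΛu]
        exact h
      · obtain ⟨i, hi⟩ := hδ2 (g b).1 j
        refine ⟨i, hne, Or.inr ?_⟩
        show a = b + Λ (δ (g b).1 i)
        rw [hi, hΛu]
        exact h

/-- The Cayley graph of the vectors `x i` decomposes into graphs with maximum degree two and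
large components. -/
def DecF {V ι : Type} [AddCommGroup V] (x : ι → V) (c : ℕ) : Prop :=
  ∃ P : ι → SimpleGraph V, (∀ i v, ((P i).neighborSet v).ncard ≤ 2) ∧
      (∀ i v, c ≤ csize (P i) v) ∧
      ∀ a b, (∃ i, (P i).Adj a b) ↔ a ≠ b ∧ ∃ j, b = a + x j ∨ a = b + x j

/-- Independent vectors. -/
theorem ham {p : ℕ} [Fact p.Prime] (hp : 3 ≤ p) {V : Type} [AddCommGroup V] [Module (ZMod p) V]
    [Finite V] {ι : Type} [Fintype ι] (x : ι → V) (hx : LinearIndependent (ZMod p) x) :
    DecF x (p ^ Nat.card ι) := by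
  classical
  rcases isEmpty_or_nonempty ι with hι | hι
  · exact ⟨fun i => ⊥, fun i => isEmptyElim i, fun i => isEmptyElim i,
      fun a b => ⟨fun ⟨i, _⟩ => isEmptyElim i, fun ⟨_, j, _⟩ => isEmptyElim j⟩⟩
  obtain ⟨Z₀, _, _, _, u, δ, hcard, -, hc, -⟩ := St.top hp ι
  refine dec_of_core hc x (fun t : ι => t) hx hcard ?_
  intro c
  exact ⟨Pi.single c 1, by simp [Pi.single_apply], by simp [Pi.single_apply]⟩

/-- Vectors with a relation `a - a' = b - b'`. -/
theorem ham4 {p : ℕ} [Fact p.Prime] (hp : 3 ≤ p) {V : Type} [AddCommGroup V] [Module (ZMod p) V]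
    [Finite V] {ι : Type} [Fintype ι] (x : ι → V) {a a' b b' : ι}
    (haa : a ≠ a') (hab : a ≠ b) (hab' : a ≠ b') (ha'b : a' ≠ b) (ha'b' : a' ≠ b')
    (hbb : b ≠ b') (hx : LinearIndependent (ZMod p) (fun t : {c // c ≠ b'} => x t))
    (hrel : x a - x a' = x b - x b') :
    DecF x (p ^ (Nat.card ι - 1)) := by
  classical
  obtain ⟨Z₀, _, _, _, u, δ, hcard, -, hc, hu⟩ := quad_state hp haa hab hab' ha'b ha'b' hbb
  have : Nonempty ι := ⟨a⟩
  have hcJ : Nat.card {c // c ≠ b'} = Nat.card ι - 1 := by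
    rw [Nat.card_eq_fintype_card, Nat.card_eq_fintype_card, Fintype.card_subtype_compl,
      Fintype.card_subtype_eq]
  rw [← hcJ] at hcard ⊢
  refine dec_of_core hc x (fun t : {c // c ≠ b'} => t.1) hx hcard ?_
  intro c
  by_cases hcb : c = b'
  · subst hcb
    refine ⟨Pi.single ⟨b, hbb⟩ 1 - Pi.single ⟨a, hab'⟩ 1 + Pi.single ⟨a', ha'b'⟩ 1, ?_, ?_⟩
    · simp only [Pi.add_apply, Pi.sub_apply, add_smul, sub_smul, sum_add_distrib,
        sum_sub_distrib, Pi.single_apply, ite_smul, one_smul, zero_smul, sum_ite_eq', mem_univ, if_true]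
      have : u c = u b - (u b - u c) := by abel
      rw [this, ← hu]
      abel
    · simp only [Pi.add_apply, Pi.sub_apply, add_smul, sub_smul, sum_add_distrib,
        sum_sub_distrib, Pi.single_apply, ite_smul, one_smul, zero_smul, sum_ite_eq', mem_univ, if_true]
      have : x c = x b - (x b - x c) := by abel
      rw [this, ← hrel]
      abel
  · exact ⟨Pi.single ⟨c, hcb⟩ 1, by simp [Pi.single_apply], by simp [Pi.single_apply]⟩

/-- Three vectors on a line. -/
theorem ham3 {p : ℕ} [Fact p.Prime] {V : Type} [AddCommGroup V] [Module (ZMod p) V]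
    [Finite V] (x : Fin 3 → V) (t : ZMod p) (ht0 : t ≠ 0) (ht1 : t ≠ 1)
    (hx : LinearIndependent (ZMod p) (fun s : Fin 2 => x s.castSucc))
    (hrel : x 2 - x 0 = t • (x 1 - x 0)) :
    DecF x (p ^ 2) := by
  classical
  have h10 : (1 : ZMod p) ≠ 0 := one_ne_zero
  obtain ⟨h1, -⟩ := base_core p (Fin 3)
  let g : Fin 3 → ZMod p := ![0, 1, t]
  have hcore := h1.step g (fun _ y i => if y = 0 then g (i + 1) else g i) (by
    intro z y w ε
    split_ifs with hy
    · refine Set.ncard_congr (fun i _ => i + 1) ?_ ?_ ?_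
      · rintro i ⟨h2, h3⟩
        exact ⟨h2, h3⟩
      · intro i j _ _ h
        exact add_right_cancel h
      · rintro i ⟨h2, h3⟩
        exact ⟨i - 1, ⟨h2, by simpa using h3⟩, by simp⟩
    · rfl) (by
    intro i
    have e1 : ∑ z : Unit, ∑ y : ZMod p, (if y = 0 then g (i + 1) else g i) =
        g (i + 1) - g i := by
      have e2 : ∀ y : ZMod p, (if y = 0 then g (i + 1) else g i) =
          (if y = 0 then g (i + 1) - g i else 0) + g i := by
        intro y; split_ifs <;> simp
      simp only [e2, sum_add_distrib, sum_ite_eq', mem_univ, if_true, sum_const,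
        card_univ, ZMod.card]
      simp
    rw [e1]
    fin_cases i
    · simp [g]
    · simp only [g]
      intro h
      exact ht1 (sub_eq_zero.1 (by simpa using h))
    · simp only [g]
      intro h
      apply ht0
      simpa using h)
  have h2 := dec_of_core (J := Fin 2) hcore x (fun s : Fin 2 => s.castSucc) hx ?_ ?_
  · rw [Nat.card_eq_fintype_card, Fintype.card_fin] at h2
    exact h2
  · rw [Nat.card_prod, Nat.card_prod, Nat.card_zmod, Nat.card_unique, Nat.card_eq_fintype_card,
      Fintype.card_fin, one_mul, pow_two]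
  · intro c
    fin_cases c
    · exact ⟨![1, 0], by simp, by simp⟩
    · exact ⟨![0, 1], by simp, by simp⟩
    · refine ⟨![1 - t, t], by simp [g], ?_⟩
      have : x 2 = x 0 + (x 2 - x 0) := by abel
      simp only [Fin.reduceFinMk]
      rw [this, hrel]
      simp [sub_smul, smul_sub]
      abel

end Run7.h686
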