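import Pool.Agent.Run7.h686.Ham2

set_option autoImplicit false

/-!
Hamiltonian decompositions for sets of directions with a relation `a - a' = b - b'`.
-/

namespace Run7.h686

open Finset

theorem cnt2 {p : ℕ} [Fact p.Prime] {ι α : Type} [Finite ι] (f : ι → α) (P : ι → Prop)
    [DecidablePred P] (w : α) (ε : ZMod p) :
    {i | f i = w ∧ (if P i then (1 : ZMod p) else 0) = ε}.ncard =
      if ε = 1 then {i | f i = w ∧ P i}.ncard else
        if ε = 0 then {i | f i = w}.ncard - {i | f i = w ∧ P i}.ncard else 0 := by
  have h10 : (1 : ZMod p) ≠ 0 := one_ne_zero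
  split_ifs with g1 g2
  · subst g1
    congr 1
    ext i
    simp only [Set.mem_ofPred_eq]
    constructor
    · rintro ⟨h, h'⟩
      refine ⟨h, ?_⟩
      by_contra hi
      rw [if_neg hi] at h'
      exact h10 h'.symm
    · rintro ⟨h, h'⟩
      exact ⟨h, if_pos h'⟩
  · subst g2
    have hsub : {i | f i = w ∧ P i} ⊆ {i | f i = w} := fun i hi => hi.1
    rw [← Set.ncard_sdiff hsub (Set.toFinite _)]
    congr 1
    ext i
    simp only [Set.mem_ofPred_eq, Set.mem_sdiff]
    constructor
    · rintro ⟨h, h'⟩
      refine ⟨h, fun hi => ?_⟩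
      rw [if_pos hi.2] at h'
      exact h10 h'
    · rintro ⟨h, hi⟩
      exact ⟨h, if_neg fun h' => hi ⟨h, h'⟩⟩
  · rw [Set.ncard_eq_zero (Set.toFinite _), Set.eq_empty_iff_forall_notMem]
    rintro i ⟨-, hi'⟩
    by_cases hiP : P i
    · rw [if_pos hiP] at hi'
      exact g1 hi'.symm
    · rw [if_neg hiP] at hi'
      exact g2 hi'.symm

/-- The state after `k - 1` splittings keeping two pairs together. -/
def St4 (p k : ℕ) [Fact p.Prime] {ι : Type} (a a' b b' : ι) : Prop :=
  ∃ (Z₀ : Type) (_ : AddCommGroup Z₀) (_ : Module (ZMod p) Z₀) (_ : Fintype Z₀)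
    (u : ι → Z₀ × ZMod p) (δ : Z₀ → ι → Z₀ × ZMod p),
    Nat.card (Z₀ × ZMod p) = p ^ k ∧ (Set.range u).ncard = k ∧ Core u δ ∧ Pres u δ ∧
    u a = u a' ∧ u b = u b' ∧ (2 ≤ k → u a ≠ u b)

theorem St4.base (p : ℕ) [Fact p.Prime] {ι : Type} (a a' b b' : ι) : St4 p 1 a a' b b' := by
  have : Nonempty ι := ⟨a⟩
  obtain ⟨h1, h2⟩ := base_core p ι
  refine ⟨Unit, inferInstance, inferInstance, inferInstance, _, _, ?_, ?_, h1, h2, rfl, rfl, ?_⟩
  · simp
  · rw [Set.range_const, Set.ncard_singleton]
  · intro h; omega

theorem St4.step {p k : ℕ} [Fact p.Prime] (hp : 3 ≤ p) {ι : Type} [Fintype ι] {a a' b b' : ι}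
    (haa : a ≠ a') (hab : a ≠ b) (hab' : a ≠ b') (ha'b : a' ≠ b) (ha'b' : a' ≠ b')
    (hbb : b ≠ b') (hk1 : 1 ≤ k)
    (h : St4 p k a a' b b') (hk : k + 2 < Nat.card ι) : St4 p (k + 1) a a' b b' := by
  classical
  obtain ⟨Z₀, _, _, _, u, δ, hcard, hrange, hc, hpr, hua, hub, huab⟩ := h
  rw [Nat.card_eq_fintype_card] at hk
  have h10 : (1 : ZMod p) ≠ 0 := one_ne_zero
  -- it is enough to find a suitable half of a class
  suffices hex : ∃ (w : Z₀ × ZMod p) (A' : Finset ι), (∀ c ∈ A', u c = w) ∧
      2 ≤ {c | u c = w}.ncard ∧ A'.card = {c | u c = w}.ncard / 2 ∧ (a ∈ A' ↔ a' ∈ A') ∧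
      (b ∈ A' ↔ b' ∈ A') ∧ (k = 1 → a ∈ A' ∧ b ∉ A') by
    obtain ⟨w, A', hA', hw, hw', e1, e2, e3⟩ := hex
    obtain ⟨δ', h1, h2⟩ := split hp hc hpr w A' hA' hw hw'
    refine ⟨Z₀ × ZMod p, inferInstance, inferInstance, inferInstance, _, δ', ?_, ?_, h1, h2, ?_,
      ?_, ?_⟩
    · rw [Nat.card_prod, hcard, Nat.card_zmod, pow_succ]
    · rw [range_split u w A' hA' hw hw', hrange]
    · rw [hua]
      simp only [e1]
    · rw [hub]
      simp only [e2]
    · intro _ heq
      obtain ⟨g1, g2⟩ := Prod.mk.inj heq
      by_cases hk' : k = 1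
      · obtain ⟨f1, f2⟩ := e3 hk'
        rw [if_pos f1, if_neg f2] at g2
        exact h10 g2
      · exact huab (by omega) g1
  by_cases hk' : k = 1
  · -- the first splitting
    subst hk'
    obtain ⟨w, hw⟩ := Set.ncard_eq_one.1 hrange
    have hall : ∀ c, u c = w := by
      intro c
      have : u c ∈ Set.range u := ⟨c, rfl⟩
      rw [hw] at this
      exact this
    have hcl : {c | u c = w}.ncard = Fintype.card ι := by
      have : {c | u c = w} = Set.univ := by
        ext c; simp [hall c]
      rw [this, Set.ncard_univ, Nat.card_eq_fintype_card]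
    have hsub : ({a, a'} : Finset ι) ⊆ univ \ {b, b'} := by
      intro x hx
      rw [mem_insert, mem_singleton] at hx
      rw [mem_sdiff, mem_insert, mem_singleton]
      rcases hx with rfl | rfl
      · exact ⟨mem_univ _, by tauto⟩
      · exact ⟨mem_univ _, by tauto⟩
    obtain ⟨A', hA1, hA2, hA3⟩ := exists_subsuperset_card_eq hsub
      (n := Fintype.card ι / 2) (by rw [card_pair haa]; omega)
      (by
        rw [card_sdiff_of_subset (subset_univ _), card_pair hbb, card_univ]
        omega)
    have m1 : a ∈ A' := hA1 (by simp)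
    have m2 : a' ∈ A' := hA1 (by simp)
    have m3 : b ∉ A' := fun h => by
      have := hA2 h
      rw [mem_sdiff] at this
      exact this.2 (by simp)
    have m4 : b' ∉ A' := fun h => by
      have := hA2 h
      rw [mem_sdiff] at this
      exact this.2 (by simp)
    refine ⟨w, A', fun c _ => hall c, ?_, ?_, ?_, ?_, fun _ => ⟨m1, m3⟩⟩
    · rw [hcl]; omega
    · rw [hcl, hA3]
    · simp [m1, m2]
    · simp [m3, m4]
  · have huab' : u a ≠ u b := huab (by omega)
    -- two directions of the same class outside `a'`, `b'`
    obtain ⟨c, d, hc1, hc2, hd1, hd2, hcd, hucd⟩ : ∃ c d, c ≠ a' ∧ c ≠ b' ∧ d ≠ a' ∧ d ≠ b' ∧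
        c ≠ d ∧ u c = u d := by
      by_contra hcon
      push Not at hcon
      have hinj : Set.InjOn u ({a', b'}ᶜ : Set ι) := by
        intro c hc' d hd' hcd
        by_contra hne
        simp only [Set.mem_compl_iff, Set.mem_insert_iff, Set.mem_singleton_iff, not_or] at hc' hd'
        exact hcon c d hc'.1 hc'.2 hd'.1 hd'.2 hne hcd
      have h1 := hinj.ncard_image
      have h2 : (u '' ({a', b'}ᶜ : Set ι)).ncard ≤ k := by
        rw [← hrange]
        exact Set.ncard_le_ncard (Set.image_subset_range _ _) (Set.toFinite _)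
      have h3 : ({a', b'}ᶜ : Set ι).ncard + 2 = Fintype.card ι := by
        have := Set.ncard_compl_add_ncard ({a', b'} : Set ι)
        rw [Set.ncard_pair ha'b', Nat.card_eq_fintype_card] at this
        exact this
      omega
    set C : Finset ι := univ.filter (fun x => u x = u c) with hC
    have hCc : {x | u x = u c}.ncard = C.card := nc _
    have memC : ∀ x, x ∈ C ↔ u x = u c := fun x => by simp [hC]
    -- a half avoiding a given subset
    have pick : ∀ X : Finset ι, X ⊆ C → C.card / 2 + X.card ≤ C.card →
        ∃ A' : Finset ι, A' ⊆ C \ X ∧ A'.card = C.card / 2 := by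
      intro X hX hle
      exact exists_subset_card_eq (by rw [card_sdiff_of_subset hX]; omega)
    have h2C : 2 ≤ C.card := by
      rw [← card_pair hcd]
      apply card_le_card
      intro x hx
      rw [mem_insert, mem_singleton] at hx
      rw [memC]
      rcases hx with rfl | rfl
      · rfl
      · exact hucd.symm
    by_cases haC : a ∈ C
    · have ha'C : a' ∈ C := by rw [memC, ← hua, ← memC]; exact haC
      have hbC : b ∉ C := by
        rw [memC]
        intro h
        rw [memC] at haC
        exact huab' (haC.trans h.symm)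
      have hb'C : b' ∉ C := by
        rw [memC, ← hub, ← memC]; exact hbC
      have h3C : 3 ≤ C.card := by
        have hx : ∃ x ∈ C, x ≠ a ∧ x ≠ a' := by
          by_cases hca : c = a
          · exact ⟨d, by rw [memC]; exact hucd.symm, fun h => hcd (hca.trans h.symm), hd1⟩
          · exact ⟨c, by rw [memC], hca, hc1⟩
        obtain ⟨x, hx, hxa, hxa'⟩ := hx
        have : ({x, a, a'} : Finset ι).card = 3 := by
          rw [card_eq_three]
          exact ⟨x, a, a', hxa, hxa', haa, rfl⟩
        rw [← this]
        apply card_le_card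
        intro y hy
        simp only [mem_insert, mem_singleton] at hy
        rcases hy with rfl | rfl | rfl
        · exact hx
        · exact haC
        · exact ha'C
      obtain ⟨A', hA1, hA2⟩ := pick {a, a'} (by
        intro y hy
        simp only [mem_insert, mem_singleton] at hy
        rcases hy with rfl | rfl
        · exact haC
        · exact ha'C) (by rw [card_pair haa]; omega)
      have hsubC : ∀ x ∈ A', x ∈ C := fun x hx => (mem_sdiff.1 (hA1 hx)).1
      have m1 : a ∉ A' := fun h => (mem_sdiff.1 (hA1 h)).2 (by simp)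
      have m2 : a' ∉ A' := fun h => (mem_sdiff.1 (hA1 h)).2 (by simp)
      have m3 : b ∉ A' := fun h => hbC (hsubC _ h)
      have m4 : b' ∉ A' := fun h => hb'C (hsubC _ h)
      exact ⟨u c, A', fun x hx => (memC x).1 (hsubC x hx), by rw [hCc]; omega, by rw [hCc, hA2],
        by simp [m1, m2], by simp [m3, m4], fun h => absurd h hk'⟩
    · have ha'C : a' ∉ C := by rw [memC, ← hua, ← memC]; exact haC
      by_cases hbC : b ∈ C
      · have hb'C : b' ∈ C := by rw [memC, ← hub, ← memC]; exact hbC
        have h3C : 3 ≤ C.card := by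
          have hx : ∃ x ∈ C, x ≠ b ∧ x ≠ b' := by
            by_cases hcb : c = b
            · exact ⟨d, by rw [memC]; exact hucd.symm, fun h => hcd (hcb.trans h.symm), hd2⟩
            · exact ⟨c, by rw [memC], hcb, hc2⟩
          obtain ⟨x, hx, hxb, hxb'⟩ := hx
          have : ({x, b, b'} : Finset ι).card = 3 := by
            rw [card_eq_three]
            exact ⟨x, b, b', hxb, hxb', hbb, rfl⟩
          rw [← this]
          apply card_le_card
          intro y hy
          simp only [mem_insert, mem_singleton] at hy
          rcases hy with rfl | rfl | rfl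
          · exact hx
          · exact hbC
          · exact hb'C
        obtain ⟨A', hA1, hA2⟩ := pick {b, b'} (by
          intro y hy
          simp only [mem_insert, mem_singleton] at hy
          rcases hy with rfl | rfl
          · exact hbC
          · exact hb'C) (by rw [card_pair hbb]; omega)
        have hsubC : ∀ x ∈ A', x ∈ C := fun x hx => (mem_sdiff.1 (hA1 hx)).1
        have m1 : a ∉ A' := fun h => haC (hsubC _ h)
        have m2 : a' ∉ A' := fun h => ha'C (hsubC _ h)
        have m3 : b ∉ A' := fun h => (mem_sdiff.1 (hA1 h)).2 (by simp)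
        have m4 : b' ∉ A' := fun h => (mem_sdiff.1 (hA1 h)).2 (by simp)
        exact ⟨u c, A', fun x hx => (memC x).1 (hsubC x hx), by rw [hCc]; omega, by rw [hCc, hA2],
          by simp [m1, m2], by simp [m3, m4], fun h => absurd h hk'⟩
      · have hb'C : b' ∉ C := by rw [memC, ← hub, ← memC]; exact hbC
        obtain ⟨A', hA1, hA2⟩ := pick ∅ (empty_subset _) (by rw [card_empty]; omega)
        have hsubC : ∀ x ∈ A', x ∈ C := fun x hx => (mem_sdiff.1 (hA1 hx)).1
        have m1 : a ∉ A' := fun h => haC (hsubC _ h)
        have m2 : a' ∉ A' := fun h => ha'C (hsubC _ h)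
        have m3 : b ∉ A' := fun h => hbC (hsubC _ h)
        have m4 : b' ∉ A' := fun h => hb'C (hsubC _ h)
        exact ⟨u c, A', fun x hx => (memC x).1 (hsubC x hx), by rw [hCc]; omega, by rw [hCc, hA2],
          by simp [m1, m2], by simp [m3, m4], fun h => absurd h hk'⟩

/-- The final splitting of the two pairs. -/
theorem quad_state {p : ℕ} [Fact p.Prime] (hp : 3 ≤ p) {ι : Type} [Fintype ι] {a a' b b' : ι}
    (haa : a ≠ a') (hab : a ≠ b) (hab' : a ≠ b') (ha'b : a' ≠ b) (ha'b' : a' ≠ b')
    (hbb : b ≠ b') :
    ∃ (Z₀ : Type) (_ : AddCommGroup Z₀) (_ : Module (ZMod p) Z₀) (_ : Fintype Z₀)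
      (u : ι → Z₀ × ZMod p) (δ : Z₀ → ι → Z₀ × ZMod p),
      Nat.card (Z₀ × ZMod p) = p ^ (Nat.card ι - 1) ∧ Function.Injective u ∧ Core u δ ∧
      u a - u a' = u b - u b' := by
  classical
  have h10 : (1 : ZMod p) ≠ 0 := one_ne_zero
  have h4 : 4 ≤ Nat.card ι := by
    have : ({a, a', b, b'} : Finset ι).card = 4 := by
      rw [card_insert_of_notMem (by simp [haa, hab, hab']),
        card_insert_of_notMem (by simp [ha'b, ha'b']), card_pair hbb]
    rw [Nat.card_eq_fintype_card, ← this, ← card_univ]
    exact card_le_card (subset_univ _)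
  have key : ∀ k, 1 ≤ k → k + 2 ≤ Nat.card ι → St4 p k a a' b b' := by
    intro k hk
    induction k, hk using Nat.le_induction with
    | base => intro _; exact St4.base p a a' b b'
    | succ k hk ih =>
      intro h
      exact (ih (by omega)).step hp haa hab hab' ha'b ha'b' hbb hk (by omega)
  obtain ⟨Z₀, _, _, _, u, δ, hcard, hrange, hc, hpr, hua, hub, huab⟩ :=
    key (Nat.card ι - 2) (by omega) (by omega)
  have huab' : u a ≠ u b := huab (by omega)
  -- injectivity outside `a'`, `b'`
  have hinj : Set.InjOn u ({a', b'}ᶜ : Set ι) := by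
    refine Set.injOn_of_ncard_image_eq ?_ (Set.toFinite _)
    have e1 : u '' ({a', b'}ᶜ : Set ι) = Set.range u := by
      apply Set.Subset.antisymm (Set.image_subset_range _ _)
      rintro _ ⟨c, rfl⟩
      by_cases h1 : c = a'
      · exact ⟨a, by simp [haa, hab'], by rw [h1, hua]⟩
      · by_cases h2 : c = b'
        · exact ⟨b, by simp [hbb, Ne.symm ha'b], by rw [h2, hub]⟩
        · exact ⟨c, by simp [h1, h2], rfl⟩
    rw [e1, hrange]
    have := Set.ncard_compl_add_ncard ({a', b'} : Set ι)
    rw [Set.ncard_pair ha'b'] at this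
    omega
  have cla : ∀ c, u c = u a ↔ c = a ∨ c = a' := by
    intro c
    constructor
    · intro h
      by_cases h1 : c = a'
      · exact Or.inr h1
      · by_cases h2 : c = b'
        · exfalso
          apply huab'
          rw [← h, h2, hub]
        · exact Or.inl (hinj (by simp [h1, h2]) (by simp [haa, hab']) h)
    · rintro (rfl | rfl)
      · rfl
      · exact hua.symm
  have clb : ∀ c, u c = u b ↔ c = b ∨ c = b' := by
    intro c
    constructor
    · intro h
      by_cases h1 : c = a'
      · exfalso
        apply huab'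
        rw [← h, h1, hua]
      · by_cases h2 : c = b'
        · exact Or.inr h2
        · exact Or.inl (hinj (by simp [h1, h2]) (by simp [Ne.symm ha'b, hbb]) h)
    · rintro (rfl | rfl)
      · rfl
      · exact hub.symm
  have cca : {c | u c = u a}.ncard = 2 := by
    have : {c | u c = u a} = {a, a'} := by
      ext c; simp [cla c]
    rw [this, Set.ncard_pair haa]
  have ccb : {c | u c = u b}.ncard = 2 := by
    have : {c | u c = u b} = {b, b'} := by
      ext c; simp [clb c]
    rw [this, Set.ncard_pair hbb]
  -- the blocks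
  let A : Z₀ ⊕ Z₀ → Finset ι := fun z => match z with
    | Sum.inl z => univ.filter (fun i => δ z i = u a)
    | Sum.inr z => univ.filter (fun i => δ z i = u b)
  have hA2 : ∀ z, (A z).card = 2 := by
    rintro (z | z)
    · show (univ.filter (fun i => δ z i = u a)).card = 2
      rw [← nc, hc.1 z, cca]
    · show (univ.filter (fun i => δ z i = u b)).card = 2
      rw [← nc, hc.1 z, ccb]
  obtain ⟨R, hR1, hR2, hR3⟩ := choice hp A (fun z => by rw [hA2])
  have hRl : ∀ z y i, i ∈ R (Sum.inl z) y → δ z i = u a := fun z y i hi =>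
    (mem_filter.1 (hR1 (Sum.inl z) y hi)).2
  have hRr : ∀ z y i, i ∈ R (Sum.inr z) y → δ z i = u b := fun z y i hi =>
    (mem_filter.1 (hR1 (Sum.inr z) y hi)).2
  have hR2' : ∀ z y, (R z y).card = 1 := fun z y => by rw [hR2, hA2]
  let P : Z₀ → ZMod p → ι → Prop := fun z y i => i ∈ R (Sum.inl z) y ∨ i ∈ R (Sum.inr z) y
  have hcore := hc.step (fun c => if c = a ∨ c = b then 1 else 0)
    (fun z y i => if P z y i then 1 else 0) (by
      intro z y w ε
      rw [cnt2, cnt2, hc.1 z w]
      have e1 : {i | δ z i = w ∧ P z y i}.ncard = {c | u c = w ∧ (c = a ∨ c = b)}.ncard := by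
        by_cases hwa : w = u a
        · subst hwa
          have f1 : {i | δ z i = u a ∧ P z y i} = (R (Sum.inl z) y : Set ι) := by
            ext i
            simp only [Set.mem_ofPred_eq, mem_coe]
            constructor
            · rintro ⟨h1, h2 | h2⟩
              · exact h2
              · exact absurd ((h1.symm.trans (hRr z y i h2))) huab'
            · intro h
              exact ⟨hRl z y i h, Or.inl h⟩
          have f2 : {c | u c = u a ∧ (c = a ∨ c = b)} = {a} := by
            ext c
            simp only [Set.mem_ofPred_eq, Set.mem_singleton_iff]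
            constructor
            · rintro ⟨h1, h2 | h2⟩
              · exact h2
              · exfalso
                rw [h2] at h1
                exact huab' h1.symm
            · rintro rfl
              exact ⟨rfl, Or.inl rfl⟩
          rw [f1, f2, Set.ncard_singleton, Set.ncard_coe_finset, hR2']
        · by_cases hwb : w = u b
          · subst hwb
            have f1 : {i | δ z i = u b ∧ P z y i} = (R (Sum.inr z) y : Set ι) := by
              ext i
              simp only [Set.mem_ofPred_eq, mem_coe]
              constructor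
              · rintro ⟨h1, h2 | h2⟩
                · exact absurd ((h1.symm.trans (hRl z y i h2))) (Ne.symm huab')
                · exact h2
              · intro h
                exact ⟨hRr z y i h, Or.inr h⟩
            have f2 : {c | u c = u b ∧ (c = a ∨ c = b)} = {b} := by
              ext c
              simp only [Set.mem_ofPred_eq, Set.mem_singleton_iff]
              constructor
              · rintro ⟨h1, h2 | h2⟩
                · exfalso
                  rw [h2] at h1
                  exact huab' h1
                · exact h2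
              · rintro rfl
                exact ⟨rfl, Or.inr rfl⟩
            rw [f1, f2, Set.ncard_singleton, Set.ncard_coe_finset, hR2']
          · have f1 : {i | δ z i = w ∧ P z y i} = ∅ := by
              rw [Set.eq_empty_iff_forall_notMem]
              rintro i ⟨h1, h2 | h2⟩
              · exact hwa (h1.symm.trans (hRl z y i h2))
              · exact hwb (h1.symm.trans (hRr z y i h2))
            have f2 : {c | u c = w ∧ (c = a ∨ c = b)} = ∅ := by
              rw [Set.eq_empty_iff_forall_notMem]
              rintro i ⟨h1, rfl | rfl⟩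
              · exact hwa h1.symm
              · exact hwb h1.symm
            rw [f1, f2]
      rw [e1]) (by
      intro i
      have h1 := hR3 i (by
        obtain ⟨z, hz⟩ := hpr i a
        exact ⟨Sum.inl z, mem_filter.2 ⟨mem_univ _, hz⟩⟩)
      rw [Fintype.sum_sum_type, ← sum_add_distrib] at h1
      convert h1 using 2 with z _
      rw [sum_ite, sum_const_zero, add_zero, sum_const, nsmul_eq_mul, mul_one, ← Nat.cast_add]
      congr 1
      rw [← card_union_of_disjoint]
      · congr 1
        ext y
        simp [P]
      · rw [Finset.disjoint_left]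
        intro y h2 h3
        exact huab' ((hRl z y i (mem_filter.1 h2).2).symm.trans (hRr z y i (mem_filter.1 h3).2)))
  have na' : ¬ (a' = a ∨ a' = b) := fun h => h.elim (Ne.symm haa) ha'b
  have nb' : ¬ (b' = a ∨ b' = b) := fun h => h.elim (Ne.symm hab') (Ne.symm hbb)
  have va : (if a = a ∨ a = b then (1 : ZMod p) else 0) = 1 := if_pos (Or.inl rfl)
  have vb : (if b = a ∨ b = b then (1 : ZMod p) else 0) = 1 := if_pos (Or.inr rfl)
  have va' : (if a' = a ∨ a' = b then (1 : ZMod p) else 0) = 0 := if_neg na'
  have vb' : (if b' = a ∨ b' = b then (1 : ZMod p) else 0) = 0 := if_neg nb'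
  refine ⟨Z₀ × ZMod p, inferInstance, inferInstance, inferInstance, _, _, ?_, ?_, hcore, ?_⟩
  · rw [Nat.card_prod, hcard, Nat.card_zmod, ← pow_succ]
    congr 1
    omega
  · intro c d hcd
    obtain ⟨g1, g2⟩ := Prod.mk.inj hcd
    by_cases h1 : u c = u a
    · have h2 : u d = u a := g1.symm.trans h1
      rcases (cla c).1 h1 with hc' | hc' <;> rcases (cla d).1 h2 with hd' | hd'
      · rw [hc', hd']
      · rw [hc', hd', va, va'] at g2
        exact absurd g2 h10
      · rw [hc', hd', va, va'] at g2
        exact absurd g2.symm h10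
      · rw [hc', hd']
    · by_cases h1' : u c = u b
      · have h2 : u d = u b := g1.symm.trans h1'
        rcases (clb c).1 h1' with hc' | hc' <;> rcases (clb d).1 h2 with hd' | hd'
        · rw [hc', hd']
        · rw [hc', hd', vb, vb'] at g2
          exact absurd g2 h10
        · rw [hc', hd', vb, vb'] at g2
          exact absurd g2.symm h10
        · rw [hc', hd']
      · have hca : c ≠ a' := fun h => h1 (by rw [h, hua])
        have hcb : c ≠ b' := fun h => h1' (by rw [h, hub])
        have hda : d ≠ a' := fun h => h1 (by rw [g1, h, hua])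
        have hdb : d ≠ b' := fun h => h1' (by rw [g1, h, hub])
        exact hinj (by simp [hca, hcb]) (by simp [hda, hdb]) g1
  · rw [va, va', vb, vb', hua, hub]
    simp only [Prod.mk_sub_mk, sub_self]

end Run7.h686
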