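import Mathlib

set_option autoImplicit false

/-!
Numerical conditions.
-/

namespace Run7.h686

/-- The size condition for finding dependent sets. -/
def MC (p r M : ℕ) : Prop :=
  (r = 2 ∧ p ≤ M) ∨
    (3 ≤ r ∧ p ^ (r - 1) < 2 * M + 1 ∧ (p ^ 2 - p) * (p ^ r - 1) < 2 * M * (2 * M - (p - 1)))

theorem MC.mono {p r M M' : ℕ} (h : MC p r M) (hM : M ≤ M') : MC p r M' := by
  rcases h with ⟨h1, h2⟩ | ⟨h1, h2, h3⟩
  · exact Or.inl ⟨h1, h2.trans hM⟩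
  · refine Or.inr ⟨h1, by omega, lt_of_lt_of_le h3 ?_⟩
    exact Nat.mul_le_mul (by omega) (by omega)

theorem pow_mono_div {p : ℕ} (hp : 3 ≤ p) (r k : ℕ) (hk : 1 ≤ k) (hkr : k ≤ r) :
    p ^ k * r ≤ k * p ^ r := by
  induction r, hkr using Nat.le_induction with
  | base => rw [mul_comm]
  | succ r hr ih =>
    have h1 : p ^ k * (r + 1) ≤ 2 * (p ^ k * r) := by
      have : 1 ≤ r := hk.trans hr
      nlinarith [Nat.pos_of_ne_zero (pow_ne_zero k (by omega : p ≠ 0))]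
    have h2 : 2 * (k * p ^ r) ≤ k * p ^ (r + 1) := by
      rw [pow_succ]
      nlinarith [Nat.zero_le (k * p ^ r)]
    omega

/-- A lower bound for powers. -/
theorem pow_big {p r : ℕ} (hp : 3 ≤ p) (h : (5 ≤ p ∧ 3 ≤ r) ∨ 5 ≤ r) :
    6 * ((r - 1) ^ 2 * (p - 1)) ≤ p ^ r := by
  have step : ∀ s, 3 ≤ s → 6 * ((s - 1) ^ 2 * (p - 1)) ≤ p ^ s →
      6 * ((s + 1 - 1) ^ 2 * (p - 1)) ≤ p ^ (s + 1) := by
    intro s hs h
    obtain ⟨t, rfl⟩ : ∃ t, s = t + 3 := ⟨s - 3, by omega⟩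
    have e1 : t + 3 - 1 = t + 2 := by omega
    have e2 : t + 3 + 1 - 1 = t + 3 := by omega
    rw [e1] at h
    rw [e2, pow_succ]
    have h3 : (t + 3) ^ 2 ≤ 3 * (t + 2) ^ 2 := by nlinarith
    calc 6 * ((t + 3) ^ 2 * (p - 1)) ≤ 6 * ((3 * (t + 2) ^ 2) * (p - 1)) := by gcongr
      _ = 3 * (6 * ((t + 2) ^ 2 * (p - 1))) := by ring
      _ ≤ 3 * p ^ (t + 3) := by gcongr
      _ ≤ p ^ (t + 3) * p := by nlinarith [Nat.zero_le (p ^ (t + 3))]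
  rcases h with ⟨h5, h3⟩ | h5
  · induction r, h3 using Nat.le_induction with
    | base =>
      obtain ⟨q, rfl⟩ : ∃ q, p = q + 5 := ⟨p - 5, by omega⟩
      have : q + 5 - 1 = q + 4 := by omega
      rw [this]
      norm_num
      nlinarith [Nat.zero_le q, Nat.zero_le (q ^ 2), Nat.zero_le (q ^ 3)]
    | succ s hs ih => exact step s hs ih
  · induction r, h5 using Nat.le_induction with
    | base =>
      obtain ⟨q, rfl⟩ : ∃ q, p = q + 3 := ⟨p - 3, by omega⟩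
      have : q + 3 - 1 = q + 2 := by omega
      rw [this]
      norm_num
      nlinarith [Nat.zero_le q, Nat.zero_le (q ^ 2), Nat.zero_le (q ^ 3), Nat.zero_le (q ^ 4),
        Nat.zero_le (q ^ 5)]
    | succ s hs ih => exact step s (by omega) ih

/-- The alternatives. -/
def Alt (p r l N N₀ : ℕ) : Prop :=
  (∃ b', b' ≤ l ∧ l * r ≤ N + b' ∧ 2 * (l - b') * r + 2 * b' * (r - 1) * p ≤ p ^ r) ∨
  (l * r + 2 ≤ N) ∨
  (∃ L e, 1 ≤ L ∧ 1 ≤ e ∧ N₀ = L * r + e * (r + 1) ∧ N ≤ N₀ + L ∧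
    (∀ k, 1 ≤ k → k < r → p ^ k ≤ 2 * L * k + 1) ∧ MC p r (N₀ - (e - 1) * (r + 1))) ∨
  (p = 3 ∧ N = N₀ ∧ ((r = 2 ∧ N₀ = 3) ∨ (r = 3 ∧ N₀ = 7) ∨ (r = 3 ∧ N₀ = 11)))

theorem num1 (R q : ℕ) (h1 : 2 ≤ R) (h2 : 2 ≤ q) (h : 4 ≤ q ∨ 4 ≤ R) :
    (R + 1) * (R + 3) ≤ 2 * (R ^ 2 * q) := by
  rcases h with h4 | h4
  · have h6 := Nat.mul_le_mul_left (R ^ 2) h4
    refine le_trans ?_ (Nat.mul_le_mul_left 2 h6)
    nlinarith
  · have h6 := Nat.mul_le_mul_left (R ^ 2) h2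
    refine le_trans ?_ (Nat.mul_le_mul_left 2 h6)
    nlinarith

theorem numk1 {D N₀ b m R q : ℕ} (hN₀ : N₀ + b = (b + m) * (R + 1))
    (hA : D < 2 * m * (R + 1) + 2 * b * R * (q + 1)) : D < 2 * N₀ + 2 * (b * R * q) := by
  have h1 : N₀ = b * R + m * R + m := by
    have : (b + m) * (R + 1) = b * R + m * R + m + b := by ring
    omega
  have h2 : 2 * m * (R + 1) + 2 * b * R * (q + 1) = 2 * (b * R + m * R + m) + 2 * (b * R * q) := by
    ring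
  omega

theorem numm {D N₀ b m e R q : ℕ} (hR : R = b + e) (hN₀ : N₀ + b = (b + m) * (R + 1))
    (hR2 : 2 * ((R + 1) * (R + 3)) + 2 * (R ^ 2 * q) ≤ D)
    (k1 : D < 2 * N₀ + 2 * (b * R * q)) (k2 : b * R * q + e * (R + 2) ≤ R ^ 2 * q) :
    e + 3 ≤ m := by
  by_contra hcon
  push Not at hcon
  have g1 : (b + m) * (R + 1) ≤ (R + 2) * (R + 1) := Nat.mul_le_mul_right _ (by omega)
  have g2 : (R + 2) * (R + 1) + (R + 1) = (R + 1) * (R + 3) := by ring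
  omega

theorem numk3 {D N₀ b e R q L : ℕ} (hN₀' : N₀ = L * (R + 1) + (e + 1) * (R + 1 + 1))
    (hDX : 6 * (R ^ 2 * q) ≤ D) (hD12 : 12 * (R + 2) ≤ D)
    (k1 : D < 2 * N₀ + 2 * (b * R * q)) (k2 : b * R * q + e * (R + 2) ≤ R ^ 2 * q) :
    D ≤ 4 * (L * (R + 1)) := by
  have g1 : (e + 1) * (R + 1 + 1) = e * (R + 2) + (R + 2) := by ring
  omega

theorem numii {q R D L k : ℕ} (hp : 3 ≤ q + 1) (hRe : 2 ≤ R) (hDp : D = (q + 1) * (q + 1) ^ R)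
    (k3 : D ≤ 4 * (L * (R + 1))) (hk1 : 1 ≤ k) (hkR : k ≤ R) :
    (q + 1) ^ k ≤ 2 * L * k + 1 := by
  have g1 := pow_mono_div hp R k hk1 hkR
  have g2 : (q + 1) ^ R ≤ 2 * (L * R) := by
    have g3 : (q + 1) * (q + 1) ^ R ≤ (q + 1) * (2 * (L * R)) := by
      rw [← hDp]
      refine k3.trans ?_
      have h1 : 2 * (R + 1) ≤ (q + 1) * R :=
        le_trans (by omega : 2 * (R + 1) ≤ 3 * R) (Nat.mul_le_mul_right R hp)
      have h2 := Nat.mul_le_mul_left (2 * L) h1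
      calc 4 * (L * (R + 1)) = 2 * L * (2 * (R + 1)) := by ring
        _ ≤ 2 * L * ((q + 1) * R) := h2
        _ = (q + 1) * (2 * (L * R)) := by ring
    exact Nat.le_of_mul_le_mul_left g3 (by omega)
  have g4 : (q + 1) ^ k * R ≤ (2 * L * k) * R := by
    refine g1.trans ?_
    calc k * (q + 1) ^ R ≤ k * (2 * (L * R)) := Nat.mul_le_mul_left k g2
      _ = (2 * L * k) * R := by ring
  have := Nat.le_of_mul_le_mul_right g4 (by omega)
  omega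

theorem numM {q M D : ℕ} (hq : 2 ≤ q) (hD3 : (q + 1) ^ 3 ≤ D) (g1 : 2 * D ≤ 6 * M) :
    q * (q + 1) * (D - 1) < 2 * M * (2 * M - q) := by
  have h1 : (q + 1) ^ 3 ≤ 3 * M := by omega
  have h2 : 3 * (q + 1) ^ 2 ≤ (q + 1) ^ 3 := by
    rw [pow_succ (q + 1) 2, mul_comm]
    exact Nat.mul_le_mul_left _ (by omega)
  have h3 : 9 * (q * (q + 1)) + 6 * q ≤ 4 * (q + 1) ^ 3 := by nlinarith
  obtain ⟨c, hc⟩ : ∃ c, 2 * M = c + q := ⟨2 * M - q, by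
    have : q ≤ (q + 1) ^ 2 := by nlinarith
    omega⟩
  have a6 : 2 * M - q = c := by omega
  rw [a6]
  have g4 : 3 * (q * (q + 1)) ≤ 2 * c := by omega
  have hDpos : 1 ≤ D := by
    have : 0 < (q + 1) ^ 3 := by positivity
    omega
  have g5 : q * (q + 1) * (D - 1) < q * (q + 1) * (3 * M) := by
    apply Nat.mul_lt_mul_of_pos_left
    · omega
    · positivity
  refine lt_of_lt_of_le g5 ?_
  calc q * (q + 1) * (3 * M) = 3 * (q * (q + 1)) * M := by ring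
    _ ≤ 2 * c * M := Nat.mul_le_mul_right M g4
    _ = 2 * M * c := by ring

/-- The general case. -/
theorem alt_big {p r l b N N₀ : ℕ} (hp : 3 ≤ p) (h : (5 ≤ p ∧ 3 ≤ r) ∨ 5 ≤ r)
    (hb1 : 1 ≤ b) (hbr : b + 1 ≤ r) (hbl : b ≤ l) (hN₀ : N₀ + b = l * r)
    (hN : N₀ ≤ N) : Alt p r l N N₀ := by
  have hr3 : 3 ≤ r := by omega
  have hbig := pow_big hp h
  by_cases hA : 2 * (l - b) * r + 2 * b * (r - 1) * p ≤ p ^ r
  · exact Or.inl ⟨b, hbl, by omega, hA⟩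
  by_cases hB : l * r + 2 ≤ N
  · exact Or.inr (Or.inl hB)
  push Not at hA hB
  right; right; left
  obtain ⟨R, rfl⟩ : ∃ R, r = R + 1 := ⟨r - 1, by omega⟩
  obtain ⟨q, rfl⟩ : ∃ q, p = q + 1 := ⟨p - 1, by omega⟩
  obtain ⟨e, rfl⟩ : ∃ e, R = b + e := ⟨R - b, by omega⟩
  obtain ⟨m, rfl⟩ : ∃ m, l = b + m := ⟨l - b, by omega⟩
  have a1 : b + e + 1 - 1 = b + e := by omega
  have a2 : q + 1 - 1 = q := by omega
  have a3 : b + m - b = m := by omega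
  rw [a1, a2] at hbig
  rw [a1, a3] at hA
  set D := (q + 1) ^ (b + e + 1) with hD
  have hq : 2 ≤ q := by omega
  have hRe : 2 ≤ b + e := by omega
  set R := b + e with hR
  have hRq : R + 2 ≤ R * q := by nlinarith
  -- `D` is large
  have hDX : 6 * (R ^ 2 * q) ≤ D := hbig
  have hD12 : 12 * (R + 2) ≤ D := by
    refine le_trans ?_ hDX
    nlinarith
  have hD3 : (q + 1) ^ 3 ≤ D := by
    rw [hD]
    exact Nat.pow_le_pow_right (by omega) (by omega)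
  have hDp : D = (q + 1) * (q + 1) ^ R := by rw [hD, pow_succ, mul_comm]
  have hR2 : 2 * ((R + 1) * (R + 3)) + 2 * (R ^ 2 * q) ≤ D := by
    refine le_trans ?_ hDX
    have key : (R + 1) * (R + 3) ≤ 2 * (R ^ 2 * q) := by
      exact num1 R q hRe hq (by omega)
    omega
  have k1 : D < 2 * N₀ + 2 * (b * R * q) := numk1 hN₀ hA
  have k2 : b * R * q + e * (R + 2) ≤ R ^ 2 * q := by
    have : R ^ 2 * q = b * R * q + e * (R * q) := by rw [hR]; ring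
    rw [this]
    exact Nat.add_le_add_left (Nat.mul_le_mul_left e hRq) _
  -- `m` is large
  have hm : e + 3 ≤ m := numm hR hN₀ hR2 k1 k2
  obtain ⟨s, rfl⟩ : ∃ s, m = e + 3 + s := ⟨m - (e + 3), by omega⟩
  have hN₀' : N₀ = (s + 1 + b) * (R + 1) + (e + 1) * (R + 1 + 1) := by
    have g1 : N₀ + b = ((s + 1 + b) * (R + 1) + (e + 1) * (R + 1 + 1)) + b := by
      rw [hN₀, hR]; ring
    omega
  set L := s + 1 + b with hL
  have k3 : D ≤ 4 * (L * (R + 1)) := numk3 hN₀' hDX hD12 k1 k2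
  refine ⟨L, e + 1, by omega, by omega, hN₀', by omega, ?_, Or.inr ⟨by omega, ?_⟩⟩
  · intro k hk1 hkr
    exact numii hp hRe hDp k3 hk1 (by omega)
  · rw [a1, a2]
    have a4 : e + 1 - 1 = e := by omega
    rw [a4]
    obtain ⟨M, hM⟩ : ∃ M, N₀ = M + e * (R + 1 + 1) := ⟨N₀ - e * (R + 1 + 1), by
      rw [hN₀']
      have : (e + 1) * (R + 1 + 1) = e * (R + 1 + 1) + (R + 1 + 1) := by ring
      omega⟩
    have a5 : N₀ - e * (R + 1 + 1) = M := by omega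
    rw [a5]
    have g1 : 2 * D ≤ 6 * M := by
      have e1 : e * (R + 1 + 1) = e * (R + 2) := by ring
      rw [e1] at hM
      omega
    constructor
    · have g2 : (q + 1) * (q + 1) ^ R ≤ (q + 1) * M := by
        rw [← hDp]
        have g4 := Nat.mul_le_mul_right M hp
        omega
      have := Nat.le_of_mul_le_mul_left g2 (by omega)
      omega
    · have g3 : (q + 1) ^ 2 - (q + 1) = q * (q + 1) := by
        have : (q + 1) ^ 2 = q * (q + 1) + (q + 1) := by ring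
        omega
      rw [g3, ← hD]
      exact numM hq hD3 g1

theorem alt_two {p l b N N₀ : ℕ} (hp : 5 ≤ p) (hb1 : b = 1) (hbl : b ≤ l)
    (hN₀ : N₀ + b = l * 2) (hN : N₀ ≤ N) : Alt p 2 l N N₀ := by
  subst hb1
  by_cases hA : 2 * (l - 1) * 2 + 2 * 1 * (2 - 1) * p ≤ p ^ 2
  · exact Or.inl ⟨1, hbl, by omega, hA⟩
  by_cases hB : l * 2 + 2 ≤ N
  · exact Or.inr (Or.inl hB)
  push Not at hA hB
  right; right; left
  obtain ⟨q, rfl⟩ : ∃ q, p = q + 5 := ⟨p - 5, by omega⟩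
  obtain ⟨m, rfl⟩ : ∃ m, l = m + 1 := ⟨l - 1, by omega⟩
  have e1 : m + 1 - 1 = m := by omega
  rw [e1] at hA
  have hm : q + 4 ≤ m := by nlinarith
  refine ⟨m - 1, 1, by omega, by omega, by omega, by omega, ?_, Or.inl ⟨rfl, by omega⟩⟩
  intro k hk1 hk2
  have : k = 1 := by omega
  subst this
  rw [pow_one]
  omega

theorem alt_three {r l b N N₀ : ℕ} (hr2 : 2 ≤ r) (hr4 : r ≤ 4) (hb1 : 1 ≤ b) (hbr : b + 1 ≤ r)
    (hbl : b ≤ l) (hN₀ : N₀ + b = l * r) (hs : 2 * N₀ + 1 ≤ 3 ^ r) (hN : N₀ ≤ N) :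
    Alt 3 r l N N₀ := by
  by_cases hB : l * r + 2 ≤ N
  · exact Or.inr (Or.inl hB)
  push Not at hB
  have s0 : ∀ {r l N N₀ : ℕ}, l * r ≤ N + 0 → 2 * (l - 0) * r + 2 * 0 * (r - 1) * 3 ≤ 3 ^ r →
      Alt 3 r l N N₀ := fun h1 h2 => Or.inl ⟨0, Nat.zero_le _, h1, h2⟩
  have s1 : ∀ {r l N N₀ : ℕ} (b' : ℕ), b' ≤ l → l * r ≤ N + b' →
      2 * (l - b') * r + 2 * b' * (r - 1) * 3 ≤ 3 ^ r →
      Alt 3 r l N N₀ := fun b' h0 h1 h2 => Or.inl ⟨b', h0, h1, h2⟩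
  have s2 : ∀ {r l N N₀ : ℕ} (L e : ℕ), 1 ≤ L → 1 ≤ e → N₀ = L * r + e * (r + 1) → N ≤ N₀ + L →
      (∀ k, 1 ≤ k → k < r → 3 ^ k ≤ 2 * L * k + 1) → 3 ≤ r →
      3 ^ (r - 1) < 2 * (N₀ - (e - 1) * (r + 1)) + 1 →
      (3 ^ 2 - 3) * (3 ^ r - 1) < 2 * (N₀ - (e - 1) * (r + 1)) *
        (2 * (N₀ - (e - 1) * (r + 1)) - (3 - 1)) → Alt 3 r l N N₀ :=
    fun L e h1 h2 h3 h4 h5 h6 h7 h8 => Or.inr (Or.inr (Or.inl ⟨L, e, h1, h2, h3, h4, h5,
      Or.inr ⟨h6, h7, h8⟩⟩))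
  have hb3 : b ≤ 3 := by omega
  interval_cases r
  · -- `r = 2`
    obtain rfl : b = 1 := by omega
    have hl2 : l ≤ 2 := by norm_num at hs; omega
    have hl1 : 1 ≤ l := hbl
    interval_cases l
    · obtain rfl : N₀ = 1 := by omega
      have hNN : N = 1 ∨ N = 2 ∨ N = 3 := by omega
      rcases hNN with rfl | rfl | rfl
      · exact s1 1 (by norm_num) (by norm_num) (by norm_num)
      · exact s0 (by norm_num) (by norm_num)
      · exact s0 (by norm_num) (by norm_num)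
    · obtain rfl : N₀ = 3 := by omega
      have hNN : N = 3 ∨ N = 4 ∨ N = 5 := by omega
      rcases hNN with rfl | rfl | rfl
      · exact Or.inr (Or.inr (Or.inr ⟨rfl, rfl, Or.inl ⟨rfl, rfl⟩⟩))
      · exact s0 (by norm_num) (by norm_num)
      · exact s0 (by norm_num) (by norm_num)
  · -- `r = 3`
    have hl5 : l ≤ 5 := by norm_num at hs; omega
    have hl1 : 1 ≤ l := by omega
    have hb2 : b ≤ 2 := by omega
    have hNN : N₀ = l * 3 - b := by omega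
    have hs' : 2 * N₀ + 1 ≤ 27 := by norm_num at hs; omega
    clear hs hb3
    obtain ⟨x, hx⟩ : ∃ x, N = N₀ + x := ⟨N - N₀, by omega⟩
    have hx3 : x ≤ 3 := by omega
    subst hx
    subst hNN
    interval_cases l <;> interval_cases b <;> interval_cases x <;>
      first
        | (exfalso; omega)
        | (refine s0 ?_ ?_ <;> decide)
        | (refine s1 1 ?_ ?_ ?_ <;> decide)
        | (refine s1 2 ?_ ?_ ?_ <;> decide)
        | (refine s2 2 1 ?_ ?_ ?_ ?_ ?_ ?_ ?_ ?_ <;> decide)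
        | (refine s2 3 1 ?_ ?_ ?_ ?_ ?_ ?_ ?_ ?_ <;> decide)
        | exact Or.inr (Or.inr (Or.inr ⟨rfl, rfl, Or.inr (Or.inl ⟨rfl, rfl⟩)⟩))
        | exact Or.inr (Or.inr (Or.inr ⟨rfl, rfl, Or.inr (Or.inr ⟨rfl, rfl⟩)⟩))
  · -- `r = 4`
    have hl5 : l ≤ 10 := by norm_num at hs; omega
    have hl1 : 1 ≤ l := by omega
    have hNN : N₀ = l * 4 - b := by omega
    have hs' : 2 * N₀ + 1 ≤ 81 := by norm_num at hs; omega
    clear hs
    obtain ⟨x, hx⟩ : ∃ x, N = N₀ + x := ⟨N - N₀, by omega⟩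
    have hx3 : x ≤ 4 := by omega
    subst hx
    subst hNN
    interval_cases l <;> interval_cases b <;> interval_cases x <;>
      first
        | (exfalso; omega)
        | (refine s0 ?_ ?_ <;> decide)
        | (refine s1 1 ?_ ?_ ?_ <;> decide)
        | (refine s1 2 ?_ ?_ ?_ <;> decide)
        | (refine s1 3 ?_ ?_ ?_ <;> decide)
        | (refine s2 5 1 ?_ ?_ ?_ ?_ ?_ ?_ ?_ ?_ <;> decide)
        | (refine s2 6 1 ?_ ?_ ?_ ?_ ?_ ?_ ?_ ?_ <;> decide)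
        | (refine s2 7 1 ?_ ?_ ?_ ?_ ?_ ?_ ?_ ?_ <;> decide)
        | (refine s2 8 1 ?_ ?_ ?_ ?_ ?_ ?_ ?_ ?_ <;> decide)
        | (refine s2 5 2 ?_ ?_ ?_ ?_ ?_ ?_ ?_ ?_ <;> decide)
        | (refine s2 6 2 ?_ ?_ ?_ ?_ ?_ ?_ ?_ ?_ <;> decide)
        | (refine s2 7 2 ?_ ?_ ?_ ?_ ?_ ?_ ?_ ?_ <;> decide)
        | (refine s2 5 3 ?_ ?_ ?_ ?_ ?_ ?_ ?_ ?_ <;> decide)
        | (refine s2 6 3 ?_ ?_ ?_ ?_ ?_ ?_ ?_ ?_ <;> decide)

theorem alt_all {p r l b N N₀ : ℕ} (hp : p = 3 ∨ 5 ≤ p) (hr : 2 ≤ r) (hb1 : 1 ≤ b)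
    (hbr : b + 1 ≤ r) (hbl : b ≤ l) (hN₀ : N₀ + b = l * r) (hs : 2 * N₀ + 1 ≤ p ^ r)
    (hN : N₀ ≤ N) : Alt p r l N N₀ := by
  rcases hp with rfl | hp
  · rcases Nat.lt_or_ge r 5 with h | h
    · exact alt_three hr (by omega) hb1 hbr hbl hN₀ hs hN
    · exact alt_big le_rfl (Or.inr h) hb1 hbr hbl hN₀ hN
  · rcases Nat.lt_or_ge r 3 with h | h
    · obtain rfl : r = 2 := by omega
      exact alt_two hp (by omega) hbl hN₀ hN
    · exact alt_big (by omega) (Or.inl ⟨hp, h⟩) hb1 hbr hbl hN₀ hN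

end Run7.h686
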