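import Pool.Agent.Run7.h686.Five
import Pool.Agent.Run7.h686.Num

set_option autoImplicit false

/-!
Every set of vectors has load at most one.
-/

namespace Run7.h686

open Finset Module Pool.Agent.TH486.LAC

variable {p : ℕ} [Fact p.Prime] {V : Type} [AddCommGroup V] [Module (ZMod p) V] [Finite V]

open Classical in
/-- The number of elements of `T` in `U`. -/
noncomputable def cnt (T : Finset V) (U : Submodule (ZMod p) V) : ℕ :=
  (T.filter (fun v => v ∈ U)).card

theorem exists_dense (T : Finset V) (hT : T.Nonempty) (h0 : (0 : V) ∉ T) :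
    ∃ U₀ : Submodule (ZMod p) V, 1 ≤ finrank (ZMod p) U₀ ∧ finrank (ZMod p) U₀ ≤ cnt T U₀ ∧
      ∀ U : Submodule (ZMod p) V, cnt T U * finrank (ZMod p) U₀ ≤ cnt T U₀ * finrank (ZMod p) U := by
  classical
  obtain ⟨t, ht⟩ := hT
  have ht0 : t ≠ 0 := fun h => h0 (h ▸ ht)
  have hft : finrank (ZMod p) (Submodule.span (ZMod p) {t}) = 1 := finrank_span_singleton ht0
  have : Finite (Submodule (ZMod p) V) :=
    Finite.of_injective (fun U => (U : Set V)) SetLike.coe_injective
  have : Nonempty {U : Submodule (ZMod p) V // 1 ≤ finrank (ZMod p) U} :=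
    ⟨⟨Submodule.span (ZMod p) {t}, hft.ge⟩⟩
  obtain ⟨⟨U₀, hU₀⟩, hmax⟩ := Finite.exists_max
    (fun U : {U : Submodule (ZMod p) V // 1 ≤ finrank (ZMod p) U} =>
      (cnt T U.1 : ℚ) / finrank (ZMod p) U.1)
  have key : ∀ U : Submodule (ZMod p) V,
      cnt T U * finrank (ZMod p) U₀ ≤ cnt T U₀ * finrank (ZMod p) U := by
    intro U
    rcases Nat.eq_zero_or_pos (finrank (ZMod p) U) with h | h
    · have hU : U = ⊥ := Submodule.finrank_eq_zero.1 h
      have : cnt T U = 0 := by
        unfold cnt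
        rw [card_eq_zero, filter_eq_empty_iff]
        intro v hv hvU
        rw [hU, Submodule.mem_bot] at hvU
        exact h0 (hvU ▸ hv)
      rw [this]; simp
    · have h1 := hmax ⟨U, h⟩
      simp only at h1
      have h2 : (0 : ℚ) < finrank (ZMod p) U := by exact_mod_cast h
      have h3 : (0 : ℚ) < finrank (ZMod p) U₀ := by exact_mod_cast hU₀
      rw [div_le_div_iff₀ h2 h3] at h1
      exact_mod_cast h1
  refine ⟨U₀, hU₀, ?_, key⟩
  have h1 := key (Submodule.span (ZMod p) {t})
  rw [hft, mul_one] at h1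
  have h2 : 1 ≤ cnt T (Submodule.span (ZMod p) {t}) := by
    unfold cnt
    exact card_pos.2 ⟨t, mem_filter.2 ⟨ht, Submodule.mem_span_singleton_self t⟩⟩
  nlinarith

theorem horn_of_dense {T : Finset V} {U₀ : Submodule (ZMod p) V}
    (hr : 1 ≤ finrank (ZMod p) U₀)
    (hd : ∀ U : Submodule (ZMod p) V,
      cnt T U * finrank (ZMod p) U₀ ≤ cnt T U₀ * finrank (ZMod p) U)
    {l : ℕ} (hl : cnt T U₀ ≤ l * finrank (ZMod p) U₀) :
    ∀ A ⊆ T, A.card ≤ l * finrank (ZMod p) ↥(Submodule.span (ZMod p) (A : Set V)) := by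
  classical
  intro A hA
  have h1 : A.card ≤ cnt T (Submodule.span (ZMod p) (A : Set V)) := by
    unfold cnt
    refine card_le_card fun v hv => mem_filter.2 ⟨hA hv, Submodule.subset_span (mem_coe.2 hv)⟩
  have h2 := hd (Submodule.span (ZMod p) (A : Set V))
  have h3 : A.card * finrank (ZMod p) U₀ ≤
      (l * finrank (ZMod p) ↥(Submodule.span (ZMod p) (A : Set V))) * finrank (ZMod p) U₀ := by
    calc A.card * finrank (ZMod p) U₀ ≤
        cnt T (Submodule.span (ZMod p) (A : Set V)) * finrank (ZMod p) U₀ :=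
          Nat.mul_le_mul_right _ h1
      _ ≤ _ := h2
      _ ≤ (l * finrank (ZMod p) U₀) * finrank (ZMod p) ↥(Submodule.span (ZMod p) (A : Set V)) :=
          Nat.mul_le_mul_right _ hl
      _ = _ := by ring
  exact Nat.le_of_mul_le_mul_right h3 (by omega)

theorem good_any (hp : 3 ≤ p) (U : Submodule (ZMod p) V) {M : ℕ}
    (hM : MC p (finrank (ZMod p) U) M)
    (T : Finset V) (hT : ∀ t ∈ T, -t ∉ T) (hTU : ∀ t ∈ T, t ∈ U) (hcard : M ≤ T.card) :
    ∃ X ⊆ T, X.card = finrank (ZMod p) U + 1 ∧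
      PLD X (((finrank (ZMod p) U : ℝ) + 1) * (2 / (p : ℝ) ^ finrank (ZMod p) U)) := by
  rcases hM.mono hcard with ⟨h1, h2⟩ | ⟨h1, h2, h3⟩
  · obtain ⟨X, k1, k2, k3⟩ := good2 hp U h1 T hT hTU h2
    refine ⟨X, k1, by rw [k2, h1], ?_⟩
    rw [h1]
    refine k3.mono (le_of_eq ?_)
    norm_num
  · exact good3 hp U h1 rfl T hT hTU h2 h3

theorem good_iter (hp : 3 ≤ p) (U : Submodule (ZMod p) V) {M : ℕ}
    (hM : MC p (finrank (ZMod p) U) M)
    (T : Finset V) (hT : ∀ t ∈ T, -t ∉ T) (hTU : ∀ t ∈ T, t ∈ U) (e : ℕ) :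
    (e = 0 ∨ M + (e - 1) * (finrank (ZMod p) U + 1) ≤ T.card) →
    ∃ Y ⊆ T, Y.card = e * (finrank (ZMod p) U + 1) ∧
      PLD Y (e * (((finrank (ZMod p) U : ℝ) + 1) * (2 / (p : ℝ) ^ finrank (ZMod p) U))) := by
  classical
  induction e with
  | zero =>
    intro _
    refine ⟨∅, empty_subset _, by simp, ?_⟩
    simpa using PLD.empty
  | succ e ih =>
    intro h
    have h' : M + e * (finrank (ZMod p) U + 1) ≤ T.card := by
      rcases h with h | h
      · omega
      · simpa using h
    obtain ⟨Y, k1, k2, k3⟩ := ih (by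
      rcases Nat.eq_zero_or_pos e with h0 | h0
      · exact Or.inl h0
      · right
        refine le_trans (Nat.add_le_add_left (Nat.mul_le_mul_right _ (by omega)) _) h')
    obtain ⟨X, g1, g2, g3⟩ := good_any hp U hM (T \ Y)
      (fun t ht h => hT t (mem_sdiff.1 ht).1 (mem_sdiff.1 h).1)
      (fun t ht => hTU t (mem_sdiff.1 ht).1) (by
        rw [card_sdiff_of_subset k1, k2]; omega)
    have hdis : Disjoint Y X := disjoint_of_subset_right g1 disjoint_sdiff
    refine ⟨Y ∪ X, union_subset k1 (g1.trans sdiff_subset), ?_, ?_⟩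
    · rw [card_union_of_disjoint hdis, k2, g2]; ring
    · refine (k3.union g3 hdis).mono (le_of_eq ?_)
      push_cast
      ring

/-- The case of nearly complete dense subspaces. -/
theorem S2 (hp : 3 ≤ p) {T : Finset V} (hT : ∀ t ∈ T, -t ∉ T) {U₀ : Submodule (ZMod p) V}
    (hr : 1 ≤ finrank (ZMod p) U₀) {L e : ℕ} (hL : 1 ≤ L) (he : 1 ≤ e)
    (hN₀ : cnt T U₀ = L * finrank (ZMod p) U₀ + e * (finrank (ZMod p) U₀ + 1))
    (hN : T.card ≤ cnt T U₀ + L)
    (hk : ∀ k, 1 ≤ k → k < finrank (ZMod p) U₀ → p ^ k ≤ 2 * L * k + 1)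
    (hM : MC p (finrank (ZMod p) U₀) (cnt T U₀ - (e - 1) * (finrank (ZMod p) U₀ + 1))) :
    PLD T 1 := by
  classical
  set r := finrank (ZMod p) U₀ with hrdef
  set T₀ := T.filter (fun v => v ∈ U₀) with hT₀
  have hT₀c : T₀.card = cnt T U₀ := by
    unfold cnt
    rw [hT₀]
  have hT₀a : ∀ t ∈ T₀, -t ∉ T₀ := fun t ht h => hT t (mem_filter.1 ht).1 (mem_filter.1 h).1
  have hT₀U : ∀ t ∈ T₀, t ∈ U₀ := fun t ht => (mem_filter.1 ht).2
  obtain ⟨Y, hY1, hY2, hY3⟩ := good_iter hp U₀ hM T₀ hT₀a hT₀U e (by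
    right
    rw [hT₀c, hN₀, ← hrdef]
    have : (e - 1) * (r + 1) ≤ e * (r + 1) := Nat.mul_le_mul_right _ (by omega)
    omega)
  rw [← hrdef] at hY2 hY3
  have hYT : Y ⊆ T := hY1.trans (filter_subset _ _)
  have hhalf := half_bound U₀ hT₀a hT₀U
  rw [← hrdef, hT₀c, hN₀] at hhalf
  -- the condition of Rado and Horn
  have hhorn : ∀ A ⊆ T \ Y, A.card ≤
      L * finrank (ZMod p) ↥(Submodule.span (ZMod p) (A : Set V)) := by
    intro A hA
    set W := Submodule.span (ZMod p) (A : Set V) with hW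
    set k := finrank (ZMod p) ↥(W ⊓ U₀) with hkdef
    have hAT : A ⊆ T := hA.trans sdiff_subset
    have hAsplit : A.card = (A.filter (fun v => v ∈ U₀)).card +
        (A.filter (fun v => v ∉ U₀)).card := by
      rw [card_filter_add_card_filter_not]
    have hA1 : (A.filter (fun v => v ∉ U₀)).card ≤ L := by
      have g1 : (A.filter (fun v => v ∉ U₀)).card ≤ (T.filter (fun v => v ∉ U₀)).card :=
        card_le_card (filter_subset_filter _ hAT)
      have g2 : T.card = T₀.card + (T.filter (fun v => v ∉ U₀)).card := by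
        rw [hT₀, card_filter_add_card_filter_not]
      omega
    have hkr : k ≤ r := Submodule.finrank_mono inf_le_right
    have hkW : k ≤ finrank (ZMod p) W := Submodule.finrank_mono inf_le_left
    have hA0 : (A.filter (fun v => v ∈ U₀)).card ≤ L * k := by
      rcases Nat.lt_or_ge k r with h | h
      · have g1 := half_bound (W ⊓ U₀) (T := A.filter (fun v => v ∈ U₀))
          (fun t ht h => hT t (hAT (mem_filter.1 ht).1) (hAT (mem_filter.1 h).1))
          (fun t ht => ⟨Submodule.subset_span (mem_coe.2 (mem_filter.1 ht).1),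
            (mem_filter.1 ht).2⟩)
        rw [← hkdef] at g1
        rcases Nat.eq_zero_or_pos k with h0 | h0
        · rw [h0] at g1 ⊢
          rw [pow_zero] at g1
          omega
        · have g2 := hk k h0 h
          have g3 : 2 * L * k = 2 * (L * k) := by ring
          omega
      · have hkr' : k = r := le_antisymm hkr h
        have g1 : A.filter (fun v => v ∈ U₀) ⊆ T₀ \ Y := by
          intro v hv
          obtain ⟨h1, h2⟩ := mem_filter.1 hv
          exact mem_sdiff.2 ⟨mem_filter.2 ⟨hAT h1, h2⟩, (mem_sdiff.1 (hA h1)).2⟩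
        have g2 := card_le_card g1
        rw [card_sdiff_of_subset hY1, hT₀c, hY2, hN₀] at g2
        rw [hkr']
        omega
    rcases (A.filter (fun v => v ∉ U₀)).eq_empty_or_nonempty with h | ⟨v, hv⟩
    · rw [hAsplit, h, card_empty, add_zero]
      exact hA0.trans (Nat.mul_le_mul_left L hkW)
    · obtain ⟨h1, h2⟩ := mem_filter.1 hv
      have hlt : k + 1 ≤ finrank (ZMod p) W := by
        apply Submodule.finrank_lt_finrank_of_lt
        refine lt_of_le_of_ne inf_le_left fun heq => h2 ?_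
        have : v ∈ W := Submodule.subset_span (mem_coe.2 h1)
        rw [← heq] at this
        exact this.2
      calc A.card ≤ L * k + L := by omega
        _ = L * (k + 1) := by ring
        _ ≤ _ := Nat.mul_le_mul_left L hlt
  obtain ⟨m, hm1, hm2, hm3⟩ := PLD.equit hp hL hhorn
  have hload := load_bound (r := r) (b := 0) hp m hm1 hr (Or.inr rfl) (Nat.zero_le _) (by
    rw [hm2, card_sdiff_of_subset hYT, hY2]
    have : T₀.card ≤ T.card := card_le_card (filter_subset _ _)
    omega)
  have hfin := hY3.union (hm3.mono hload) disjoint_sdiff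
  rw [union_sdiff_of_subset hYT] at hfin
  refine hfin.mono ?_
  have hpos : (0 : ℝ) < (p : ℝ) ^ r := by
    have : (0 : ℝ) < p := by exact_mod_cast (Fact.out : p.Prime).pos
    positivity
  have h1 : (2 : ℝ) * (L * r + e * (r + 1)) ≤ (p : ℝ) ^ r := by
    have : 2 * (L * r + e * (r + 1)) ≤ p ^ r := by omega
    exact_mod_cast this
  unfold fl
  rw [Nat.cast_zero, sub_zero, zero_mul, add_zero]
  have h2 : (e : ℝ) * (((r : ℝ) + 1) * (2 / (p : ℝ) ^ r)) + (L : ℝ) * (2 * (r : ℝ) / (p : ℝ) ^ r) =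
      (2 * (L * r + e * (r + 1))) / (p : ℝ) ^ r := by
    field_simp
    ring
  rw [h2, div_le_one hpos]
  exact h1

theorem quad_le : ∀ q : ℕ, 2 ≤ q → 4 * q * (q - 1) ≤ 3 ^ q := by
  intro q hq
  induction q, hq using Nat.le_induction with
  | base => norm_num
  | succ q hq ih =>
    obtain ⟨s, rfl⟩ : ∃ s, q = s + 2 := ⟨q - 2, by omega⟩
    have e1 : s + 2 - 1 = s + 1 := by omega
    have e2 : s + 2 + 1 - 1 = s + 2 := by omega
    rw [e1] at ih
    rw [e2, pow_succ]
    nlinarith

theorem few {l b r N₀ q : ℕ} (hl2 : 2 ≤ l) (hbl : l < b) (hbr : b + 1 ≤ r)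
    (hN₀ : N₀ + b = l * r) (g1 : N₀ < l * (q + 1)) : l + 2 ≤ 2 * q := by
  by_contra hcon
  push Not at hcon
  obtain ⟨s, rfl⟩ : ∃ s, l = s + 2 := ⟨l - 2, by omega⟩
  have g2 : 2 * ((s + 2) * (q + 1)) ≤ (s + 2) * (s + 5) := by
    have : 2 * (q + 1) ≤ s + 5 := by omega
    calc 2 * ((s + 2) * (q + 1)) = (s + 2) * (2 * (q + 1)) := by ring
      _ ≤ _ := Nat.mul_le_mul_left _ this
  have g3 : (s + 1) * (s + 4) + 1 ≤ N₀ := by
    have h1 : (s + 2) * r = (s + 1) * r + r := by ring
    have h2 : (s + 1) * (s + 4) ≤ (s + 1) * r := Nat.mul_le_mul_left _ (by omega)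
    omega
  have h3 : 2 * ((s + 1) * (s + 4)) = 2 * s * s + 10 * s + 8 := by ring
  have h4 : (s + 2) * (s + 5) = s * s + 7 * s + 10 := by ring
  nlinarith

theorem exc7 {V : Type} [AddCommGroup V] [Module (ZMod 3) V] [Finite V] {T : Finset V}
    {U : Submodule (ZMod 3) V} (hT : ∀ t ∈ T, -t ∉ T) (hTU : ∀ t ∈ T, t ∈ U)
    (hU : finrank (ZMod 3) U = 3) (hc : T.card = 7) : PLD T 1 := by
  classical
  have : Fact (Nat.Prime 3) := ⟨Nat.prime_three⟩
  obtain ⟨X, h1, h2, h3⟩ := good3 (p := 3) le_rfl U le_rfl hU T hT hTU (by rw [hc]; norm_num)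
    (by rw [hc]; norm_num)
  have hRc : (T \ X).card = 3 := by rw [card_sdiff_of_subset h1, hc, h2]
  have hRa : ∀ t ∈ T \ X, -t ∉ T \ X :=
    fun t ht h => hT t (mem_sdiff.1 ht).1 (mem_sdiff.1 h).1
  have hR : PLD (T \ X) (18 / 27) := by
    by_cases hI : Ind (ZMod 3) (T \ X)
    · refine (PLD.indep le_rfl hI).mono ?_
      rw [hRc]; unfold fl; norm_num
    · have hk : finrank (ZMod 3) ↥(Submodule.span (ZMod 3) ((T \ X : Finset V) : Set V)) = 2 := by
        have g1 := half_bound (Submodule.span (ZMod 3) ((T \ X : Finset V) : Set V)) hRa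
          (fun t ht => Submodule.subset_span (mem_coe.2 ht))
        rw [hRc] at g1
        have g2 := finrank_span_finset_le_card (R := ZMod 3) (T \ X)
        rw [hRc] at g2
        unfold Set.finrank at g2
        unfold Ind at hI
        rw [hRc] at hI
        set k := finrank (ZMod 3) ↥(Submodule.span (ZMod 3) ((T \ X : Finset V) : Set V)) with hk
        have g3 : k ≤ 2 := by omega
        interval_cases k
        · norm_num at g1
        · norm_num at g1
        · rfl
      obtain ⟨X', k1, k2, k3⟩ := good2 (p := 3) le_rfl _ hk (T \ X) hRa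
        (fun t ht => Submodule.subset_span (mem_coe.2 ht)) (by rw [hRc])
      have : X' = T \ X := eq_of_subset_of_card_le k1 (by rw [hRc, k2])
      rw [this] at k3
      refine k3.mono ?_
      norm_num
  have hfin := h3.union hR disjoint_sdiff
  rw [union_sdiff_of_subset h1] at hfin
  refine hfin.mono ?_
  norm_num

theorem pld_one (hp : 3 ≤ p) (T : Finset V) (hT : ∀ t ∈ T, -t ∉ T) : PLD T 1 := by
  classical
  rcases T.eq_empty_or_nonempty with hTe | hTne
  · rw [hTe]; exact PLD.empty.mono zero_le_one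
  have h0 : (0 : V) ∉ T := fun h => hT 0 h (by rwa [neg_zero])
  obtain ⟨U₀, hr1, hrN, hd⟩ := exists_dense (p := p) T hTne h0
  set r := finrank (ZMod p) U₀ with hr
  set N₀ := cnt T U₀ with hN₀def
  have hcnt : N₀ = (T.filter (fun v => v ∈ U₀)).card := by
    rw [hN₀def]; unfold cnt
    congr 1
  have hs : 2 * N₀ + 1 ≤ p ^ r := by
    rw [hcnt]
    exact half_bound U₀ (fun t ht h => hT t (mem_filter.1 ht).1 (mem_filter.1 h).1)
      (fun t ht => (mem_filter.1 ht).2)
  have hNN : N₀ ≤ T.card := by rw [hcnt]; exact card_le_card (filter_subset _ _)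
  have hpos : (0 : ℝ) < (p : ℝ) ^ r := by
    have : (0 : ℝ) < p := by exact_mod_cast (Fact.out : p.Prime).pos
    positivity
  by_cases hdvd : r ∣ N₀
  · obtain ⟨l, hl⟩ := hdvd
    have hl1 : 0 < l := by
      rcases Nat.eq_zero_or_pos l with h | h
      · rw [h, mul_zero] at hl; omega
      · exact h
    obtain ⟨m, hm1, hm2, hm3⟩ := PLD.equit hp hl1
      (horn_of_dense hr1 hd (l := l) (by rw [← hN₀def, ← hr, hl, mul_comm]))
    have hload := load_bound (r := r) (b := 0) hp m hm1 hr1 (Or.inr rfl) (Nat.zero_le _) (by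
      rw [hm2, add_zero, mul_comm, ← hl]; exact hNN)
    refine (hm3.mono hload).mono ?_
    unfold fl
    rw [Nat.cast_zero, sub_zero, zero_mul, add_zero, mul_div_assoc', div_le_one hpos]
    have : l * (2 * r) ≤ p ^ r := by
      have : l * (2 * r) = 2 * N₀ := by rw [hl]; ring
      omega
    exact_mod_cast this
  · have hr2 : 2 ≤ r := by
      by_contra hcon
      have : r = 1 := by omega
      exact hdvd (this ▸ one_dvd _)
    set l := N₀ / r + 1 with hl
    have hdm := Nat.div_add_mod N₀ r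
    have hmod : N₀ % r < r := Nat.mod_lt _ (by omega)
    have hmod0 : N₀ % r ≠ 0 := fun h => hdvd (Nat.dvd_of_mod_eq_zero h)
    have hq1 : 1 ≤ N₀ / r := Nat.div_pos hrN (by omega)
    obtain ⟨b, hb⟩ : ∃ b, b + N₀ % r = r := ⟨r - N₀ % r, by omega⟩
    have hN₀ : N₀ + b = l * r := by
      rw [hl, add_mul, one_mul, mul_comm (N₀ / r)]; omega
    have hl2 : 2 ≤ l := by omega
    have hb1 : 1 ≤ b := by omega
    have hbr : b + 1 ≤ r := by omega
    have hhorn := horn_of_dense hr1 hd (l := l) (by rw [← hN₀def, ← hr]; omega)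
    obtain ⟨m, hm1, hm2, hm3⟩ := PLD.equit hp (by omega) hhorn
    rcases Nat.lt_or_ge l b with hbl | hbl
    · -- few classes
      set q := N₀ / l with hq
      have hlq : l * q ≤ N₀ := Nat.mul_div_le N₀ l
      have hq2 : l + 2 ≤ 2 * q := by
        have g1 : N₀ < l * (q + 1) := by
          have := Nat.lt_mul_div_succ N₀ (by omega : 0 < l)
          exact this
        exact few hl2 hbl hbr hN₀ g1
      have hload := load_bound (r := q) (b := 0) hp m hm1 (by omega) (Or.inr rfl)
        (Nat.zero_le _) (by rw [hm2]; omega)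
      refine (hm3.mono hload).mono ?_
      unfold fl
      have hposq : (0 : ℝ) < (p : ℝ) ^ q := by
        have : (0 : ℝ) < p := by exact_mod_cast (Fact.out : p.Prime).pos
        positivity
      rw [Nat.cast_zero, sub_zero, zero_mul, add_zero, mul_div_assoc', div_le_one hposq]
      have : l * (2 * q) ≤ p ^ q := by
        refine le_trans ?_ (Nat.pow_le_pow_left hp q)
        refine le_trans ?_ (quad_le q (by omega))
        obtain ⟨s, hs⟩ : ∃ s, q = s + 1 := ⟨q - 1, by omega⟩
        rw [hs, Nat.add_sub_cancel]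
        have : l ≤ 2 * s := by omega
        nlinarith
      exact_mod_cast this
    · have hp35 : p = 3 ∨ 5 ≤ p := by
        have hpp : p.Prime := Fact.out
        by_contra hcon
        have : p = 4 := by omega
        rw [this] at hpp
        revert hpp
        decide
      rcases alt_all hp35 hr2 hb1 hbr hbl hN₀ hs hNN with ⟨b', k1, k2, k3⟩ | k1 |
        ⟨L, e, k1, k2, k3, k4, k5, k6⟩ | ⟨hp3, hNeq, hexcs⟩
      · have hload := load_bound (r := r) (b := b') hp m hm1 hr1 (Or.inl hr2) k1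
          (by rw [hm2]; exact k2)
        refine (hm3.mono hload).mono ?_
        unfold fl
        have e1 : (p : ℝ) ^ r = (p : ℝ) ^ (r - 1) * p := by
          rw [← pow_succ]; congr 1; omega
        have hpp : (0 : ℝ) < p := by exact_mod_cast (Fact.out : p.Prime).pos
        have hpos' : (0 : ℝ) < (p : ℝ) ^ (r - 1) := by positivity
        have e2 : ((l : ℝ) - b') * (2 * (r : ℝ) / (p : ℝ) ^ r) +
            b' * (2 * ((r - 1 : ℕ) : ℝ) / (p : ℝ) ^ (r - 1)) =
            (2 * ((l : ℝ) - b') * r + 2 * b' * ((r - 1 : ℕ) : ℝ) * p) / (p : ℝ) ^ r := by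
          rw [e1]
          field_simp
        rw [e2, div_le_one hpos]
        have k3' : ((2 * (l - b') * r + 2 * b' * (r - 1) * p : ℕ) : ℝ) ≤ ((p ^ r : ℕ) : ℝ) := by
          exact_mod_cast k3
        rw [Nat.cast_add, Nat.cast_mul, Nat.cast_mul, Nat.cast_mul, Nat.cast_mul, Nat.cast_mul,
          Nat.cast_sub k1, Nat.cast_pow] at k3'
        push_cast at k3' ⊢
        exact k3'
      · have hload := load_bound (r := r + 1) (b := l - 2) hp m hm1 (by omega) (Or.inl (by omega))
          (by omega) (by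
            rw [hm2]
            have : l * (r + 1) = l * r + l := by ring
            omega)
        refine (hm3.mono hload).mono ?_
        unfold fl
        have hpp : (0 : ℝ) < p := by exact_mod_cast (Fact.out : p.Prime).pos
        have hp3 : (3 : ℝ) ≤ p := by exact_mod_cast hp
        rw [Nat.add_sub_cancel, Nat.cast_sub hl2]
        have e2 : ((l : ℝ) - ((l : ℝ) - (2 : ℕ))) * (2 * ((r + 1 : ℕ) : ℝ) / (p : ℝ) ^ (r + 1)) +
            ((l : ℝ) - (2 : ℕ)) * (2 * (r : ℝ) / (p : ℝ) ^ r) =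
            (4 * ((r : ℝ) + 1) + (2 * ((l : ℝ) * r) - 4 * r) * p) / (p : ℝ) ^ (r + 1) := by
          rw [pow_succ]
          push_cast
          field_simp
          ring
        rw [e2, div_le_one (by positivity), pow_succ]
        have g1 : (2 : ℝ) * (l * r) ≤ (p : ℝ) ^ r + 2 * r - 3 := by
          have : 2 * (l * r) + 3 ≤ p ^ r + 2 * r := by omega
          have : ((2 * (l * r) + 3 : ℕ) : ℝ) ≤ ((p ^ r + 2 * r : ℕ) : ℝ) := by exact_mod_cast this
          push_cast at this
          linarith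
        have hr2' : (2 : ℝ) ≤ r := by exact_mod_cast hr2
        nlinarith
      · exact S2 hp hT hr1 k1 k2 k3 k4 k5 k6
      · subst hp3
        have hTU : ∀ t ∈ T, t ∈ U₀ := by
          have : T.filter (fun v => v ∈ U₀) = T :=
            eq_of_subset_of_card_le (filter_subset _ _) (by rw [← hcnt, hNeq])
          intro t ht
          rw [← this] at ht
          exact (mem_filter.1 ht).2
        rcases hexcs with ⟨g1, g2⟩ | ⟨g1, g2⟩ | ⟨g1, g2⟩
        · obtain ⟨X, h1, h2, h3⟩ := good2 (p := 3) le_rfl U₀ g1 T hT hTU (by omega)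
          have : X = T := eq_of_subset_of_card_le h1 (by omega)
          rw [this] at h3
          refine h3.mono ?_
          norm_num
        · exact exc7 hT hTU g1 (by omega)
        · exact exc11 T U₀ hT hTU g1 (by omega)

end Run7.h686
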